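import Pool.Agent.Lib.TWI.IXb
import Pool.Agent.Lib.TWQ.QX
import Pool.Agent.Lib.TW.Exit

/-!
# TANK W, row IX: the class of the valuations approximable from a field of defect at most two
-/

set_option autoImplicit false

open Polynomial

namespace Pool.Agent.TW

open Pool.Agent.H15JM (RVal)
open Pool.Agent.LU1 (VPos)
open Pool.Agent.LU2 Pool.Agent.LU2G
open Pool.Agent.LUC (LUs LUrV)
open Pool.Agent.D2 (Ctx0 lur_of_lurV residue_ext0)

universe u

/-- The valuation ring `V` of `K` has residue field `k` and is the restriction of a valuation ring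
`W` of rank one of a field `Ω` with a subfield `L` of finite transcendence degree, of Abhyankar
defect at most two and with finitely generated value group, such that all elements of `K` are
limits of elements of `L`. -/
def Lim2Cls (k : Type u) [Field k] : Cls k := fun K _ _ V =>
  (∀ f ∈ V, ∃ c : k, V.valuation (f - algebraMap k K c) < 1) ∧
  ∃ (Ω : Type u) (_ : Field Ω) (_ : Algebra k Ω) (j : K →ₐ[k] Ω) (W : ValuationSubring Ω)
    (L : IntermediateField k Ω), (∀ c : k, algebraMap k Ω c ∈ W) ∧ W ⋖ ⊤ ∧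
      W.comap (j : K →+* Ω) = V ∧ DefLE k (W.comap (algebraMap L Ω)) 2 ∧
      AddGroup.FG (VGrp (W.comap (algebraMap L Ω))) ∧
      ∀ (f : K) (g : Ω), g ≠ 0 → ∃ α ∈ L, W.valuation (j f - α) < W.valuation g

theorem Lim2Cls.sub (k : Type u) [Field k] : (Lim2Cls k).Sub := by
  rintro K _ _ V hkV hfin ⟨h0, Ω, _, _, j, W, L, hk, hW, hV, hD, hG, hd⟩ L'
  refine ⟨ZeroCls.sub k K V hkV hfin h0 L', Ω, inferInstance, inferInstance, j.comp L'.val, W, L,
    hk, hW, ?_, hD, hG, fun f g hg => hd f g hg⟩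
  rw [← hV]
  rfl

namespace IX

/-- Everything in an algebraically closed overfield. -/
theorem exists_top {k K Ω : Type u} [Field k] [IsAlgClosed k] [Field K] [Algebra k K] [Field Ω]
    [Algebra k Ω] {δ : ℕ} {V : ValuationSubring K} (hVtop : V ≠ ⊤) (j : K →ₐ[k] Ω)
    {W : ValuationSubring Ω} {L : IntermediateField k Ω}
    (hk : ∀ c : k, algebraMap k Ω c ∈ W) (hW : W ⋖ ⊤) (hV : W.comap (j : K →+* Ω) = V)
    (hD : DefLE k (W.comap (algebraMap L Ω)) δ)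
    (hd : ∀ (f : K) (g : Ω), g ≠ 0 → ∃ α ∈ L, W.valuation (j f - α) < W.valuation g) :
    ∃ (Ω₁ : Type u) (_ : Field Ω₁) (_ : Algebra k Ω₁) (_ : IsAlgClosed Ω₁) (w : RVal Ω₁)
      (j₁ : K →ₐ[k] Ω₁) (L₁ : IntermediateField k Ω₁) (e : L ≃ₐ[k] L₁), Triv k w ∧
        (∀ f : K, f ∈ V ↔ w.Ge 0 (j₁ f)) ∧ (∃ f : K, f ≠ 0 ∧ 0 < w (j₁ f)) ∧ DefL w L₁ δ ∧
        (∀ g : L, g ≠ 0 → (g ∈ W.comap (algebraMap L Ω) ↔ 0 ≤ w (e g : Ω₁))) ∧
        ∀ f : K, LimAlg w L₁ (j₁ f) := by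
  classical
  obtain ⟨v₀, w, hrel, hw, hWw, -, c₀, hc₀, hc₀v⟩ := LUC.exists_entry W (QX.isR1_of_covBy hW)
  let Ω₁ : Type u := AlgebraicClosure Ω
  let ι : Ω →ₐ[k] Ω₁ := IsScalarTower.toAlgHom k Ω Ω₁
  have hι : ∀ g : Ω, ι g = algebraMap Ω Ω₁ g := fun g => rfl
  let j₁ : K →ₐ[k] Ω₁ := ι.comp j
  have htriv₀ : ∀ c : k, c ≠ 0 → v₀ (algebraMap k Ω c) = 0 := by
    intro c hc
    have hc' : algebraMap k Ω c ≠ 0 := by rwa [_root_.map_ne_zero]
    have h1 := (hrel _ hc').1 (hk c)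
    have h2 := (hrel _ (inv_ne_zero hc')).1 (by rw [← map_inv₀]; exact hk c⁻¹)
    rw [v₀.map_inv hc'] at h2
    linarith
  have htriv : Triv k w := by
    intro c hc
    have hc' : algebraMap k Ω c ≠ 0 := by rwa [_root_.map_ne_zero]
    rw [IsScalarTower.algebraMap_apply k Ω Ω₁, hw _ hc']
    exact htriv₀ c hc
  have hVw : ∀ f : K, f ∈ V ↔ w.Ge 0 (j₁ f) := by
    intro f
    rw [← hV]
    exact hWw (j f)
  -- elements of positive value
  have hpos : ∃ f : K, f ≠ 0 ∧ 0 < w (j₁ f) := by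
    by_contra hcon
    push Not at hcon
    apply hVtop
    rw [eq_top_iff]
    intro f _
    rw [hVw]
    intro h0
    have hf : f ≠ 0 := by
      rintro rfl
      exact h0 (map_zero j₁)
    by_contra h1
    have h2 := hcon f⁻¹ (inv_ne_zero hf)
    rw [map_inv₀, w.map_inv h0] at h2
    linarith
  have hlim : ∀ f : K, LimAlg w (L.map ι) (j₁ f) := by
    intro f C
    obtain ⟨n, hn⟩ := exists_nat_gt (C / v₀ c₀)
    have hn' : C < n * v₀ c₀ := (div_lt_iff₀ hc₀v).1 hn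
    obtain ⟨α, hα, h1⟩ := hd f (c₀ ^ n) (pow_ne_zero _ hc₀)
    have hαL : ι α ∈ L.map ι := (IntermediateField.mem_map _).2 ⟨α, hα, rfl⟩
    refine ⟨ι α, isAlgebraic_algebraMap (⟨ι α, hαL⟩ : L.map ι), ?_⟩
    intro h0
    have h3 : j₁ f - ι α = ι (j f - α) := by
      rw [map_sub]
      rfl
    rw [h3] at h0 ⊢
    have h4 : j f - α ≠ 0 := by
      intro h4
      rw [h4, map_zero] at h0
      exact h0 rfl
    rw [hι, hw _ h4]
    have h5 := (hrel.lt_iff h4 (pow_ne_zero _ hc₀)).1 h1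
    rw [v₀.map_pow hc₀] at h5
    linarith
  have hDL : DefL w (L.map ι) δ := by
    have h1 : (ι.comp L.val).fieldRange = L.map ι := IntermediateField.fieldRange_comp_val L ι
    rw [← h1]
    refine QX.defL_of_defLE (V := W.comap (algebraMap L Ω)) (ι.comp L.val) (fun f hf => ?_)
      (fun c => ?_) hD
    · have hf' : (f : Ω) ≠ 0 := fun h0 => hf (Subtype.ext h0)
      rw [ValuationSubring.mem_comap]
      change (f : Ω) ∈ W ↔ 0 ≤ w (algebraMap Ω Ω₁ (f : Ω))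
      rw [hw _ hf']
      exact hrel _ hf'
    · rw [ValuationSubring.mem_comap]
      exact hk c
  refine ⟨Ω₁, inferInstance, inferInstance, inferInstance, w, j₁, L.map ι, L.equivMap ι, htriv,
    hVw, hpos, hDL, fun g hg => ?_, hlim⟩
  have hg' : (g : Ω) ≠ 0 := fun h0 => hg (Subtype.ext h0)
  rw [ValuationSubring.mem_comap]
  change (g : Ω) ∈ W ↔ 0 ≤ w (algebraMap Ω Ω₁ (g : Ω))
  rw [hw _ hg']
  exact hrel _ hg'

/-- The data in the algebraic closure of `K`. -/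
theorem exists_closure {k K Ω₁ : Type u} [Field k] [Field K] [Algebra k K] [Field Ω₁]
    [Algebra k Ω₁] [IsAlgClosed Ω₁] {V : ValuationSubring K} {v : RVal Ω₁} (j₁ : K →ₐ[k] Ω₁)
    (htriv : Triv k v) (hVv : ∀ f : K, f ∈ V ↔ v.Ge 0 (j₁ f))
    (hpos : ∃ f : K, f ≠ 0 ∧ 0 < v (j₁ f)) {m : ℕ} {t : Fin m → K} {δ : ℕ}
    {G : AddSubgroup ℝ}
    (hDt : DefL v (IntermediateField.adjoin k (Set.range fun i => j₁ (t i))) δ)
    (hGt : ∀ g ∈ IntermediateField.adjoin k (Set.range fun i => j₁ (t i)), g ≠ 0 → v g ∈ G)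
    (hlt : ∀ f : K, LimAlg v (IntermediateField.adjoin k (Set.range fun i => j₁ (t i))) (j₁ f)) :
    ∃ (w : RVal (AlgebraicClosure K)) (L : IntermediateField k (AlgebraicClosure K)),
      Triv k w ∧ (∀ f : K, f ∈ V ↔ w.Ge 0 (algebraMap K (AlgebraicClosure K) f)) ∧
      (∃ f : K, f ≠ 0 ∧ 0 < w (algebraMap K (AlgebraicClosure K) f)) ∧ DefL w L δ ∧
      (∀ g ∈ L, g ≠ 0 → w g ∈ G) ∧
      ∀ f : K, LimAlg w L (algebraMap K (AlgebraicClosure K) f) := by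
  classical
  let Ω₂ : Type u := AlgebraicClosure K
  let _ : Algebra K Ω₁ := (j₁ : K →+* Ω₁).toAlgebra
  have hJ₀ : ∃ J : Ω₂ →ₐ[K] Ω₁, True := ⟨IsAlgClosed.lift, trivial⟩
  obtain ⟨J₀, -⟩ := hJ₀
  have hJ₀K : ∀ f : K, J₀ (algebraMap K Ω₂ f) = j₁ f := fun f => J₀.commutes f
  let J : Ω₂ →ₐ[k] Ω₁ :=
    { (J₀ : Ω₂ →+* Ω₁) with
      commutes' := fun c => by
        change J₀ (algebraMap k Ω₂ c) = algebraMap k Ω₁ c
        rw [IsScalarTower.algebraMap_apply k K Ω₂, hJ₀K, j₁.commutes] }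
  have hJK : ∀ f : K, J (algebraMap K Ω₂ f) = j₁ f := hJ₀K
  let w : RVal Ω₂ := QX.pullE v (J : Ω₂ →+* Ω₁)
  have hw : ∀ f : Ω₂, w f = v (J f) := fun f => rfl
  let L₂ : IntermediateField k Ω₂ :=
    IntermediateField.adjoin k (Set.range fun i => algebraMap K Ω₂ (t i))
  have hL₂ : L₂.map J = IntermediateField.adjoin k (Set.range fun i => j₁ (t i)) := by
    rw [IntermediateField.adjoin_map, ← Set.range_comp]
    congr 2
    funext i
    exact hJK (t i)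
  rw [← hL₂] at hDt hGt hlt
  refine ⟨w, L₂, QX.triv_pullE J htriv, fun f => ?_, ?_, QX.defL_pull J hDt, fun g hg hg0 => ?_,
    fun f => ?_⟩
  · rw [hVv f, ← hJK f]
    exact QX.pullE_ge.symm
  · obtain ⟨f, hf, hfv⟩ := hpos
    refine ⟨f, hf, ?_⟩
    change 0 < v (J (algebraMap K Ω₂ f))
    rw [hJK]
    exact hfv
  · exact hGt _ ((IntermediateField.mem_map _).2 ⟨g, hg, rfl⟩) ((map_ne_zero J).2 hg0)
  · refine QX.limAlg_pull J ?_
    have h1 := hlt f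
    rw [← hJK f] at h1
    exact h1

end IX

open IX in
/-- Log uniformization of the real valuations of the class. -/
theorem realCls_lim2 (p : ℕ) [Fact p.Prime] {k : Type u} [Field k] [IsAlgClosed k] [CharP k p]
    (H4 : IrrStmt k 2) : RealCls (Lim2Cls k) := by
  classical
  rintro K _ _ hK V hkV hR ⟨hres, Ω, _, _, j, W, L, hk, hW, hV, hD, hG, hd⟩
  obtain ⟨Ω₁, _, _, _, v, j₁, L₁, e, htriv, hVv, hpos, hDL, heL, hlim⟩ :=
    exists_top hR.1 j hk hW hV hD hd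
  have hG₁ : (valG v L₁).FG := valG_fg e heL hG
  have hEfg₁ : j₁.fieldRange.FG := by
    obtain ⟨S, hS⟩ := hK
    refine ⟨S.image j₁, ?_⟩
    rw [Finset.coe_image, ← IntermediateField.adjoin_map, hS]
    exact (AlgHom.fieldRange_eq_map j₁).symm
  obtain ⟨f₀, hf₀, hf₀v⟩ := hpos
  obtain ⟨m, t, ht, -, hDt, ⟨G, hGfg, hGt⟩, hlt⟩ := exists_small_fg htriv hEfg₁
    ⟨j₁ f₀, ⟨f₀, rfl⟩, (map_ne_zero j₁).2 hf₀, hf₀v⟩ hDL hG₁ (fun g hg hg0 => ⟨g, hg, hg0, rfl⟩)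
    (by rintro _ ⟨f, rfl⟩; exact hlim f)
  choose t' ht' using ht
  have hr : Set.range t = (Set.range fun i => j₁ (t' i)) := by
    congr 1
    funext i
    exact (ht' i).symm
  rw [hr] at hDt hGt hlt
  obtain ⟨w, L₂, htriv₂, hV₂, ⟨f₁, hf₁, hf₁v⟩, hD₂, hG₂, hlim₂⟩ :=
    exists_closure j₁ htriv hVv ⟨f₀, hf₀, hf₀v⟩ hDt hGt fun f => hlt _ ⟨f, rfl⟩
  let Ω₂ : Type u := AlgebraicClosure K
  let ι : K →ₐ[k] Ω₂ := IsScalarTower.toAlgHom k K Ω₂
  let E : IntermediateField k Ω₂ := ι.fieldRange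
  have hE : E.toSubfield = (algebraMap K Ω₂).fieldRange := by
    ext f
    constructor
    · rintro ⟨g, hg⟩
      exact ⟨g, hg⟩
    · rintro ⟨g, hg⟩
      exact ⟨g, hg⟩
  have hEfg : E.FG := by
    obtain ⟨S, hS⟩ := hK
    refine ⟨S.image ι, ?_⟩
    rw [Finset.coe_image, ← IntermediateField.adjoin_map, hS]
    exact (AlgHom.fieldRange_eq_map ι).symm
  have halg : ∀ g : Ω₂, IsAlgebraic E g := by
    intro g
    obtain ⟨P, hP0, hP⟩ := (Algebra.IsAlgebraic.isAlgebraic g : IsAlgebraic K g)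
    let i : K →+* E := (ι.rangeRestrict : K →ₐ[k] ι.range).toRingHom
    refine ⟨P.map i, ?_, ?_⟩
    · exact (Polynomial.map_ne_zero_iff i.injective).2 hP0
    · rw [Polynomial.aeval_def, Polynomial.eval₂_map]
      exact hP
  -- the residue field
  let v₀ : RVal K := QX.pullE w (algebraMap K Ω₂)
  have hrel : LU2.Rel V v₀ := by
    intro f hf
    rw [hV₂ f]
    exact ⟨fun h1 => h1 ((map_ne_zero (algebraMap K Ω₂)).2 hf), fun h1 _ => h1⟩
  have hc0 : Ctx0 k v₀ := by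
    refine ⟨fun c hc => ?_, fun g hg hg0 => ?_⟩
    · rw [QX.pullE_apply, ← IsScalarTower.algebraMap_apply]
      exact htriv₂ c hc
    · obtain ⟨c, hc⟩ := hres g ((hrel g hg).2 hg0.ge)
      have hc1 := (hrel.lt_one_iff' _).1 hc
      refine ⟨c, ?_, hc1⟩
      rintro rfl
      rw [_root_.map_zero, sub_zero] at hc1
      have h1 := hc1 hg
      rw [hg0] at h1
      exact lt_irrefl _ h1
  have hctx : Ctx0 k w := ⟨htriv₂, residue_ext0 v₀ hc0 w fun g _ => rfl⟩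
  have hfin : LUs w (algebraMap k Ω₂).range E.toSubfield :=
    lus_of_limAlg_two p H4 hctx hEfg halg
      ⟨ι f₁, ⟨f₁, rfl⟩, (map_ne_zero ι).2 hf₁, hf₁v⟩ hGfg hG₂ hD₂
      (by rintro _ ⟨f, rfl⟩; exact hlim₂ f)
  rw [hE] at hfin
  exact lur_of_lurV (hfin.lurV hV₂ hkV)

end Pool.Agent.TW
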