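import Pool.Agent.Lib.TWI.IXc
import Pool.Agent.Lib.TWI.IXd
import Pool.Agent.Lib.TWQ.QXt
import Pool.Agent.Lib.TW.TopS

/-!
# TANK W, row IX: the components approximable from a field of defect at most two
-/

set_option autoImplicit false

namespace Pool.Agent.TW

open Pool.Agent.LU2 Pool.Agent.LU2G Pool.Agent.LU2H

universe u

/-- The residue field of `V₁` is algebraic over `k`, and the component between the valuation rings
`V₁ ⊂ V₂` is approximable from a field of defect at most two: for some field `Ω` over `k` which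
contains the residue field of `V₂`, some valuation ring `W` of rank one of `Ω` which cuts out the
image of `V₁` in it, and some subfield `L` of `Ω` over `k` of finite transcendence degree, this
degree is at most the sum of the transcendence degree over `k` of the residue field of `W ∩ L`, of
the rational rank of the value group of `W ∩ L`, and of two, this value group is finitely generated,
and all elements of the residue field of `V₂` are limits, for `W`, of elements of `L`. -/
def Lim2Component {k K : Type} [Field k] [Field K] (ι : k →+* K) (V₁ V₂ : ValuationSubring K)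
    (h₁ : ∀ a, ι a ∈ V₁) (h₂ : ∀ a, ι a ∈ V₂) : Prop :=
  resDegree ι V₁ h₁ = 0 ∧
  ∃ (Ω : Type) (_ : Field Ω) (_ : Algebra k Ω) (j : IsLocalRing.ResidueField V₂ →+* Ω)
    (W : ValuationSubring Ω) (L : IntermediateField k Ω)
    (hL : ∀ a : k, algebraMap k L a ∈ W.comap (algebraMap L Ω)),
    (∀ a : k, j (IsLocalRing.residue V₂ ⟨ι a, h₂ a⟩) = algebraMap k Ω a) ∧
    (∀ f : V₂, j (IsLocalRing.residue V₂ f) ∈ W ↔ (f : K) ∈ V₁) ∧ W ⋖ ⊤ ∧
    Algebra.trdeg k L < Cardinal.aleph0 ∧
    Algebra.trdeg k L ≤ resDegree (algebraMap k L) (W.comap (algebraMap L Ω)) hL +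
      compRank (W.comap (algebraMap L Ω)) ⊤ + 2 ∧
    AddGroup.FG (CompGroup (W.comap (algebraMap L Ω)) ⊤) ∧
    ∀ (f : IsLocalRing.ResidueField V₂) (g : Ω), g ≠ 0 →
      ∃ α ∈ L, W.valuation (j f - α) < W.valuation g

/-- The value group of a valuation ring as the group of a component. -/
theorem VGrp.fg_of_compGroup_top {K : Type} [Field K] {V : ValuationSubring K}
    (h : AddGroup.FG (CompGroup V ⊤)) : AddGroup.FG (VGrp V) := by
  let f : (⊤ : ValuationSubring K).unitGroup →* Kˣ ⧸ V.unitGroup :=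
    (QuotientGroup.mk' V.unitGroup).comp (⊤ : ValuationSubring K).unitGroup.subtype
  have hf : V.unitGroup.subgroupOf (⊤ : ValuationSubring K).unitGroup ≤ f.ker := by
    intro x hx
    rw [MonoidHom.mem_ker]
    exact (QuotientGroup.eq_one_iff _).2 (Subgroup.mem_subgroupOf.1 hx)
  let g : ((⊤ : ValuationSubring K).unitGroup ⧸
      V.unitGroup.subgroupOf (⊤ : ValuationSubring K).unitGroup) →* Kˣ ⧸ V.unitGroup :=
    QuotientGroup.lift _ f hf
  have hg : Function.Surjective g := by
    intro y
    obtain ⟨y, rfl⟩ := QuotientGroup.mk'_surjective _ y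
    have hy : y ∈ (⊤ : ValuationSubring K).unitGroup := by
      rw [ValuationSubring.mem_unitGroup_iff]
      apply le_antisymm
      · rw [ValuationSubring.valuation_le_one_iff]
        exact ValuationSubring.mem_top _
      · rw [← not_lt, ← one_lt_inv₀ ((Valuation.pos_iff _).2 y.ne_zero), ← map_inv₀, not_lt,
          ValuationSubring.valuation_le_one_iff]
        exact ValuationSubring.mem_top _
    exact ⟨QuotientGroup.mk' _ ⟨y, hy⟩, rfl⟩
  exact addGroup_fg_of_surj (G := CompGroup V ⊤) (H := VGrp V) (MonoidHom.toAdditive g) hg h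

theorem Lim2Component.cls {k K : Type} [Field k] [IsAlgClosed k] [Field K] [Algebra k K]
    {V₁ V₂ : ValuationSubring K} (hle : V₁ ≤ V₂) (h₁ : ∀ a : k, algebraMap k K a ∈ V₁)
    (h₂ : ∀ a : k, algebraMap k K a ∈ V₂) (h : Lim2Component (algebraMap k K) V₁ V₂ h₁ h₂) :
    @Lim2Cls k _ (IsLocalRing.ResidueField V₂) _ (((IsLocalRing.residue V₂).comp
      ((algebraMap k K).codRestrict V₂ h₂)).toAlgebra) (imgV hle) := by
  let alg : Algebra k (IsLocalRing.ResidueField V₂) :=
    ((IsLocalRing.residue V₂).comp ((algebraMap k K).codRestrict V₂ h₂)).toAlgebra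
  have hres : IsRes (k := k) V₁ V₂ (IsLocalRing.residue V₂) (imgV hle) :=
    isRes_residue hle h₁ h₂
  obtain ⟨h0, Ω, _, _, j, W, L, hkL, hj, hV, hW, hfin, hdeg, hG, hd⟩ := h
  let j' : IsLocalRing.ResidueField V₂ →ₐ[k] Ω := { j with commutes' := hj }
  refine ⟨zero_res hle h₁ h₂ h0, Ω, inferInstance, inferInstance, j', W, L, fun c => hkL c, hW,
    ?_, ?_, VGrp.fg_of_compGroup_top hG, hd⟩
  · ext f
    obtain ⟨y, rfl⟩ := hres.surj f
    rw [ValuationSubring.mem_comap, hres.mem]
    exact hV y
  · have h4 : Algebra.trdeg k L ≤ compRank (W.comap (algebraMap L Ω)) ⊤ +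
        resDegree (algebraMap k L) (W.comap (algebraMap L Ω)) hkL + ((2 : ℕ) : Cardinal) := by
      rw [add_comm (compRank _ _), Nat.cast_ofNat]
      exact hdeg
    obtain ⟨r, d, hr, hd', hT⟩ := exists_nat_split hfin h4
    obtain ⟨x, -, hx⟩ := exists_units (W.comap (algebraMap L Ω)) ⊤ hr
    obtain ⟨z, hz⟩ := exists_indRes' (W.comap (algebraMap L Ω)) hkL hd'
    exact ⟨r, d, hT, ⟨x, hx⟩, ⟨z, hz⟩⟩

/-- The classes of the approximable valuations. -/
abbrev ApprCls (k : Type u) [Field k] : Cls k := (LimCls k 1).union (Lim2Cls k)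

theorem ApprCls.sub (k : Type u) [Field k] : (ApprCls k).Sub :=
  (LimCls.sub k 1).union (Lim2Cls.sub k)

theorem realCls_appr (p : ℕ) [Fact p.Prime] (k : Type u) [Field k] [IsAlgClosed k] [CharP k p] :
    RealCls (ApprCls k) :=
  (realCls_lim p).union (realCls_lim2 p (irrStmt_two p k))

/-- The condition of the final theorems is sufficient. -/
theorem suff_appr {k K : Type} [Field k] [IsAlgClosed k] [Field K] [Algebra k K] :
    Suff (k := k) (K := K) (ApprCls k) fun V₁ V₂ h₁ h₂ =>
      LimComponent (algebraMap k K) V₁ V₂ h₁ h₂ ∨ Lim2Component (algebraMap k K) V₁ V₂ h₁ h₂ := by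
  rintro V₁ V₂ hle h₁ h₂ (h | h) -
  · exact Or.inl (h.cls hle h₁ h₂)
  · exact Or.inr (h.cls hle h₁ h₂)

end Pool.Agent.TW
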