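import Pool.Agent.Lib.LUC.Q1
import Pool.Agent.Lib.LCD.B4
import Pool.Agent.Lib.LU1_h15.Reg
import Pool.Agent.Lib.D2.Ctx0

/-!
# TANK W, row I2 (REF), part a: the dimension of the local rings `lv v (k[F])`
-/

set_option autoImplicit false

open Polynomial

namespace Pool.Agent.TWI

open Pool.Agent.H15JM (RVal)
open Pool.Agent.LU1 (VPos)
open Pool.Agent.D2 (Ctx0)
open Pool.Agent.LUC
open scoped IntermediateField.algebraAdjoinAdjoin

universe u

/-- Maximal ideals of a finitely generated domain have height the transcendence degree. -/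
theorem height_eq {k A K : Type u} [Field k] [CommRing A] [IsDomain A] [Algebra k A]
    [Algebra.FiniteType k A] [Field K] [Algebra k K] [Algebra A K] [IsScalarTower k A K]
    [FaithfulSMul A K] [Algebra.IsAlgebraic A K] (n : ℕ) (hn : Algebra.trdeg k K = n)
    (P : Ideal A) (hP : P.IsMaximal) : P.height = (n : ℕ∞) := by
  refine le_antisymm ?_ (Pool.Agent.LU1.RegAux.le_height n hn P hP)
  obtain ⟨s, g, hinj, hint⟩ := exists_integral_inj_algHom_of_fg k A
  let _ : Algebra (MvPolynomial (Fin s) k) A := g.toRingHom.toAlgebra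
  have h1 : Algebra.IsIntegral (MvPolynomial (Fin s) k) A := ⟨hint⟩
  have h2 : FaithfulSMul (MvPolynomial (Fin s) k) A := by
    rw [faithfulSMul_iff_algebraMap_injective]
    exact hinj
  -- the transcendence degree
  let _ : Algebra (MvPolynomial (Fin s) k) K :=
    ((algebraMap A K).comp (algebraMap (MvPolynomial (Fin s) k) A)).toAlgebra
  have h7 : IsScalarTower (MvPolynomial (Fin s) k) A K := IsScalarTower.of_algebraMap_eq fun _ => rfl
  have h8 : IsScalarTower k (MvPolynomial (Fin s) k) K := by
    refine IsScalarTower.of_algebraMap_eq fun c => ?_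
    change algebraMap k K c = algebraMap A K (g (algebraMap k _ c))
    rw [g.commutes, ← IsScalarTower.algebraMap_apply k A K]
  have h9 : FaithfulSMul (MvPolynomial (Fin s) k) K := by
    rw [faithfulSMul_iff_algebraMap_injective]
    exact (FaithfulSMul.algebraMap_injective A K).comp hinj
  have h10 : Algebra.IsAlgebraic (MvPolynomial (Fin s) k) K :=
    Algebra.IsAlgebraic.trans (MvPolynomial (Fin s) k) A K
  have h11 : Algebra.trdeg k (MvPolynomial (Fin s) k) +
      Algebra.trdeg (MvPolynomial (Fin s) k) K = Algebra.trdeg k K :=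
    trdeg_add_eq k (MvPolynomial (Fin s) k)
  have h0 : Algebra.trdeg (MvPolynomial (Fin s) k) K = 0 := trdeg_eq_zero
  rw [h0, MvPolynomial.trdeg_of_isDomain, hn] at h11
  have h12 : s = n := by
    simp only [Cardinal.mk_fin, Cardinal.lift_natCast, add_zero] at h11
    exact_mod_cast h11
  subst h12
  have h13 : (P.height : WithBot ℕ∞) ≤ ringKrullDim A :=
    Ideal.height_le_ringKrullDim_of_ne_top hP.ne_top
  have h14 : ringKrullDim A ≤ ringKrullDim (MvPolynomial (Fin s) k) :=
    LCD.ringKrullDim_le_of_integral _ _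
  rw [MvPolynomial.ringKrullDim_of_isNoetherianRing, ringKrullDim_eq_zero_of_field, zero_add,
    Nat.card_eq_fintype_card, Fintype.card_fin] at h14
  exact_mod_cast h13.trans h14

variable {k Ω : Type u} [Field k] [Field Ω] [Algebra k Ω] {v : RVal Ω}

theorem mem_adj_iff (F : Set Ω) (x : Ω) :
    x ∈ adj (algebraMap k Ω).range F ↔ x ∈ Algebra.adjoin k F := by
  have h1 : (Algebra.adjoin k F).toSubring = adj (algebraMap k Ω).range F := by
    rw [Algebra.adjoin_eq_ring_closure, adj]
    rfl
  rw [← h1]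
  rfl

/-- The dimension of the local ring is the transcendence degree. -/
theorem dim_eq (h : Ctx0 k v) {F : Set Ω} (hF : F.Finite) (hF0 : ∀ a ∈ F, v.Ge 0 a) {d : ℕ}
    (hd : Algebra.trdeg k (IntermediateField.adjoin k F) = d) :
    ringKrullDim (lv v (adj (algebraMap k Ω).range F)) = d := by
  set B : Subring Ω := adj (algebraMap k Ω).range F with hB
  set A := Algebra.adjoin k F with hA
  have hBA : ∀ x, x ∈ B ↔ x ∈ A := mem_adj_iff F
  have hle : ∀ x ∈ A, x ∈ lv v B := fun x hx => le_lv v B ((hBA x).2 hx)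
  have hB0 : ∀ a ∈ B, v.Ge 0 a := adj_nonneg (by rintro _ ⟨c, rfl⟩; exact h.ge c) hF0
  have hA0 : ∀ a ∈ A, v.Ge 0 a := fun a ha => hB0 a ((hBA a).2 ha)
  let φ : A →+* lv v B :=
    { toFun := fun a => ⟨a, hle a a.2⟩
      map_one' := rfl
      map_zero' := rfl
      map_mul' := fun _ _ => rfl
      map_add' := fun _ _ => rfl }
  let _ : Algebra A (lv v B) := φ.toAlgebra
  have hφ : ∀ a : A, ((algebraMap A (lv v B) a : lv v B) : Ω) = a := fun _ => rfl
  let p : Ideal A :=
    { carrier := {a | VPos v (a : Ω)}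
      add_mem' := fun {a b} ha hb => by
        have := VPos.add ha hb
        exact this
      zero_mem' := VPos.zero
      smul_mem' := fun c a ha => by
        have := VPos.mul' (hA0 c c.2) ha
        exact this }
  have hmem : ∀ a : A, a ∈ p ↔ VPos v (a : Ω) := fun a => Iff.rfl
  have h1p : (1 : A) ∉ p := by
    intro h1
    have h2 := ((hmem 1).1 h1) one_ne_zero
    have h3 : v ((1 : A) : Ω) = 0 := v.map_one
    rw [h3] at h2
    exact lt_irrefl _ h2
  have hp : p.IsMaximal := by
    rw [Ideal.isMaximal_iff]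
    refine ⟨h1p, fun J x hJ hx hxJ => ?_⟩
    obtain ⟨c, hc⟩ := h.residue (hA0 x x.2)
    have hxc : x - algebraMap k A c ∈ p := hc
    have hc0 : c ≠ 0 := by
      rintro rfl
      rw [_root_.map_zero, sub_zero] at hxc
      exact hx hxc
    have h2 : algebraMap k A c ∈ J := by
      have h3 := J.sub_mem hxJ (hJ hxc)
      rwa [sub_sub_cancel] at h3
    have h4 := J.mul_mem_left (algebraMap k A c⁻¹) h2
    rwa [← _root_.map_mul, inv_mul_cancel₀ hc0, _root_.map_one] at h4
  have hpr : p.IsPrime := hp.isPrime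
  have hloc : IsLocalization.AtPrime (lv v B) p := by
    rw [IsLocalization.AtPrime, isLocalization_iff]
    refine ⟨?_, ?_, ?_⟩
    · rintro ⟨y, hy⟩
      have hy0 : (y : Ω) ≠ 0 := by
        intro h0
        apply hy
        rw [SetLike.mem_coe, hmem, h0]
        exact VPos.zero
      have hyv : v (y : Ω) = 0 := by
        by_contra h1
        apply hy
        rw [SetLike.mem_coe, hmem]
        intro _
        exact lt_of_le_of_ne (hA0 y y.2 hy0) (Ne.symm h1)
      refine IsUnit.of_mul_eq_one ⟨(y : Ω)⁻¹, lv_inv (hle y y.2) hy0 hyv⟩ ?_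
      apply Subtype.ext
      exact mul_inv_cancel₀ hy0
    · rintro ⟨z, a, ha, b, hb, hb0, hvb, hab⟩
      refine ⟨(⟨a, (hBA a).1 ha⟩, ⟨⟨b, (hBA b).1 hb⟩, ?_⟩), ?_⟩
      · intro h1
        have h2 := ((hmem _).1 h1) hb0
        change 0 < v b at h2
        rw [hvb] at h2
        exact lt_irrefl _ h2
      · apply Subtype.ext
        change z * b = a
        rw [hab, div_mul_cancel₀ _ hb0]
    · intro x y hxy
      refine ⟨1, ?_⟩
      have h1 : (x : Ω) = y := congrArg (fun t : lv v B => (t : Ω)) hxy
      rw [Subtype.ext h1]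
  have hft : Algebra.FiniteType k A := (Subalgebra.fg_iff_finiteType _).1
    ⟨hF.toFinset, by rw [hF.coe_toFinset]⟩
  have h1 := height_eq (A := A) (K := IntermediateField.adjoin k F) d hd p hp
  rw [IsLocalization.AtPrime.ringKrullDim_eq_height p (lv v B), h1]
  rfl

end Pool.Agent.TWI
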