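import Pool.Agent.Lib.TWI.I2g

/-!
# TANK W, row I2 (REF): toric refinement of a chart
-/

set_option autoImplicit false

open Polynomial

namespace Pool.Agent.TWI

open Pool.Agent.H15JM (RVal)
open Pool.Agent.LU1 (VPos)
open Pool.Agent.D2 (Ctx0)
open Pool.Agent.LUC

universe u

variable {k Ω : Type u} [Field k] [Field Ω] [Algebra k Ω] {v : RVal Ω} {n : ℕ} {A T : Set Ω}

/-- The exponents have one sign. -/
def Gd (J : Finset (Fin n)) (e : Fin n → ℤ) : Prop :=
  (∀ i ∈ J, 0 < e i) ∨ (∀ i ∈ J, e i < 0) ∨ e = 0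

theorem Spp.neg {J : Finset (Fin n)} {e : Fin n → ℤ} (h : Spp J e) : Spp J (-e) := fun i hi => by
  rw [Pi.neg_apply, h i hi, neg_zero]

theorem Gd.neg {J : Finset (Fin n)} {e : Fin n → ℤ} (h : Gd J e) : Gd J (-e) := by
  rcases h with h | h | h
  · exact Or.inr (Or.inl fun i hi => by
      rw [Pi.neg_apply]
      exact neg_neg_of_pos (h i hi))
  · exact Or.inl fun i hi => by
      rw [Pi.neg_apply]
      exact neg_pos_of_neg (h i hi)
  · exact Or.inr (Or.inr (by rw [h, neg_zero]))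

theorem Gd.map {R : Subring Ω} {S S' : St v R A T n} {L : (Fin n → ℤ) →+ (Fin n → ℤ)}
    (h : Rf S S' L) {e : Fin n → ℤ} (he : Spp S.J e) (h1 : Gd S.J e) : Gd S'.J (L e) := by
  rcases h1 with h1 | h1 | h1
  · exact Or.inl (h.pp e he h1)
  · refine Or.inr (Or.inl fun i hi => ?_)
    have h2 := h.pp (-e) he.neg (fun i hi => by
      rw [Pi.neg_apply]
      exact neg_pos_of_neg (h1 i hi)) i hi
    rw [map_neg, Pi.neg_apply] at h2
    exact neg_pos.1 h2
  · exact Or.inr (Or.inr (by rw [h1, _root_.map_zero]))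

/-- A nonnegative exponent. -/
theorem val_nonneg {R : Subring Ω} (S : St v R A T n) {e : Fin n → ℤ} (he : Spp S.J e)
    (h0 : ∀ i ∈ S.J, 0 ≤ e i) : 0 ≤ v (lm S.z e) ∧ (v (lm S.z e) = 0 → e = 0) := by
  have hterm : ∀ i, 0 ≤ (e i : ℝ) * v (S.z i) := by
    intro i
    by_cases hi : i ∈ S.J
    · exact mul_nonneg (by exact_mod_cast h0 i hi) (S.mod.par.pos i).le
    · rw [he i hi]
      simp
  rw [val_lm S.mod.par.ne]
  refine ⟨Finset.sum_nonneg fun i _ => hterm i, fun h1 => ?_⟩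
  have h2 := (Finset.sum_eq_zero_iff_of_nonneg fun i _ => hterm i).1 h1
  funext i
  rcases mul_eq_zero.1 (h2 i (Finset.mem_univ i)) with h3 | h3
  · exact_mod_cast h3
  · exact absurd h3 (S.mod.par.pos i).ne'

/-- One exponent, of nonnegative value. -/
theorem claimG_aux (h : Ctx0 k v) (hA : A.Finite) (hA0 : ∀ a ∈ A, v.Ge 0 a)
    (S : St v (algebraMap k Ω).range A T n) (e : Fin n → ℤ) (he : Spp S.J e)
    (h0 : ∀ i ∈ S.J, 0 ≤ e i) :
    ∃ (S' : St v (algebraMap k Ω).range A T n) (L : (Fin n → ℤ) →+ (Fin n → ℤ)), Rf S S' L ∧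
      Gd S'.J (L e) := by
  classical
  obtain ⟨hv0, hvz⟩ := val_nonneg S he h0
  rcases hv0.lt_or_eq with hv | hv
  · obtain ⟨N, hN⟩ := exists_nat_gt ((∑ i ∈ S.J, v (S.z i)) / v (lm S.z e))
    have hN' : ∑ i ∈ S.J, v (S.z i) < N * v (lm S.z e) := (div_lt_iff₀ hv).1 hN
    set o : Fin n → ℤ := fun i => if i ∈ S.J then 1 else 0 with ho
    have hoS : Spp S.J o := fun i hi => if_neg hi
    have ho1 : ∀ i ∈ S.J, 0 < o i := fun i hi => by
      rw [ho]
      simp only [if_pos hi]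
      exact one_pos
    set f : Fin n → ℤ := N • e - o with hf
    have hfS : Spp S.J f := fun i hi => by
      rw [hf, Pi.sub_apply, Pi.smul_apply, he i hi, hoS i hi, smul_zero, sub_zero]
    have hvo : v (lm S.z o) = ∑ i ∈ S.J, v (S.z i) := by
      rw [val_lm S.mod.par.ne, ← Finset.sum_subset (Finset.subset_univ S.J) fun i _ hi => by
        rw [hoS i hi]
        simp]
      refine Finset.sum_congr rfl fun i hi => ?_
      rw [ho]
      simp only [if_pos hi]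
      push_cast
      ring
    have hvf : 0 < v (lm S.z f) := by
      have h1 : v (lm S.z f) = N * v (lm S.z e) - v (lm S.z o) := by
        rw [val_lm S.mod.par.ne, val_lm S.mod.par.ne, val_lm S.mod.par.ne, Finset.mul_sum,
          ← Finset.sum_sub_distrib]
        refine Finset.sum_congr rfl fun i _ => ?_
        rw [hf, Pi.sub_apply, Pi.smul_apply, nsmul_eq_mul]
        push_cast
        ring
      rw [h1, hvo]
      linarith
    obtain ⟨S', L, hRf, h1 | h1⟩ := claimA h hA hA0 _ S f rfl hfS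
    · refine ⟨S', L, hRf, Or.inl fun i hi => ?_⟩
      have h2 := h1 i hi
      rw [hf, map_sub, map_nsmul, Pi.sub_apply, Pi.smul_apply] at h2
      have h3 := hRf.pp o hoS ho1 i hi
      have h4 : 0 < N • L e i := by linarith
      rw [nsmul_eq_mul] at h4
      exact pos_of_mul_pos_right h4 (by positivity)
    · exfalso
      have h2 : v (lm S'.z (L f)) = v (lm S.z f) := hRf.val hfS
      have h3 := (val_nonneg S' (hRf.sup f hfS).neg fun i hi => by
        rw [Pi.neg_apply]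
        exact neg_nonneg.2 (h1 i hi)).1
      rw [lm_neg, v.map_inv (lm_ne S'.mod.par.ne _), h2] at h3
      linarith
  · refine ⟨S, AddMonoidHom.id _, Rf.refl S, Or.inr (Or.inr ?_)⟩
    exact hvz hv.symm

/-- One exponent. -/
theorem claimG (h : Ctx0 k v) (hA : A.Finite) (hA0 : ∀ a ∈ A, v.Ge 0 a)
    (S : St v (algebraMap k Ω).range A T n) (e : Fin n → ℤ) (he : Spp S.J e) :
    ∃ (S' : St v (algebraMap k Ω).range A T n) (L : (Fin n → ℤ) →+ (Fin n → ℤ)), Rf S S' L ∧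
      Gd S'.J (L e) := by
  obtain ⟨S₁, L₁, h₁, h2 | h2⟩ := claimA h hA hA0 _ S e rfl he
  · obtain ⟨S₂, L₂, h₂, h3⟩ := claimG_aux h hA hA0 S₁ (L₁ e) (h₁.sup e he) h2
    exact ⟨S₂, L₂.comp L₁, h₁.trans h₂, h3⟩
  · obtain ⟨S₂, L₂, h₂, h3⟩ := claimG_aux h hA hA0 S₁ (-L₁ e) (h₁.sup e he).neg fun i hi => by
      rw [Pi.neg_apply]
      exact neg_nonneg.2 (h2 i hi)
    refine ⟨S₂, L₂.comp L₁, h₁.trans h₂, ?_⟩
    have h4 := h3.neg
    rw [map_neg, neg_neg] at h4
    exact h4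

/-- Finitely many exponents. -/
theorem claimM (h : Ctx0 k v) (hA : A.Finite) (hA0 : ∀ a ∈ A, v.Ge 0 a)
    (S : St v (algebraMap k Ω).range A T n) (M : Finset (Fin n → ℤ)) :
    (∀ e ∈ M, Spp S.J e) →
    ∃ (S' : St v (algebraMap k Ω).range A T n) (L : (Fin n → ℤ) →+ (Fin n → ℤ)), Rf S S' L ∧
      ∀ e ∈ M, Gd S'.J (L e) := by
  classical
  induction M using Finset.induction_on with
  | empty => exact fun _ => ⟨S, AddMonoidHom.id _, Rf.refl S, fun e he => absurd he (Finset.notMem_empty e)⟩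
  | insert e M _ ih =>
    intro hM
    obtain ⟨S₁, L₁, h₁, h2⟩ := ih fun e he => hM e (Finset.mem_insert_of_mem he)
    have he := hM e (Finset.mem_insert_self e M)
    obtain ⟨S₂, L₂, h₂, h3⟩ := claimG h hA hA0 S₁ (L₁ e) (h₁.sup e he)
    refine ⟨S₂, L₂.comp L₁, h₁.trans h₂, fun e' he' => ?_⟩
    rcases Finset.mem_insert.1 he' with rfl | he'
    · exact h3
    · exact (h2 e' he').map h₂ (h₁.sup e' (hM e' (Finset.mem_insert_of_mem he')))

theorem sm_of_good {R : Subring Ω} {S S' : St v R A T n} {L : (Fin n → ℤ) →+ (Fin n → ℤ)}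
    (hinv : ∀ f ∈ S'.O, f ≠ 0 → v f = 0 → f⁻¹ ∈ S'.O) (h : Rf S S' L) {e : Fin n → ℤ}
    (he : Spp S.J e) (hg : Gd S'.J (L e)) : SM v S'.O S'.z S'.J (lm S.z e) := by
  have hpos : ∀ {e : Fin n → ℤ}, Spp S.J e → (∀ i ∈ S'.J, 0 < L e i) →
      SM v S'.O S'.z S'.J (lm S.z e) := by
    intro e he h1
    obtain ⟨u, hu, hu0, hu1, h2⟩ := h.mon e he
    exact SM.of_pos S'.mod.par.ne S'.mod.par.pos (h.sup e he) h1 hu hu0 hu1 h2
  rcases hg with h1 | h1 | h1
  · exact hpos he h1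
  · have h2 := (hpos he.neg fun i hi => by
      rw [map_neg, Pi.neg_apply]
      exact neg_pos_of_neg (h1 i hi)).inv hinv S'.mod.par.ne
    rw [lm_neg, inv_inv] at h2
    exact h2
  · obtain ⟨u, hu, hu0, hu1, h2⟩ := h.mon e he
    have h3 : lm S.z e = u := by
      rw [h2, h1]
      simp [lm]
    rw [h3]
    exact SM.of_unit hu hu0 hu1

end Pool.Agent.TWI

namespace Pool.Agent.TW

open Pool.Agent.H15JM (RVal)
open Pool.Agent.LU1 (VPos)
open Pool.Agent.D2 (Ctx0)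
open Pool.Agent.LUC (IsMod SM)

universe u

variable {k Ω : Type u} [Field k] [Field Ω] [Algebra k Ω] {v : RVal Ω}

/-- ROW I2 (REF).  Toric refinement of a chart: finitely many Laurent monomials in the `z i`,
`i ∈ J`, become monomials with exponents of one sign. -/
theorem exists_refine [IsAlgClosed k] (h : Ctx0 k v) {A T : Set Ω} {n : ℕ} {z : Fin n → Ω}
    {J : Finset (Fin n)} {O : Subring Ω} (hA : A.Finite)
    (hA0 : ∀ a ∈ A, v.Ge 0 a) (hM : IsMod v (algebraMap k Ω).range A T z J O)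
    (hdim : ringKrullDim O = n) (M : Finset (Fin n → ℤ)) (hMJ : ∀ e ∈ M, ∀ i, i ∉ J → e i = 0) :
    ∃ (z' : Fin n → Ω) (J' : Finset (Fin n)) (O' : Subring Ω), O ≤ O' ∧
      IsMod v (algebraMap k Ω).range A T z' J' O' ∧ ringKrullDim O' = n ∧
      (∀ t, SM v O z J t → SM v O' z' J' t) ∧
      ∀ e ∈ M, SM v O' z' J' (∏ i, z i ^ e i) := by
  obtain ⟨S', L, hRf, h1⟩ := TWI.claimM h hA hA0 ⟨z, J, O, hM, hdim⟩ M hMJ
  obtain ⟨g, -, -, -, G, -, hO⟩ := S'.mod.chart
  have hinv : ∀ f ∈ S'.O, f ≠ 0 → v f = 0 → f⁻¹ ∈ S'.O := TWI.Par.inv_mem hO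
  exact ⟨S'.z, S'.J, S'.O, hRf.le, S'.mod, S'.dim, fun t ht =>
    TWI.sm_transfer S'.mod.par.ne S'.mod.par.pos hinv hRf.le hRf.sup hRf.mon hRf.pp ht,
    fun e he => TWI.sm_of_good hinv hRf (hMJ e he) (h1 e he)⟩

end Pool.Agent.TW
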