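import Pool.Agent.Lib.TWT.TR3
import Pool.Agent.Lib.D2.Ctx0

/-!
# TANK W, I3 (the irrational trick), part a: Laurent monomials in a chart
-/

set_option autoImplicit false

namespace Pool.Agent.TWI

open Pool.Agent.H15JM (RVal)
open Pool.Agent.LU1 (VPos)
open Pool.Agent.D2 (Ctx0)
open Pool.Agent.TWT (cm cm_apply)
open Pool.Agent.LUC

universe u

variable {Ω : Type u} [Field Ω]

/-- `t` is a Laurent monomial in the `z i`, `i ∈ J`, times a unit of `O`. -/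
def LM (V : RVal Ω) (O : Subring Ω) {n : ℕ} (z : Fin n → Ω) (J : Finset (Fin n)) (t : Ω) : Prop :=
  ∃ e : Fin n → ℤ, ∃ u ∈ O, u ≠ 0 ∧ V u = 0 ∧ t = (∏ i, z i ^ e i) * u ∧ ∀ i, i ∉ J → e i = 0

section

variable {V : RVal Ω} {O : Subring Ω} {n : ℕ} {z : Fin n → Ω} {J : Finset (Fin n)} {s t : Ω}

theorem LM.of_SM (h : SM V O z J t) : LM V O z J t := by
  obtain ⟨e, u, hu, hu0, hu1, ht, hJ, -⟩ := h
  exact ⟨e, u, hu, hu0, hu1, ht, hJ⟩

theorem LM.ne (hz : ∀ i, z i ≠ 0) (h : LM V O z J t) : t ≠ 0 := by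
  obtain ⟨e, u, hu, hu0, hu1, rfl, -⟩ := h
  exact mul_ne_zero (Finset.prod_ne_zero_iff.2 fun i _ => zpow_ne_zero _ (hz i)) hu0

theorem LM.one : LM V O z J 1 := LM.of_SM SM.one

theorem LM.mul (hz : ∀ i, z i ≠ 0) (hs : LM V O z J s) (ht : LM V O z J t) :
    LM V O z J (s * t) := by
  obtain ⟨e, u, hu, hu0, hu1, rfl, hJ⟩ := hs
  obtain ⟨e', u', hu', hu0', hu1', rfl, hJ'⟩ := ht
  refine ⟨fun i => e i + e' i, u * u', O.mul_mem hu hu', mul_ne_zero hu0 hu0', ?_, ?_, ?_⟩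
  · rw [V.map_mul hu0 hu0', hu1, hu1', add_zero]
  · rw [Finset.prod_congr rfl fun i _ => zpow_add₀ (hz i) (e i) (e' i), Finset.prod_mul_distrib]
    ring
  · intro i hi
    change e i + e' i = 0
    rw [hJ i hi, hJ' i hi, add_zero]

theorem LM.inv (hO : ∀ f ∈ O, f ≠ 0 → V f = 0 → f⁻¹ ∈ O) (h : LM V O z J t) :
    LM V O z J t⁻¹ := by
  obtain ⟨e, u, hu, hu0, hu1, rfl, hJ⟩ := h
  refine ⟨fun i => -e i, u⁻¹, hO u hu hu0 hu1, inv_ne_zero hu0, ?_, ?_, ?_⟩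
  · rw [V.map_inv hu0, hu1, neg_zero]
  · rw [mul_inv, ← Finset.prod_inv_distrib]
    congr 1
    exact Finset.prod_congr rfl fun i _ => (zpow_neg _ _).symm
  · intro i hi
    change -e i = 0
    rw [hJ i hi, neg_zero]

theorem LM.pow (hz : ∀ i, z i ≠ 0) (h : LM V O z J t) (m : ℕ) : LM V O z J (t ^ m) := by
  induction m with
  | zero => rw [pow_zero]; exact LM.one
  | succ m ih => rw [pow_succ]; exact ih.mul hz h

theorem LM.zpow (hO : ∀ f ∈ O, f ≠ 0 → V f = 0 → f⁻¹ ∈ O) (hz : ∀ i, z i ≠ 0)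
    (h : LM V O z J t) (m : ℤ) : LM V O z J (t ^ m) := by
  obtain ⟨m, rfl | rfl⟩ := m.eq_nat_or_neg
  · rw [zpow_natCast]; exact h.pow hz m
  · rw [zpow_neg, zpow_natCast]; exact (h.pow hz m).inv hO

theorem LM.div (hO : ∀ f ∈ O, f ≠ 0 → V f = 0 → f⁻¹ ∈ O) (hz : ∀ i, z i ≠ 0)
    (hs : LM V O z J s) (ht : LM V O z J t) : LM V O z J (s / t) := by
  rw [div_eq_mul_inv]
  exact hs.mul hz (ht.inv hO)

end

/-- REF: toric refinement of charts for `V`. -/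
def Ref (V : RVal Ω) (R : Subring Ω) : Prop :=
  ∀ {A T : Set Ω} {n : ℕ} {z : Fin n → Ω} {J : Finset (Fin n)} {O : Subring Ω}, A.Finite →
    (∀ a ∈ A, V.Ge 0 a) → IsMod V R A T z J O → ringKrullDim O = n →
    ∀ M : Finset (Fin n → ℤ), (∀ e ∈ M, ∀ i, i ∉ J → e i = 0) →
    ∃ (z' : Fin n → Ω) (J' : Finset (Fin n)) (O' : Subring Ω), O ≤ O' ∧
      IsMod V R A T z' J' O' ∧ ringKrullDim O' = n ∧
      (∀ t, SM V O z J t → SM V O' z' J' t) ∧
      ∀ e ∈ M, SM V O' z' J' (∏ i, z i ^ e i)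

/-- Finitely many Laurent monomials become monomials. -/
theorem Ref.exists {V : RVal Ω} {R : Subring Ω} (hr : Ref V R) {A T : Set Ω} {n : ℕ}
    {z : Fin n → Ω} {J : Finset (Fin n)} {O : Subring Ω} (hA : A.Finite)
    (hA0 : ∀ a ∈ A, V.Ge 0 a) (hM : IsMod V R A T z J O) (hdim : ringKrullDim O = n)
    (F : Finset Ω) (hF : ∀ t ∈ F, LM V O z J t) :
    ∃ (z' : Fin n → Ω) (J' : Finset (Fin n)) (O' : Subring Ω), O ≤ O' ∧
      IsMod V R A T z' J' O' ∧ ringKrullDim O' = n ∧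
      (∀ t, SM V O z J t → SM V O' z' J' t) ∧ ∀ t ∈ F, SM V O' z' J' t := by
  classical
  have h1 : ∀ t : Ω, ∃ (e : Fin n → ℤ) (u : Ω), t ∈ F → u ∈ O ∧ u ≠ 0 ∧ V u = 0 ∧
      t = (∏ i, z i ^ e i) * u ∧ ∀ i, i ∉ J → e i = 0 := by
    intro t
    by_cases ht : t ∈ F
    · obtain ⟨e, u, h⟩ := hF t ht
      exact ⟨e, u, fun _ => h⟩
    · exact ⟨0, 0, fun h => absurd h ht⟩
  choose e u h using h1
  obtain ⟨z', J', O', hO, hM', hdim', hSM, hEM⟩ := hr hA hA0 hM hdim (F.image e) (by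
    intro e' he' i hi
    obtain ⟨t, ht, rfl⟩ := Finset.mem_image.1 he'
    exact (h t ht).2.2.2.2 i hi)
  refine ⟨z', J', O', hO, hM', hdim', hSM, fun t ht => ?_⟩
  obtain ⟨hu, hu0, hu1, ht', -⟩ := h t ht
  have h2 := (hEM (e t) (Finset.mem_image_of_mem e ht)).mul_unit hM'.par.ne (hO hu) hu0 hu1
  rwa [← ht'] at h2

/-- A generator in the local ring may be added. -/
theorem lv_insert {V : RVal Ω} {R : Subring Ω} {F : Set Ω} {c : Ω} (hc : c ∈ lv V (adj R F)) :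
    lv V (adj R (insert c F)) = lv V (adj R F) := by
  refine lv_eq_of_le (adj_mono le_rfl (Set.subset_insert c F)) (adj_le ?_ ?_)
  · exact (base_le_adj R F).trans (le_lv V _)
  · rintro x (rfl | hx)
    · exact hc
    · exact le_lv V _ (mem_adj hx)

/-- The numerator and the denominator of a power. -/
theorem zpow_frac {p q : Ω} (hp : p ≠ 0) (hq : q ≠ 0) (m : ℤ) :
    (p / q) ^ m * (q ^ m.toNat * p ^ (-m).toNat) = p ^ m.toNat * q ^ (-m).toNat := by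
  obtain ⟨m, rfl | rfl⟩ := m.eq_nat_or_neg
  · have h1 : (-(m : ℤ)).toNat = 0 := by omega
    rw [h1, zpow_natCast, Int.toNat_natCast, pow_zero, pow_zero, mul_one, mul_one, div_pow,
      div_mul_cancel₀ _ (pow_ne_zero _ hq)]
  · have h1 : (-(m : ℤ)).toNat = 0 := by omega
    rw [neg_neg, h1, Int.toNat_natCast, pow_zero, pow_zero, one_mul, one_mul, zpow_neg,
      zpow_natCast, div_pow, inv_div, div_mul_cancel₀ _ (pow_ne_zero _ hp)]

theorem ctx0_cm {k : Type u} [Field k] [Algebra k Ω] {v : RVal Ω} (h : Ctx0 k v) {φ : Ω ≃+* Ω}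
    (hφ : ∀ c : k, φ (algebraMap k Ω c) = algebraMap k Ω c) : Ctx0 k (cm v φ) where
  triv c hc := by rw [cm_apply, hφ]; exact h.triv c hc
  res g hg hg1 := by
    obtain ⟨c, hc, h1⟩ := h.res (φ g) ((map_ne_zero φ).2 hg) hg1
    refine ⟨c, hc, TWT.cm_vpos.2 ?_⟩
    rwa [_root_.map_sub, hφ]

end Pool.Agent.TWI
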