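import Pool.Agent.Lib.TWQ.Defs
import Pool.Agent.Lib.TWN.GWs
import Pool.Agent.Lib.TWN.LUWa
import Pool.Agent.Lib.LU1_h15.Base_G0s
import Pool.Agent.Lib.D2P.A2sAux
import Pool.Agent.Lib.D2P.A2m

/-!
# TANK W (TWI), row I1: the monomial valuation of irrational radius
-/

set_option autoImplicit false

open Polynomial Filter Topology

namespace Pool.Agent.TW

open Pool.Agent.H15JM (RVal)
open Pool.Agent.LU1 (VPos adj)
open Pool.Agent.D2 (Ctx0)

universe u

variable {k Ω : Type u} [Field k] [Field Ω] [Algebra k Ω] {v : RVal Ω}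

namespace IRR

/-- `Φ` is the translation `z ↦ z + c`. -/
def IsTr (L : IntermediateField k Ω) (z c : Ω) (Φ : Ω ≃ₐ[L] Ω) : Prop :=
  Φ z = z + c ∧ ∀ β, IsAlgebraic L β → Φ β = β

theorem exists_tr [IsAlgClosed Ω] {L : IntermediateField k Ω} {z : Ω}
    (hz : Transcendental L z) (hΩ : ∀ g : Ω, IsAlgebraic (adj L z) g) {c : Ω}
    (hc : IsAlgebraic L c) : ∃ Φ : Ω ≃ₐ[L] Ω, IsTr L z c Φ := by
  have hzA : Transcendental (algebraicClosure L Ω) z := fun h =>
    hz (IsAlgebraic.restrictScalars L h)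
  have hle : adj L z ≤ adj ((algebraicClosure L Ω).restrictScalars k) z := by
    refine D2P.adj_mono (fun a ha => ?_) z
    rw [IntermediateField.mem_restrictScalars, mem_algebraicClosure_iff]
    exact D2P.isAlgebraic_of_mem ha
  have hΩA : ∀ g : Ω, IsAlgebraic (Algebra.adjoin (algebraicClosure L Ω) {z}) g := by
    intro g
    have h1 : IsAlgebraic (adj ((algebraicClosure L Ω).restrictScalars k) z) g :=
      (hΩ g).tower_top_of_subalgebra_le (A := (adj L z).toSubalgebra)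
        (B := (adj ((algebraicClosure L Ω).restrictScalars k) z).toSubalgebra) hle
    rw [D2P.isAlgebraic_adj_iff] at h1
    exact h1
  obtain ⟨σ, hσ⟩ := GW.exists_translation hzA hΩA
    (⟨c, mem_algebraicClosure_iff.2 hc⟩ : algebraicClosure L Ω)
  exact ⟨σ.restrictScalars L, hσ, fun β hβ =>
    σ.commutes (⟨β, mem_algebraicClosure_iff.2 hβ⟩ : algebraicClosure L Ω)⟩

/-- `v (Φ f) = v a + m v c` for `v c` near to `b`. -/
def Lin (v : RVal Ω) (L : IntermediateField k Ω) (z : Ω) (b : ℝ) (f a : Ω) (m : ℤ) : Prop :=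
  ∃ ε > 0, ∀ c : Ω, c ≠ 0 → IsAlgebraic L c → |v c - b| < ε → ∀ Φ : Ω ≃ₐ[L] Ω, IsTr L z c Φ →
    v (Φ f) = v a + m * v c

section

variable {L : IntermediateField k Ω} {z : Ω} {b : ℝ}

theorem lin_const {a : Ω} (ha : IsAlgebraic L a) : Lin v L z b a a 0 := by
  refine ⟨1, one_pos, fun c _ _ _ Φ hΦ => ?_⟩
  rw [hΦ.2 a ha]
  push_cast
  ring

theorem tr_sub {β : Ω} (hβ : IsAlgebraic L β) {c : Ω} {Φ : Ω ≃ₐ[L] Ω} (hΦ : IsTr L z c Φ) :
    Φ (z - β) = z - β + c := by
  rw [map_sub, hΦ.1, hΦ.2 β hβ]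
  ring

theorem lin_lt {β : Ω} (hβ : IsAlgebraic L β) (hx0 : z - β ≠ 0) (h1 : v (z - β) < b) :
    Lin v L z b (z - β) (z - β) 0 := by
  refine ⟨b - v (z - β), by linarith, fun c hc0 _ hcb Φ hΦ => ?_⟩
  have h2 : v (z - β) < v c := by
    have := (abs_lt.1 hcb).1
    linarith
  rw [tr_sub hβ hΦ, (v.add_of_lt hx0 hc0 h2).2]
  push_cast
  ring

theorem lin_gt {β : Ω} (hβ : IsAlgebraic L β) (hx0 : z - β ≠ 0) (h1 : b < v (z - β)) :
    Lin v L z b (z - β) 1 1 := by
  refine ⟨v (z - β) - b, by linarith, fun c hc0 _ hcb Φ hΦ => ?_⟩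
  have h2 : v c < v (z - β) := by
    have := (abs_lt.1 hcb).2
    linarith
  rw [tr_sub hβ hΦ, add_comm, (v.add_of_lt hc0 hx0 h2).2, v.map_one]
  push_cast
  ring

theorem lin_factor (hb : ∀ f : Ω, f ≠ 0 → v f ≠ b) (hz : Transcendental L z) {β : Ω}
    (hβ : IsAlgebraic L β) : ∃ a : Ω, a ≠ 0 ∧ ∃ m : ℤ, Lin v L z b (z - β) a m := by
  have hx0 : z - β ≠ 0 := by
    intro h0
    rw [sub_eq_zero] at h0
    exact hz (h0 ▸ hβ)
  rcases lt_or_gt_of_ne (hb _ hx0) with h1 | h1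
  · exact ⟨z - β, hx0, 0, lin_lt hβ hx0 h1⟩
  · exact ⟨1, one_ne_zero, 1, lin_gt hβ hx0 h1⟩

theorem lin_mul {f g a a' : Ω} {m m' : ℤ} (hf : f ≠ 0) (hg : g ≠ 0) (ha : a ≠ 0) (ha' : a' ≠ 0)
    (h : Lin v L z b f a m) (h' : Lin v L z b g a' m') : Lin v L z b (f * g) (a * a') (m + m') := by
  obtain ⟨ε, hε, h1⟩ := h
  obtain ⟨ε', hε', h1'⟩ := h'
  refine ⟨min ε ε', lt_min hε hε', fun c hc0 hc hcb Φ hΦ => ?_⟩
  rw [map_mul, v.map_mul ((map_ne_zero Φ).2 hf) ((map_ne_zero Φ).2 hg), v.map_mul ha ha',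
    h1 c hc0 hc (lt_of_lt_of_le hcb (min_le_left _ _)) Φ hΦ,
    h1' c hc0 hc (lt_of_lt_of_le hcb (min_le_right _ _)) Φ hΦ]
  push_cast
  ring

theorem lin_div {f g a a' : Ω} {m m' : ℤ} (hf : f ≠ 0) (hg : g ≠ 0) (ha : a ≠ 0) (ha' : a' ≠ 0)
    (h : Lin v L z b f a m) (h' : Lin v L z b g a' m') : Lin v L z b (f / g) (a / a') (m - m') := by
  obtain ⟨ε, hε, h1⟩ := h
  obtain ⟨ε', hε', h1'⟩ := h'
  refine ⟨min ε ε', lt_min hε hε', fun c hc0 hc hcb Φ hΦ => ?_⟩
  rw [map_div₀, v.map_div ((map_ne_zero Φ).2 hf) ((map_ne_zero Φ).2 hg), v.map_div ha ha',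
    h1 c hc0 hc (lt_of_lt_of_le hcb (min_le_left _ _)) Φ hΦ,
    h1' c hc0 hc (lt_of_lt_of_le hcb (min_le_right _ _)) Φ hΦ]
  push_cast
  ring

variable [IsAlgClosed Ω]

/-- Induction over the factorizations of the polynomials over `L^alg`. -/
theorem poly_ind (hz : Transcendental L z) {p : Ω → Prop}
    (hconst : ∀ a : Ω, a ≠ 0 → IsAlgebraic L a → p a)
    (hlin : ∀ β : Ω, IsAlgebraic L β → p (z - β))
    (hmul : ∀ f g : Ω, f ≠ 0 → g ≠ 0 → p f → p g → p (f * g)) :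
    ∀ (n : ℕ) (P : (algebraicClosure L Ω)[X]), P.natDegree = n → P ≠ 0 →
      aeval z P ≠ 0 ∧ p (aeval z P) := by
  have hzA : ∀ β : Ω, IsAlgebraic L β → z - β ≠ 0 := by
    intro β hβ h0
    rw [sub_eq_zero] at h0
    exact hz (h0 ▸ hβ)
  intro n
  induction n with
  | zero =>
    intro P hP hP0
    rw [Polynomial.eq_C_of_natDegree_eq_zero hP] at hP0 ⊢
    have ha : P.coeff 0 ≠ 0 := by
      intro h0
      rw [h0, Polynomial.C_0] at hP0
      exact hP0 rfl
    rw [aeval_C]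
    have ha' : (algebraMap (algebraicClosure L Ω) Ω) (P.coeff 0) ≠ 0 := fun h0 =>
      ha ((algebraMap (algebraicClosure L Ω) Ω).injective (by rw [h0, map_zero]))
    exact ⟨ha', hconst _ ha' (mem_algebraicClosure_iff.1 (P.coeff 0).2)⟩
  | succ n ih =>
    intro P hP hP0
    have hdeg : P.degree ≠ 0 := by
      intro h0
      have := Polynomial.natDegree_eq_zero_iff_degree_le_zero.2 h0.le
      omega
    have hAC : IsAlgClosed (algebraicClosure L Ω) := IsAlgClosure.isAlgClosed L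
    obtain ⟨β, hβ⟩ := IsAlgClosed.exists_root P hdeg
    obtain ⟨P', hP'⟩ := Polynomial.dvd_iff_isRoot.2 hβ
    have hP'0 : P' ≠ 0 := by
      rintro rfl
      rw [mul_zero] at hP'
      exact hP0 hP'
    have hd' : P'.natDegree = n := by
      have h1 := Polynomial.natDegree_mul (Polynomial.X_sub_C_ne_zero β) hP'0
      rw [← hP', hP, Polynomial.natDegree_X_sub_C] at h1
      omega
    obtain ⟨h2, h3⟩ := ih P' hd' hP'0
    have hβa : IsAlgebraic L (β : Ω) := mem_algebraicClosure_iff.1 β.2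
    have h4 : aeval z P = (z - β) * aeval z P' := by
      conv_lhs => rw [hP']
      rw [map_mul, map_sub, aeval_X, aeval_C]
      rfl
    rw [h4]
    exact ⟨mul_ne_zero (hzA _ hβa) h2, hmul _ _ (hzA _ hβa) h2 (hlin _ hβa) h3⟩

/-- Induction for the nonzero elements of `L^alg(z)`. -/
theorem elem_ind (hz : Transcendental L z) {p : Ω → Prop}
    (hconst : ∀ a : Ω, a ≠ 0 → IsAlgebraic L a → p a)
    (hlin : ∀ β : Ω, IsAlgebraic L β → p (z - β))
    (hmul : ∀ f g : Ω, f ≠ 0 → g ≠ 0 → p f → p g → p (f * g))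
    (hdiv : ∀ f g : Ω, f ≠ 0 → g ≠ 0 → p f → p g → p (f / g)) {f : Ω}
    (hf : f ∈ adj ((algebraicClosure L Ω).restrictScalars k) z) (hf0 : f ≠ 0) : p f := by
  have h1 : f ∈ IntermediateField.adjoin (algebraicClosure L Ω) {z} := by
    rw [D2P.mem_adj_iff] at hf
    exact hf
  rw [IntermediateField.mem_adjoin_simple_iff] at h1
  obtain ⟨P, Q, hPQ⟩ := h1
  have hP0 : P ≠ 0 := by
    rintro rfl
    rw [map_zero, zero_div] at hPQ
    exact hf0 hPQ
  have hQ0 : Q ≠ 0 := by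
    rintro rfl
    rw [map_zero, div_zero] at hPQ
    exact hf0 hPQ
  obtain ⟨h2, h3⟩ := poly_ind hz hconst hlin hmul _ P rfl hP0
  obtain ⟨h4, h5⟩ := poly_ind hz hconst hlin hmul _ Q rfl hQ0
  rw [hPQ]
  exact hdiv _ _ h2 h4 h3 h5

theorem lin_elem (hb : ∀ f : Ω, f ≠ 0 → v f ≠ b) (hz : Transcendental L z) {f : Ω}
    (hf : f ∈ adj ((algebraicClosure L Ω).restrictScalars k) z) (hf0 : f ≠ 0) :
    ∃ a : Ω, a ≠ 0 ∧ ∃ m : ℤ, Lin v L z b f a m := by
  refine elem_ind (p := fun f => ∃ a : Ω, a ≠ 0 ∧ ∃ m : ℤ, Lin v L z b f a m) hz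
    (fun a ha0 ha => ⟨a, ha0, 0, lin_const ha⟩) (fun β hβ => lin_factor hb hz hβ) ?_ ?_ hf hf0
  · rintro f g hf hg ⟨a, ha, m, h⟩ ⟨a', ha', m', h'⟩
    exact ⟨a * a', mul_ne_zero ha ha', m + m', lin_mul hf hg ha ha' h h'⟩
  · rintro f g hf hg ⟨a, ha, m, h⟩ ⟨a', ha', m', h'⟩
    exact ⟨a / a', div_ne_zero ha ha', m - m', lin_div hf hg ha ha' h h'⟩

/-- The values `v (Φ f)` are bounded if `v c` is near to `b`. -/
theorem bounded (hb : ∀ f : Ω, f ≠ 0 → v f ≠ b) (hz : Transcendental L z)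
    (hΩ : ∀ g : Ω, IsAlgebraic (adj L z) g) (f : Ω) :
    ∃ B : ℝ, ∃ ε > 0, ∀ c : Ω, c ≠ 0 → IsAlgebraic L c → |v c - b| < ε →
      ∀ Φ : Ω ≃ₐ[L] Ω, IsTr L z c Φ → |v (Φ f)| ≤ B := by
  classical
  by_cases hf0 : f = 0
  · refine ⟨|v 0|, 1, one_pos, fun c _ _ _ Φ _ => ?_⟩
    rw [hf0, map_zero]
  obtain ⟨P, hP, hPf⟩ := hΩ f
  have hcoef : ∀ i ∈ P.support, ((P.coeff i : adj L z) : Ω) ≠ 0 := by
    intro i hi h0
    exact (Polynomial.mem_support_iff.1 hi) (Subtype.ext h0)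
  have hle : adj L z ≤ adj ((algebraicClosure L Ω).restrictScalars k) z := by
    refine D2P.adj_mono (fun a ha => ?_) z
    rw [IntermediateField.mem_restrictScalars, mem_algebraicClosure_iff]
    exact D2P.isAlgebraic_of_mem ha
  have hw : ∀ i : ℕ, ∃ B : ℝ, ∃ ε > 0, i ∈ P.support → ∀ c : Ω, c ≠ 0 → IsAlgebraic L c →
      |v c - b| < ε → ∀ Φ : Ω ≃ₐ[L] Ω, IsTr L z c Φ →
        |v (Φ ((P.coeff i : adj L z) : Ω))| ≤ B := by
    intro i
    by_cases hi : i ∈ P.support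
    · obtain ⟨a, ha, m, ε, hε, hw⟩ := lin_elem hb hz (hle (P.coeff i).2) (hcoef i hi)
      refine ⟨|v a| + |(m : ℝ)| * (|b| + ε), ε, hε, fun _ c hc0 hc hcb Φ hΦ => ?_⟩
      rw [hw c hc0 hc hcb Φ hΦ]
      have h1 : |v c| ≤ |b| + ε := by
        have h2 : v c = (v c - b) + b := by ring
        have h3 := abs_add_le (v c - b) b
        rw [← h2] at h3
        linarith
      have h4 := abs_add_le (v a) (m * v c)
      rw [abs_mul] at h4
      have h5 : |(m : ℝ)| * |v c| ≤ |(m : ℝ)| * (|b| + ε) :=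
        mul_le_mul_of_nonneg_left h1 (abs_nonneg _)
      linarith
    · exact ⟨0, 1, one_pos, fun hi' => absurd hi' hi⟩
  choose B ε hε hBε using hw
  have hsupp : P.support.Nonempty := Polynomial.support_nonempty.2 hP
  refine ⟨2 * ∑ i ∈ P.support, |B i|, P.support.inf' hsupp ε, ?_, fun c hc0 hc hcb Φ hΦ => ?_⟩
  · rw [gt_iff_lt, Finset.lt_inf'_iff]
    exact fun i _ => hε i
  have hBi : ∀ i ∈ P.support, |v (Φ ((P.coeff i : adj L z) : Ω))| ≤ ∑ i ∈ P.support, |B i| := by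
    intro i hi
    have h1 := hBε i hi c hc0 hc (lt_of_lt_of_le hcb (Finset.inf'_le _ hi)) Φ hΦ
    have h2 : |B i| ≤ ∑ i ∈ P.support, |B i| :=
      Finset.single_le_sum (f := fun i => |B i|) (fun j _ => abs_nonneg _) hi
    exact h1.trans ((le_abs_self _).trans h2)
  have hsum : ∑ i ∈ P.support, Φ ((P.coeff i : adj L z) : Ω) * (Φ f) ^ i = 0 := by
    have h1 : ∑ i ∈ P.support, ((P.coeff i : adj L z) : Ω) * f ^ i = 0 := by
      rw [Polynomial.aeval_def, Polynomial.eval₂_eq_sum, Polynomial.sum_def] at hPf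
      exact hPf
    have h2 := congrArg Φ h1
    rw [map_sum, map_zero] at h2
    rw [← h2]
    exact Finset.sum_congr rfl fun i _ => by rw [map_mul, map_pow]
  have hΦf : Φ f ≠ 0 := (map_ne_zero Φ).2 hf0
  have hΦc : ∀ i ∈ P.support, Φ ((P.coeff i : adj L z) : Ω) ≠ 0 := fun i hi =>
    (map_ne_zero Φ).2 (hcoef i hi)
  obtain ⟨i, hi, j, hj, hij, heq⟩ : ∃ i ∈ P.support, ∃ j ∈ P.support, i < j ∧
      v (Φ ((P.coeff i : adj L z) : Ω) * (Φ f) ^ i) =
        v (Φ ((P.coeff j : adj L z) : Ω) * (Φ f) ^ j) := by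
    by_contra hcon
    push Not at hcon
    refine (LU1.sum_distinct (v := v) P.support hsupp
      (fun i => Φ ((P.coeff i : adj L z) : Ω) * (Φ f) ^ i) ?_ ?_).1 hsum
    · intro i hi
      exact mul_ne_zero (hΦc i hi) (pow_ne_zero _ hΦf)
    · intro i hi j hj hij
      rcases lt_trichotomy i j with h1 | h1 | h1
      · exact absurd hij (hcon i hi j hj h1)
      · exact h1
      · exact absurd hij.symm (hcon j hj i hi h1)
  rw [v.map_mul (hΦc i hi) (pow_ne_zero _ hΦf), v.map_mul (hΦc j hj) (pow_ne_zero _ hΦf),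
    v.map_pow hΦf, v.map_pow hΦf] at heq
  have h1 : ((j : ℝ) - i) * v (Φ f) = v (Φ ((P.coeff i : adj L z) : Ω)) -
      v (Φ ((P.coeff j : adj L z) : Ω)) := by linarith
  have h2 : (1 : ℝ) ≤ (j : ℝ) - i := by
    have : (i : ℝ) + 1 ≤ j := by exact_mod_cast hij
    linarith
  have h3 : |v (Φ f)| ≤ |((j : ℝ) - i) * v (Φ f)| := by
    rw [abs_mul, abs_of_nonneg (by linarith : (0 : ℝ) ≤ (j : ℝ) - i)]
    have := mul_le_mul_of_nonneg_right h2 (abs_nonneg (v (Φ f)))
    linarith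
  rw [h1] at h3
  have h4 := abs_sub (v (Φ ((P.coeff i : adj L z) : Ω))) (v (Φ ((P.coeff j : adj L z) : Ω)))
  have h5 := hBi i hi
  have h6 := hBi j hj
  linarith

end

/-! ## Residues -/

section

variable {L : IntermediateField k Ω} {z α : Ω} {b : ℝ}

/-- `f = a (z - α)^m (1 + (positive value))`. -/
def Mon (W : RVal Ω) (L : IntermediateField k Ω) (z α f : Ω) : Prop :=
  ∃ a : Ω, a ≠ 0 ∧ IsAlgebraic L a ∧ ∃ m : ℤ, VPos W (f / (a * (z - α) ^ m) - 1)

theorem one_add {W : RVal Ω} {x : Ω} (hx : VPos W (x - 1)) : x ≠ 0 ∧ W x = 0 := by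
  by_cases h0 : x - 1 = 0
  · have h1 : x = 1 := by linear_combination h0
    rw [h1]
    exact ⟨one_ne_zero, W.map_one⟩
  · have h1 := W.add_of_lt (one_ne_zero (α := Ω)) h0 (by rw [W.map_one]; exact hx h0)
    rw [add_sub_cancel, W.map_one] at h1
    exact h1

theorem mul_one_add {W : RVal Ω} {x y : Ω} (hx : VPos W (x - 1)) (hy : VPos W (y - 1)) :
    VPos W (x * y - 1) := by
  have h1 : x * y - 1 = (x - 1) * y + (y - 1) := by ring
  rw [h1]
  refine (hx.mul ?_).add hy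
  exact fun _ => (one_add hy).2.ge

theorem div_one_add {W : RVal Ω} {x y : Ω} (hx : VPos W (x - 1)) (hy : VPos W (y - 1)) :
    VPos W (x / y - 1) := by
  have hy0 := (one_add hy).1
  have h1 : x / y - 1 = ((x - 1) - (y - 1)) * y⁻¹ := by
    field_simp
    ring
  rw [h1]
  refine (hx.sub hy).mul ?_
  intro _
  rw [W.map_inv hy0, (one_add hy).2, neg_zero]

theorem mon_mul {W : RVal Ω} (hzα : z - α ≠ 0) {f g : Ω} (hf : Mon W L z α f)
    (hg : Mon W L z α g) : Mon W L z α (f * g) := by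
  obtain ⟨a, ha0, ha, m, h⟩ := hf
  obtain ⟨a', ha0', ha', m', h'⟩ := hg
  refine ⟨a * a', mul_ne_zero ha0 ha0', ha.mul ha', m + m', ?_⟩
  have h1 : f * g / (a * a' * (z - α) ^ (m + m')) =
      f / (a * (z - α) ^ m) * (g / (a' * (z - α) ^ m')) := by
    rw [zpow_add₀ hzα]
    have h2 := zpow_ne_zero m hzα
    have h3 := zpow_ne_zero m' hzα
    field_simp
  rw [h1]
  exact mul_one_add h h'

theorem mon_div {W : RVal Ω} (hzα : z - α ≠ 0) {f g : Ω} (hg0 : g ≠ 0) (hf : Mon W L z α f)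
    (hg : Mon W L z α g) : Mon W L z α (f / g) := by
  obtain ⟨a, ha0, ha, m, h⟩ := hf
  obtain ⟨a', ha0', ha', m', h'⟩ := hg
  refine ⟨a / a', div_ne_zero ha0 ha0', ?_, m - m', ?_⟩
  · rw [div_eq_mul_inv]
    exact ha.mul ha'.inv
  have h1 : f / g / (a / a' * (z - α) ^ (m - m')) =
      f / (a * (z - α) ^ m) / (g / (a' * (z - α) ^ m')) := by
    rw [zpow_sub₀ hzα]
    have h2 := zpow_ne_zero m hzα
    have h3 := zpow_ne_zero m' hzα
    field_simp
  rw [h1]
  exact div_one_add h h'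

end

/-- The values of the elements algebraic over `L` are dense. -/
theorem exists_near [IsAlgClosed Ω] {L : IntermediateField k Ω} (hpos : ∃ a ∈ L, a ≠ 0 ∧ 0 < v a)
    (b : ℝ) {ε : ℝ} (hε : 0 < ε) : ∃ c : Ω, (c ≠ 0 ∧ IsAlgebraic L c) ∧ |v c - b| < ε := by
  obtain ⟨a, haL, ha0, hav⟩ := hpos
  obtain ⟨q, hq1, hq2⟩ := exists_rat_btwn (show (b - ε) / v a < (b + ε) / v a by
    gcongr
    linarith)
  obtain ⟨y, hy⟩ := IsAlgClosed.exists_pow_nat_eq a q.den_pos
  have hy0 : y ≠ 0 := by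
    rintro rfl
    rw [zero_pow q.den_pos.ne'] at hy
    exact ha0 hy.symm
  have hyL : IsAlgebraic L y := by
    refine IsAlgebraic.of_pow q.den_pos ?_
    rw [hy]
    exact D2P.isAlgebraic_of_mem haL
  have h1 : (q.den : ℝ) * v y = v a := by
    rw [← v.map_pow hy0, hy]
  have h2 : v (y ^ q.num) = q * v a := by
    rw [v.map_zpow hy0, ← h1]
    have h3 : ((q : ℚ) : ℝ) * (q.den : ℝ) = (q.num : ℝ) := by
      exact_mod_cast Rat.mul_den_eq_num q
    rw [← h3]
    ring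
  refine ⟨y ^ q.num, ⟨zpow_ne_zero _ hy0, ?_⟩, ?_⟩
  · exact mem_algebraicClosure_iff.1 (zpow_mem (mem_algebraicClosure_iff.2 hyL) q.num)
  · rw [h2, abs_lt]
    rw [div_lt_iff₀ hav] at hq1
    rw [lt_div_iff₀ hav] at hq2
    exact ⟨by linarith, by linarith⟩

end IRR

/-- ROW I1.  The monomial valuation of irrational radius `b`, if `v` is not trivial on `L`. -/
theorem exists_irr [IsAlgClosed k] [IsAlgClosed Ω] (h : Ctx0 k v)
    {L : IntermediateField k Ω} (hpos : ∃ a ∈ L, a ≠ 0 ∧ 0 < v a)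
    {z α : Ω} {b : ℝ} (hz : Transcendental L z) (hα : IsAlgebraic L α) (hlt : b < v (z - α))
    (hb : ∀ (m : ℤ) (f : Ω), m ≠ 0 → f ≠ 0 → v f ≠ m * b)
    (hΩ : ∀ g : Ω, IsAlgebraic (adj L z) g) :
    ∃ W : RVal Ω, Ctx0 k W ∧ (∀ f, f ≠ 0 → IsAlgebraic L f → W f = v f) ∧
      (∀ β : Ω, IsAlgebraic L β → v (z - β) < b → W (z - β) = v (z - β)) ∧
      W (z - α) = b ∧
      ∀ S : Finset Ω, (∀ f ∈ S, f ∈ adj L z ∧ f ≠ 0) → ∃ ε > 0, ∀ c ∈ L, c ≠ 0 →
        |v c - b| < ε → ∀ Φ : Ω ≃ₐ[L] Ω, Φ z = z + c → (∀ β, IsAlgebraic L β → Φ β = β) →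
          ∀ f ∈ S, (0 < W f → 0 < v (Φ f)) ∧ (W f = 0 → v (Φ f) = 0) := by
  classical
  have hb1 : ∀ f : Ω, f ≠ 0 → v f ≠ b := by
    intro f hf h1
    refine hb 1 f one_ne_zero hf ?_
    push_cast
    linarith
  have hzA : ∀ β : Ω, IsAlgebraic L β → z - β ≠ 0 := by
    intro β hβ h0
    rw [sub_eq_zero] at h0
    exact hz (h0 ▸ hβ)
  have hle : adj L z ≤ adj ((algebraicClosure L Ω).restrictScalars k) z := by
    refine D2P.adj_mono (fun a ha => ?_) z
    rw [IntermediateField.mem_restrictScalars, mem_algebraicClosure_iff]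
    exact D2P.isAlgebraic_of_mem ha
  let C : Type u := {c : Ω // c ≠ 0 ∧ IsAlgebraic L c}
  let F : Filter C := comap (fun c : C => v (c : Ω)) (𝓝 b)
  have hFne : F.NeBot := by
    rw [comap_neBot_iff]
    intro t ht
    obtain ⟨ε, hε, hεt⟩ := Metric.mem_nhds_iff.1 ht
    obtain ⟨c, hc, hcb⟩ := IRR.exists_near (L := L) hpos b hε
    refine ⟨⟨c, hc⟩, hεt ?_⟩
    rw [Metric.mem_ball, Real.dist_eq]
    exact hcb
  let U : Ultrafilter C := Ultrafilter.of F
  have hUF : (U : Filter C) ≤ F := Ultrafilter.of_le F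
  have hvc : Tendsto (fun c : C => v (c : Ω)) (U : Filter C) (𝓝 b) :=
    tendsto_comap.mono_left hUF
  have hev : ∀ ε > 0, ∀ᶠ c : C in (U : Filter C), |v (c : Ω) - b| < ε := by
    intro ε hε
    filter_upwards [hvc (Metric.ball_mem_nhds b hε)] with c hc
    rw [Set.mem_preimage, Metric.mem_ball, Real.dist_eq] at hc
    exact hc
  choose Φ hΦ using fun c : C => IRR.exists_tr hz hΩ c.2.2
  have hlim : ∀ f : Ω, ∃ x : ℝ, Tendsto (fun c => v (Φ c f)) (U : Filter C) (𝓝 x) := by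
    intro f
    obtain ⟨B, ε, hε, hB⟩ := IRR.bounded hb1 hz hΩ f
    have h1 : ∀ᶠ c in (U : Filter C), v (Φ c f) ∈ Set.Icc (-B) B := by
      filter_upwards [hev ε hε] with c hc
      exact abs_le.1 (hB c c.2.1 c.2.2 hc (Φ c) (hΦ c))
    obtain ⟨x, -, hx⟩ := isCompact_iff_ultrafilter_le_nhds.1 (isCompact_Icc (a := -B) (b := B))
      (U.map fun c => v (Φ c f)) (by
        rw [Ultrafilter.coe_map]
        exact le_principal_iff.2 h1)
    exact ⟨x, hx⟩
  choose w hw using hlim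
  let W : RVal Ω :=
    { toFun := w
      map_mul' := by
        intro x y hx hy
        refine tendsto_nhds_unique (hw (x * y)) ?_
        refine ((hw x).add (hw y)).congr fun c => ?_
        rw [map_mul, v.map_mul ((map_ne_zero (Φ c)).2 hx) ((map_ne_zero (Φ c)).2 hy)]
      map_add' := by
        intro x y hx hy hxy
        refine le_of_tendsto_of_tendsto' ((hw x).min (hw y)) (hw (x + y)) fun c => ?_
        rw [map_add]
        exact v.map_add ((map_ne_zero (Φ c)).2 hx) ((map_ne_zero (Φ c)).2 hy)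
          (by rw [← map_add]; exact (map_ne_zero (Φ c)).2 hxy) }
  have hW : ∀ f, W f = w f := fun _ => rfl
  have hLin : ∀ (f a : Ω) (m : ℤ), IRR.Lin v L z b f a m → W f = v a + m * b := by
    rintro f a m ⟨ε, hε, h1⟩
    rw [hW]
    refine tendsto_nhds_unique (hw f) ?_
    have h2 : Tendsto (fun c : C => v a + m * v (c : Ω)) (U : Filter C) (𝓝 (v a + m * b)) :=
      (hvc.const_mul (m : ℝ)).const_add (v a)
    refine h2.congr' ?_
    filter_upwards [hev ε hε] with c hc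
    exact (h1 c c.2.1 c.2.2 hc (Φ c) (hΦ c)).symm
  have hWalg : ∀ f, f ≠ 0 → IsAlgebraic L f → W f = v f := by
    intro f _ hf
    rw [hLin f f 0 (IRR.lin_const hf)]
    push_cast
    ring
  have hWα : W (z - α) = b := by
    rw [hLin _ _ _ (IRR.lin_gt hα (hzA α hα) hlt), v.map_one]
    push_cast
    ring
  have hWk : ∀ c : k, c ≠ 0 → W (algebraMap k Ω c) = 0 := by
    intro c hc
    rw [hWalg _ (fun h0 => hc ((algebraMap k Ω).injective (by rw [h0, map_zero])))
      (D2P.isAlgebraic_of_mem (L.algebraMap_mem c))]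
    exact h.triv c hc
  have hMon : ∀ f ∈ adj L z, f ≠ 0 → IRR.Mon W L z α f := by
    intro f hf hf0
    refine IRR.elem_ind (p := IRR.Mon W L z α) hz ?_ ?_ ?_ ?_ (hle hf) hf0
    · intro a ha0 ha
      refine ⟨a, ha0, ha, 0, ?_⟩
      rw [zpow_zero, mul_one, div_self ha0, sub_self]
      exact LU1.VPos.zero
    · intro β hβ
      by_cases hαβ : α - β = 0
      · refine ⟨1, one_ne_zero, isAlgebraic_one, 1, ?_⟩
        have h1 : z - β = z - α := by linear_combination hαβ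
        rw [h1, zpow_one, one_mul, div_self (hzA α hα), sub_self]
        exact LU1.VPos.zero
      · have hWαβ : W (α - β) = v (α - β) := hWalg _ hαβ (hα.sub hβ)
        rcases lt_or_gt_of_ne (hb1 _ hαβ) with h1 | h1
        · refine ⟨α - β, hαβ, hα.sub hβ, 0, ?_⟩
          have h2 : (z - β) / ((α - β) * (z - α) ^ (0 : ℤ)) - 1 = (z - α) / (α - β) := by
            rw [zpow_zero, mul_one]
            field_simp
            ring
          rw [h2]
          intro _
          rw [W.map_div (hzA α hα) hαβ, hWα, hWαβ]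
          linarith
        · refine ⟨1, one_ne_zero, isAlgebraic_one, 1, ?_⟩
          have h0 := hzA α hα
          have h2 : (z - β) / (1 * (z - α) ^ (1 : ℤ)) - 1 = (α - β) / (z - α) := by
            rw [zpow_one, one_mul]
            field_simp
            ring
          rw [h2]
          intro _
          rw [W.map_div hαβ h0, hWα, hWαβ]
          linarith
    · intro f g _ _ hf hg
      exact IRR.mon_mul (hzA α hα) hf hg
    · intro f g _ hg0 hf hg
      exact IRR.mon_div (hzA α hα) hg0 hf hg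
  refine ⟨W, ⟨hWk, ?_⟩, hWalg, ?_, hWα, ?_⟩
  · -- residues
    intro g hg0 hg
    by_contra hno
    push Not at hno
    have hge : ∀ c : k, W.Ge 0 (algebraMap k Ω c) := by
      intro c h0
      have hc : c ≠ 0 := by
        rintro rfl
        exact h0 (map_zero _)
      rw [hWk c hc]
    have hu : ∀ c : k, W (g - algebraMap k Ω c) = 0 ∧ g ≠ algebraMap k Ω c := by
      intro c
      by_cases hc : c = 0
      · rw [hc, map_zero, sub_zero]
        exact ⟨hg, hg0⟩
      · have h1 := hno c hc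
        have h2 : g ≠ algebraMap k Ω c := by
          intro h3
          apply h1
          rw [h3, sub_self]
          exact LU1.VPos.zero
        refine ⟨?_, h2⟩
        have h3 : W.Ge 0 (g - algebraMap k Ω c) := (RVal.Ge.of_le hg.ge).sub (hge c)
        have h4 := h3 (sub_ne_zero.2 h2)
        by_contra h5
        exact h1 fun _ => lt_of_le_of_ne h4 (Ne.symm h5)
    obtain ⟨f, hfL, hf⟩ := LUW.exists_res hWk hu (hΩ g)
    have hf0 : f ≠ 0 := by
      have h1 := (hf 0).2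
      rwa [map_zero] at h1
    have hWf : W f = 0 := by
      have h1 := (hf 0).1
      rwa [map_zero, sub_zero] at h1
    obtain ⟨a, ha0, ha, m, hx⟩ := hMon f hfL hf0
    have hzα := hzA α hα
    have hx1 := IRR.one_add hx
    have hpow : (z - α) ^ m ≠ 0 := zpow_ne_zero m hzα
    have h1 : W f = v a + m * b := by
      have h2 : f = f / (a * (z - α) ^ m) * (a * (z - α) ^ m) := by
        field_simp
      rw [h2, W.map_mul hx1.1 (mul_ne_zero ha0 hpow), hx1.2, W.map_mul ha0 hpow,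
        W.map_zpow hzα, hWα, hWalg a ha0 ha, zero_add]
    have hm : m = 0 := by
      by_contra hm
      refine hb m a⁻¹ hm (inv_ne_zero ha0) ?_
      rw [v.map_inv ha0]
      linarith
    rw [hm] at h1 hx
    have hva : v a = 0 := by
      push_cast at h1
      linarith
    obtain ⟨c, hc0, hc⟩ := h.res a ha0 hva
    have hcW : VPos W (a - algebraMap k Ω c) := by
      intro h0
      rw [hWalg _ h0 (ha.sub (D2P.isAlgebraic_of_mem (L.algebraMap_mem c)))]
      exact hc h0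
    have h5 : f - algebraMap k Ω c = (f / (a * (z - α) ^ (0 : ℤ)) - 1) * a +
        (a - algebraMap k Ω c) := by
      rw [zpow_zero, mul_one]
      field_simp
      ring
    have h6 : VPos W (f - algebraMap k Ω c) := by
      rw [h5]
      refine (hx.mul ?_).add hcW
      exact fun _ => by rw [hWalg a ha0 ha, hva]
    have h7 := h6 (sub_ne_zero.2 (hf c).2)
    rw [(hf c).1] at h7
    exact lt_irrefl _ h7
  · intro β hβ hlt'
    rw [hLin _ _ _ (IRR.lin_lt hβ (hzA β hβ) hlt')]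
    push_cast
    ring
  · intro S hS
    have key : ∀ f : Ω, ∃ ε > 0, f ∈ S → ∀ c ∈ L, c ≠ 0 →
        |v c - b| < ε → ∀ Φ : Ω ≃ₐ[L] Ω, Φ z = z + c → (∀ β, IsAlgebraic L β → Φ β = β) →
          (0 < W f → 0 < v (Φ f)) ∧ (W f = 0 → v (Φ f) = 0) := by
      intro f
      by_cases hf : f ∈ S
      · obtain ⟨hfL, hf0⟩ := hS f hf
        obtain ⟨a, ha0, m, hl⟩ := IRR.lin_elem hb1 hz (hle hfL) hf0
        have hWf := hLin f a m hl
        obtain ⟨ε, hε, hl⟩ := hl
        by_cases hWf0 : 0 < W f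
        · have hden : 0 < |(m : ℝ)| + 1 := by positivity
          refine ⟨min ε (W f / (|(m : ℝ)| + 1)), lt_min hε (div_pos hWf0 hden),
            fun _ c hc hc0 hcb Ψ hΨz hΨ => ⟨fun _ => ?_, fun h0 => absurd h0 hWf0.ne'⟩⟩
          rw [hl c hc0 (D2P.isAlgebraic_of_mem hc) (lt_of_lt_of_le hcb (min_le_left _ _)) Ψ
            ⟨hΨz, hΨ⟩]
          have h1 := lt_of_lt_of_le hcb (min_le_right _ _)
          rw [lt_div_iff₀ hden] at h1
          have h2 : -(|(m : ℝ)| * |v c - b|) ≤ m * (v c - b) := by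
            rw [← abs_mul]
            exact neg_abs_le _
          have h3 : 0 ≤ |v c - b| := abs_nonneg _
          nlinarith
        · refine ⟨ε, hε, fun _ c hc hc0 hcb Ψ hΨz hΨ => ⟨fun h0 => absurd h0 hWf0, fun h0 => ?_⟩⟩
          rw [hl c hc0 (D2P.isAlgebraic_of_mem hc) hcb Ψ ⟨hΨz, hΨ⟩]
          rw [h0] at hWf
          have hm : m = 0 := by
            by_contra hm
            refine hb m a⁻¹ hm (inv_ne_zero ha0) ?_
            rw [v.map_inv ha0]
            linarith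
          rw [hm] at hWf ⊢
          push_cast at hWf ⊢
          linarith
      · exact ⟨1, one_pos, fun hf' => absurd hf' hf⟩
    choose ε hε hkey using key
    rcases S.eq_empty_or_nonempty with hSe | hSne
    · refine ⟨1, one_pos, fun c _ _ _ Ψ _ _ f hf => ?_⟩
      rw [hSe] at hf
      exact absurd hf (Finset.notMem_empty f)
    · refine ⟨S.inf' hSne ε, ?_, fun c hc hc0 hcb Ψ hΨz hΨ f hf => ?_⟩
      · rw [gt_iff_lt, Finset.lt_inf'_iff]
        exact fun f _ => hε f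
      · exact hkey f hf c hc hc0 (lt_of_lt_of_le hcb (Finset.inf'_le _ hf)) Ψ hΨz hΨ

end Pool.Agent.TW
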