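import Pool.Agent.Lib.TWI.I2a
import Pool.Agent.Lib.TW.T1

/-!
# TANK W, row I2 (REF), part b: states, refinements, one blowing up
-/

set_option autoImplicit false

open Polynomial

namespace Pool.Agent.TWI

open Pool.Agent.H15JM (RVal)
open Pool.Agent.LU1 (VPos)
open Pool.Agent.D2 (Ctx0)
open Pool.Agent.LUC

universe u

variable {Ω : Type u} [Field Ω] {v : RVal Ω} {R : Subring Ω} {A T : Set Ω} {n : ℕ}

/-- The Laurent monomial. -/
def lm (z : Fin n → Ω) (e : Fin n → ℤ) : Ω := ∏ i, z i ^ e i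

theorem lm_ne {z : Fin n → Ω} (hz : ∀ i, z i ≠ 0) (e : Fin n → ℤ) : lm z e ≠ 0 :=
  Finset.prod_ne_zero_iff.2 fun i _ => zpow_ne_zero _ (hz i)

theorem lm_add {z : Fin n → Ω} (hz : ∀ i, z i ≠ 0) (e e' : Fin n → ℤ) :
    lm z (e + e') = lm z e * lm z e' := by
  rw [lm, lm, lm, ← Finset.prod_mul_distrib]
  exact Finset.prod_congr rfl fun i _ => zpow_add₀ (hz i) _ _

theorem lm_single {z : Fin n → Ω} (i : Fin n) (m : ℤ) : lm z (Pi.single i m) = z i ^ m := by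
  classical
  rw [lm, Finset.prod_eq_single i]
  · rw [Pi.single_eq_same]
  · intro j _ hj
    rw [Pi.single_eq_of_ne hj, zpow_zero]
  · intro h
    exact absurd (Finset.mem_univ i) h

theorem lm_neg {z : Fin n → Ω} (e : Fin n → ℤ) : lm z (-e) = (lm z e)⁻¹ := by
  rw [lm, lm, ← Finset.prod_inv_distrib]
  exact Finset.prod_congr rfl fun i _ => zpow_neg _ _

theorem lm_congr {z z' : Fin n → Ω} {e : Fin n → ℤ} (h : ∀ i, z i = z' i ∨ e i = 0) :
    lm z e = lm z' e := by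
  refine Finset.prod_congr rfl fun i _ => ?_
  rcases h i with h | h
  · rw [h]
  · rw [h, zpow_zero, zpow_zero]

theorem val_lm {z : Fin n → Ω} (hz : ∀ i, z i ≠ 0) (e : Fin n → ℤ) :
    v (lm z e) = ∑ i, e i * v (z i) := by
  rw [lm, v.map_prod _ _ fun i _ => zpow_ne_zero _ (hz i)]
  exact Finset.sum_congr rfl fun i _ => v.map_zpow (hz i) _

/-- The exponents outside of `J` are zero. -/
def Spp (J : Finset (Fin n)) (e : Fin n → ℤ) : Prop := ∀ i, i ∉ J → e i = 0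

/-- A chart, of dimension `n`. -/
structure St (v : RVal Ω) (R : Subring Ω) (A T : Set Ω) (n : ℕ) where
  z : Fin n → Ω
  J : Finset (Fin n)
  O : Subring Ω
  mod : IsMod v R A T z J O
  dim : ringKrullDim O = n

/-- `S'` is a toric refinement of `S`, `L` is the map of the exponents. -/
structure Rf (S S' : St v R A T n) (L : (Fin n → ℤ) →+ (Fin n → ℤ)) : Prop where
  le : S.O ≤ S'.O
  sup : ∀ e, Spp S.J e → Spp S'.J (L e)
  mon : ∀ e, Spp S.J e → ∃ u ∈ S'.O, u ≠ 0 ∧ v u = 0 ∧ lm S.z e = lm S'.z (L e) * u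
  nn : ∀ e, Spp S.J e → (∀ i ∈ S.J, 0 ≤ e i) → ∀ i ∈ S'.J, 0 ≤ L e i
  pp : ∀ e, Spp S.J e → (∀ i ∈ S.J, 0 < e i) → ∀ i ∈ S'.J, 0 < L e i

theorem Rf.refl (S : St v R A T n) : Rf S S (AddMonoidHom.id _) where
  le := le_rfl
  sup _ h := h
  mon _ _ := ⟨1, S.O.one_mem, one_ne_zero, v.map_one, (mul_one _).symm⟩
  nn _ _ h := h
  pp _ _ h := h

theorem Rf.trans {S S' S'' : St v R A T n} {L L' : (Fin n → ℤ) →+ (Fin n → ℤ)}
    (h : Rf S S' L) (h' : Rf S' S'' L') : Rf S S'' (L'.comp L) where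
  le := h.le.trans h'.le
  sup e he := h'.sup _ (h.sup e he)
  mon e he := by
    obtain ⟨u, hu, hu0, hu1, h1⟩ := h.mon e he
    obtain ⟨u', hu', hu0', hu1', h2⟩ := h'.mon _ (h.sup e he)
    refine ⟨u' * u, S''.O.mul_mem hu' (h'.le hu), mul_ne_zero hu0' hu0, ?_, ?_⟩
    · rw [v.map_mul hu0' hu0, hu1, hu1', add_zero]
    · rw [h1, h2, mul_assoc]
      rfl
  nn e he h0 := h'.nn _ (h.sup e he) (h.nn e he h0)
  pp e he h0 := h'.pp _ (h.sup e he) (h.pp e he h0)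

/-- The values of the monomials. -/
theorem Rf.val {S S' : St v R A T n} {L : (Fin n → ℤ) →+ (Fin n → ℤ)} (h : Rf S S' L)
    {e : Fin n → ℤ} (he : Spp S.J e) : v (lm S'.z (L e)) = v (lm S.z e) := by
  obtain ⟨u, hu, hu0, hu1, h1⟩ := h.mon e he
  rw [h1, v.map_mul (lm_ne S'.mod.par.ne _) hu0, hu1, add_zero]

/-- Positive exponents. -/
theorem SM.of_pos {O : Subring Ω} {z : Fin n → Ω} {J : Finset (Fin n)} (hz : ∀ i, z i ≠ 0)
    (hpos : ∀ i, 0 < v (z i)) {f : Fin n → ℤ} (hf : Spp J f) (h0 : ∀ i ∈ J, 0 < f i) {u t : Ω}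
    (hu : u ∈ O) (hu0 : u ≠ 0) (hu1 : v u = 0) (ht : t = lm z f * u) : SM v O z J t := by
  have hval : v t = ∑ i, f i * v (z i) := by
    rw [ht, v.map_mul (lm_ne hz _) hu0, hu1, add_zero, val_lm hz]
  have hterm : ∀ i, 0 ≤ (f i : ℝ) * v (z i) := by
    intro i
    by_cases hi : i ∈ J
    · have h1 : (0 : ℝ) < f i := by exact_mod_cast h0 i hi
      exact (mul_pos h1 (hpos i)).le
    · rw [hf i hi]
      simp
  have hge : 0 ≤ v t := by
    rw [hval]
    exact Finset.sum_nonneg fun i _ => hterm i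
  refine ⟨f, u, hu, hu0, hu1, ht, hf, fun _ => h0, fun h1 => absurd hge (not_le.2 h1), ?_⟩
  intro h1 i
  by_contra h2
  have hi : i ∈ J := by
    by_contra hi
    exact h2 (hf i hi)
  have h3 : (0 : ℝ) < f i := by exact_mod_cast h0 i hi
  have h4 : 0 < v t := by
    rw [hval]
    exact (mul_pos h3 (hpos i)).trans_le
      (Finset.single_le_sum (f := fun i => (f i : ℝ) * v (z i)) (fun i _ => hterm i)
        (Finset.mem_univ i))
  rw [h1] at h4
  exact lt_irrefl _ h4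

theorem Par.inv_mem {O B : Subring Ω} (hO : O = lv v B) :
    ∀ f ∈ O, f ≠ 0 → v f = 0 → f⁻¹ ∈ O := by
  subst hO
  exact fun f => lv_inv

/-- Monomials of a chart are monomials of its refinements. -/
theorem sm_transfer {O O' : Subring Ω} {z z' : Fin n → Ω} {J J' : Finset (Fin n)}
    {L : (Fin n → ℤ) →+ (Fin n → ℤ)} (hz : ∀ i, z' i ≠ 0) (hpos : ∀ i, 0 < v (z' i))
    (hinv : ∀ f ∈ O', f ≠ 0 → v f = 0 → f⁻¹ ∈ O') (hle : O ≤ O')
    (hsup : ∀ e, Spp J e → Spp J' (L e))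
    (hmon : ∀ e, Spp J e → ∃ u ∈ O', u ≠ 0 ∧ v u = 0 ∧ lm z e = lm z' (L e) * u)
    (hpp : ∀ e, Spp J e → (∀ i ∈ J, 0 < e i) → ∀ i ∈ J', 0 < L e i) {t : Ω}
    (ht : SM v O z J t) : SM v O' z' J' t := by
  obtain ⟨e, u, hu, hu0, hu1, he, hJ, hp, hn, h0⟩ := ht
  rcases lt_trichotomy (v t) 0 with h1 | h1 | h1
  · have h2 : SM v O' z' J' t⁻¹ := by
      have hJ' : Spp J (-e) := fun i hi => by rw [Pi.neg_apply, hJ i hi, neg_zero]
      obtain ⟨u', hu', hu0', hu1', h3⟩ := hmon (-e) hJ'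
      refine SM.of_pos hz hpos (hsup _ hJ') (hpp _ hJ' fun i hi => ?_)
        (u := u' * u⁻¹) (O'.mul_mem hu' (hinv u (hle hu) hu0 hu1)) (mul_ne_zero hu0'
          (inv_ne_zero hu0)) ?_ ?_
      · rw [Pi.neg_apply]
        exact neg_pos.2 (hn h1 i hi)
      · rw [v.map_mul hu0' (inv_ne_zero hu0), v.map_inv hu0, hu1, hu1', neg_zero, add_zero]
      · rw [he, mul_inv, show (∏ i, z i ^ e i) = lm z e from rfl, ← lm_neg, h3, mul_assoc]
    have h3 := h2.inv hinv hz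
    rwa [inv_inv] at h3
  · have h2 := h0 h1
    have h3 : t = u := by
      rw [he]
      simp [h2]
    rw [h3]
    exact SM.of_unit (hle hu) hu0 hu1
  · obtain ⟨u', hu', hu0', hu1', h3⟩ := hmon e hJ
    refine SM.of_pos hz hpos (hsup _ hJ) (hpp _ hJ (hp h1))
      (u := u' * u) (O'.mul_mem hu' (hle hu)) (mul_ne_zero hu0' hu0) ?_ ?_
    · rw [v.map_mul hu0' hu0, hu1, hu1', add_zero]
    · rw [he, show (∏ i, z i ^ e i) = lm z e from rfl, h3, mul_assoc]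

end Pool.Agent.TWI
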