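import Pool.Agent.Lib.TWI.I2b

/-!
# TANK W, row I2 (REF), part c: the local ring of one blowing up
-/

set_option autoImplicit false

open Polynomial

namespace Pool.Agent.TWI

open Pool.Agent.H15JM (RVal)
open Pool.Agent.LU1 (VPos)
open Pool.Agent.D2 (Ctx0)
open Pool.Agent.LUC

universe u

variable {k Ω : Type u} [Field k] [Field Ω] [Algebra k Ω] {v : RVal Ω} {n : ℕ}

/-- The elements of the local ring are in the field. -/
theorem mem_field {F : Set Ω} {f : Ω} (hf : f ∈ lv v (adj (algebraMap k Ω).range F)) :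
    f ∈ IntermediateField.adjoin k F := by
  obtain ⟨a, ha, b, hb, -, -, rfl⟩ := hf
  have h1 : ∀ x ∈ adj (algebraMap k Ω).range F, x ∈ IntermediateField.adjoin k F := fun x hx =>
    IntermediateField.algebra_adjoin_le_adjoin k F ((mem_adj_iff F x).1 hx)
  exact div_mem (h1 a ha) (h1 b hb)

/-- The dimension does not change. -/
theorem dim_new (h : Ctx0 k v) {F : Set Ω} (hF : F.Finite) (hF0 : ∀ a ∈ F, v.Ge 0 a)
    {O : Subring Ω} (hO : O = lv v (adj (algebraMap k Ω).range F)) {a b : Ω} (ha : a ∈ O)
    (hb : b ∈ O) (hy0 : v.Ge 0 (a / b)) :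
    ringKrullDim (lv v (adj O {a / b})) = ringKrullDim O := by
  have h1 : lv v (adj O {a / b}) = lv v (adj (algebraMap k Ω).range (F ∪ {a / b})) := by
    rw [hO, lv_adj_lv, adj_adj]
  have hF' : (F ∪ {a / b}).Finite := hF.union (Set.finite_singleton _)
  have hF0' : ∀ x ∈ F ∪ {a / b}, v.Ge 0 x := by
    rintro x (hx | hx)
    · exact hF0 x hx
    · rw [Set.mem_singleton_iff.1 hx]
      exact hy0
  have hlt : Algebra.trdeg k (IntermediateField.adjoin k F) < Cardinal.aleph0 :=
    (TW.trdeg_adjoin_le F).trans_lt (Cardinal.lt_aleph0_iff_set_finite.2 hF)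
  obtain ⟨d, hd⟩ := Cardinal.lt_aleph0.1 hlt
  have hfield : IntermediateField.adjoin k (F ∪ {a / b}) = IntermediateField.adjoin k F := by
    apply le_antisymm
    · rw [IntermediateField.adjoin_le_iff]
      rintro x (hx | hx)
      · exact IntermediateField.subset_adjoin _ _ hx
      · rw [Set.mem_singleton_iff.1 hx]
        rw [hO] at ha hb
        exact div_mem (mem_field ha) (mem_field hb)
    · exact IntermediateField.adjoin.mono _ _ _ Set.subset_union_left
  have hd' : Algebra.trdeg k (IntermediateField.adjoin k (F ∪ {a / b})) = d := by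
    rw [hfield, hd]
  rw [h1, dim_eq h hF' hF0' hd', hO, dim_eq h hF hF0 hd]

/-- The maximal ideal of a local ring of dimension `n` is not generated by fewer elements. -/
theorem ne_zero_of_gen {B : Subring Ω} [IsNoetherianRing B] (hB : ∀ f ∈ B, v.Ge 0 f)
    (hdim : ringKrullDim (lv v B) = n) {z : Fin n → Ω} (hz : ∀ i, z i ∈ lv v B)
    (hz1 : ∀ i, VPos v (z i)) (hgen : ∀ f ∈ lv v B, VPos v f → IP (lv v B) z 1 f) (j : Fin n) :
    z j ≠ 0 := by
  classical
  intro hj
  have hloc : IsLocalRing (lv v B) := lv_isLocalRing hB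
  have hnoe : IsNoetherianRing (lv v B) := lv_isNoetherian B
  set G : Set (lv v B) := (fun i => (⟨z i, hz i⟩ : lv v B)) '' (Finset.univ.erase j : Finset (Fin n))
    with hG
  have hGf : G.Finite := (Finset.finite_toSet _).image _
  have hm : IsLocalRing.maximalIdeal (lv v B) = Ideal.span G := by
    apply le_antisymm
    · intro f hf
      obtain ⟨g, hg, hg'⟩ := hgen f f.2 ((mem_max_iff hB f).1 hf)
      rw [pow_one] at hg'
      have hfg : g = f := Subtype.ext hg
      subst hfg
      refine (Ideal.span_le.2 ?_ : idl (lv v B) z ≤ Ideal.span G) hg'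
      rintro b ⟨i, hi⟩
      by_cases hij : i = j
      · have hb0 : b = 0 := by
          apply Subtype.ext
          rw [hi, hij, hj]
          rfl
        rw [hb0]
        exact Ideal.zero_mem _
      · refine Ideal.subset_span ⟨i, ?_, Subtype.ext hi.symm⟩
        simpa using hij
    · rw [Ideal.span_le]
      rintro _ ⟨i, -, rfl⟩
      exact (mem_max_iff hB _).2 (hz1 i)
  have h1 := ringKrullDim_le_spanFinrank_maximalIdeal (lv v B)
  have h2 : (IsLocalRing.maximalIdeal (lv v B)).spanFinrank ≤ n - 1 := by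
    rw [hm]
    refine (Submodule.spanFinrank_span_le_ncard_of_finite hGf).trans ?_
    refine (Set.ncard_image_le (Finset.finite_toSet _)).trans ?_
    rw [Set.ncard_coe_finset, Finset.card_erase_of_mem (Finset.mem_univ j), Finset.card_univ,
      Fintype.card_fin]
  rw [hdim] at h1
  have h3 : n ≤ n - 1 := by
    have : ((n : ℕ) : WithBot ℕ∞) ≤ ((n - 1 : ℕ) : WithBot ℕ∞) := h1.trans (by exact_mod_cast h2)
    exact_mod_cast this
  have h4 := j.pos
  omega

end Pool.Agent.TWI
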