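import Pool.Agent.Lib.TWI.I2c

/-!
# TANK W, row I2 (REF), part d: the parameters of one blowing up
-/

set_option autoImplicit false

open Polynomial

namespace Pool.Agent.TWI

open Pool.Agent.H15JM (RVal)
open Pool.Agent.LU1 (VPos)
open Pool.Agent.D2 (Ctx0)
open Pool.Agent.LUC

universe u

variable {k Ω : Type u} [Field k] [Field Ω] [Algebra k Ω] {v : RVal Ω} {n : ℕ}

/-- The parameters of the new ring. -/
theorem par_new (h : Ctx0 k v) {F : Set Ω} (hF : F.Finite) (hF0 : ∀ a ∈ F, v.Ge 0 a)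
    {O : Subring Ω} (hO : O = lv v (adj (algebraMap k Ω).range F)) (hdim : ringKrullDim O = n)
    {z : Fin n → Ω} (hpar : Par v O z) {i j : Fin n} (hij : i ≠ j) (hle : v (z i) ≤ v (z j))
    {c : k} (hc : VPos v (z j / z i - algebraMap k Ω c)) :
    Par v (lv v (adj O {z j / z i}))
      (Function.update z j (z j / z i - algebraMap k Ω c)) := by
  classical
  set y : Ω := z j / z i with hy
  set z' : Fin n → Ω := Function.update z j (y - algebraMap k Ω c) with hz'
  set O' : Subring Ω := lv v (adj O {y}) with hO'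
  have hy0 : v.Ge 0 y := by
    intro _
    rw [hy, v.map_div (hpar.ne j) (hpar.ne i)]
    linarith
  have hzj : z' j = y - algebraMap k Ω c := Function.update_self _ _ _
  have hzl : ∀ l, l ≠ j → z' l = z l := fun l hl => Function.update_of_ne hl _ _
  have hF0' : ∀ a ∈ adj (algebraMap k Ω).range F, v.Ge 0 a :=
    adj_nonneg (by rintro _ ⟨c, rfl⟩; exact h.ge c) hF0
  have hO0 : ∀ f ∈ O, v.Ge 0 f := by
    rw [hO]
    exact lv_nonneg hF0'
  have hRO : ∀ c : k, algebraMap k Ω c ∈ O := by
    intro c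
    rw [hO]
    exact le_lv v _ (base_le_adj _ _ ⟨c, rfl⟩)
  have hB0 : ∀ f ∈ adj O {y}, v.Ge 0 f := adj_nonneg hO0 (by
    intro f hf
    rw [Set.mem_singleton_iff.1 hf]
    exact hy0)
  have hO'0 : ∀ f ∈ O', v.Ge 0 f := lv_nonneg hB0
  have hOB : O ≤ adj O {y} := base_le_adj _ _
  have hBO' : adj O {y} ≤ O' := le_lv v _
  have hOO' : O ≤ O' := hOB.trans hBO'
  have hyB : y ∈ adj O {y} := mem_adj (Set.mem_singleton _)
  have hyO' : y ∈ O' := hBO' hyB
  have hmem : ∀ l, z' l ∈ O' := by
    intro l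
    by_cases hl : l = j
    · rw [hl, hzj]
      exact O'.sub_mem hyO' (hOO' (hRO c))
    · rw [hzl l hl]
      exact hOO' (hpar.mem l)
  have hpos : ∀ l, VPos v (z' l) := by
    intro l
    by_cases hl : l = j
    · rw [hl, hzj]
      exact hc
    · rw [hzl l hl]
      exact fun _ => hpar.pos l
  have hIPz : ∀ l, IP O' z' 1 (z l) := by
    intro l
    by_cases hl : l = j
    · have h1 : z l = z' i * y := by
        rw [hl, hzl i hij, hy, mul_div_cancel₀ _ (hpar.ne i)]
      rw [h1]
      exact (IP.gen (hmem i)).mul_right hyO'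
    · rw [← hzl l hl]
      exact IP.gen (hmem l)
  -- every element of the new ring is near to a constant
  have hnear : ∀ f ∈ adj O {y}, ∃ c' : k, IP O' z' 1 (f - algebraMap k Ω c') := by
    intro f hf
    refine (adj_induction (p := fun f => ∃ c' : k, f ∈ O' ∧ IP O' z' 1 (f - algebraMap k Ω c'))
      ?_ ?_ ?_ ?_ hf).imp fun c' hc' => hc'.2
    · intro f hf
      obtain ⟨c', hc'⟩ := h.residue (hO0 f hf)
      refine ⟨c', hOO' hf, ?_⟩
      exact (hpar.gen _ (O.sub_mem hf (hRO c')) hc').map hOO' hIPz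
    · intro f hf
      rw [Set.mem_singleton_iff.1 hf]
      refine ⟨c, hyO', ?_⟩
      rw [← hzj]
      exact IP.gen (hmem j)
    · rintro f g ⟨c₁, hf, h1⟩ ⟨c₂, hg, h2⟩
      refine ⟨c₁ + c₂, O'.add_mem hf hg, ?_⟩
      have h3 := h1.add h2
      rw [_root_.map_add]
      convert h3 using 1
      ring
    · rintro f g ⟨c₁, hf, h1⟩ ⟨c₂, hg, h2⟩
      refine ⟨c₁ * c₂, O'.mul_mem hf hg, ?_⟩
      have h3 := (h1.mul_right hg).add (h2.mul_left (hOO' (hRO c₁)))
      rw [_root_.map_mul]
      convert h3 using 1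
      ring
  have hgen : ∀ f ∈ O', VPos v f → IP O' z' 1 f := by
    rintro f ⟨a, ha, b, hb, hb0, hvb, rfl⟩ hf
    obtain ⟨c', hc'⟩ := hnear a ha
    have h1 : VPos v a := by
      have h2 := VPos.mul' (hB0 b hb) hf
      rwa [mul_div_cancel₀ _ hb0] at h2
    have h2 : VPos v (a - algebraMap k Ω c') := hc'.vpos hO'0 hpos hmem
    have h3 : VPos v (algebraMap k Ω c') := by
      have h4 := VPos.sub h1 h2
      rwa [sub_sub_cancel] at h4
    have h4 := h.const_eq_zero h3
    rw [h4, _root_.map_zero, sub_zero] at hc'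
    rw [div_eq_mul_inv]
    exact hc'.mul_right (lv_inv (hBO' hb) hb0 hvb)
  have hnoe : IsNoetherianRing (adj O {y}) := by
    have h1 : IsNoetherianRing (algebraMap k Ω).range := isNoetherianRing_range _
    have h2 : IsNoetherianRing (adj (algebraMap k Ω).range F) := by
      have h3 := adj_isNoetherian (algebraMap k Ω).range hF.toFinset
      rwa [hF.coe_toFinset] at h3
    have h4 : IsNoetherianRing O := by
      rw [hO]
      exact lv_isNoetherian _
    have h5 := adj_isNoetherian O {y}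
    rwa [Finset.coe_singleton] at h5
  have hdim' : ringKrullDim O' = n := by
    rw [← hdim]
    exact dim_new h hF hF0 hO (hpar.mem j) (hpar.mem i) hy0
  have hne : ∀ l, z' l ≠ 0 := ne_zero_of_gen hB0 hdim' hmem hpos hgen
  exact ⟨hmem, hne, fun l => hpos l (hne l), hgen⟩

end Pool.Agent.TWI
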