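import Pool.Agent.Lib.TWI.I2d

/-!
# TANK W, row I2 (REF), part e: one blowing up
-/

set_option autoImplicit false

open Polynomial

namespace Pool.Agent.TWI

open Pool.Agent.H15JM (RVal)
open Pool.Agent.LU1 (VPos)
open Pool.Agent.D2 (Ctx0)
open Pool.Agent.LUC

universe u

variable {k Ω : Type u} [Field k] [Field Ω] [Algebra k Ω] {v : RVal Ω} {n : ℕ} {A T : Set Ω}

/-- The new chart. -/
theorem mk_step (h : Ctx0 k v) (hA : A.Finite) (hA0 : ∀ a ∈ A, v.Ge 0 a)
    (S : St v (algebraMap k Ω).range A T n) {i j : Fin n} (hi : i ∈ S.J)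
    (hij : i ≠ j) (hle : v (S.z i) ≤ v (S.z j)) {c : k}
    (hc : VPos v (S.z j / S.z i - algebraMap k Ω c)) {J' : Finset (Fin n)}
    {L : (Fin n → ℤ) →+ (Fin n → ℤ)} (hsup : ∀ e, Spp S.J e → Spp J' (L e))
    (hmon : ∀ e, Spp S.J e → ∃ u ∈ lv v (adj S.O {S.z j / S.z i}), u ≠ 0 ∧ v u = 0 ∧
      lm S.z e = lm (Function.update S.z j (S.z j / S.z i - algebraMap k Ω c)) (L e) * u)
    (hnn : ∀ e, Spp S.J e → (∀ i ∈ S.J, 0 ≤ e i) → ∀ i ∈ J', 0 ≤ L e i)
    (hpp : ∀ e, Spp S.J e → (∀ i ∈ S.J, 0 < e i) → ∀ i ∈ J', 0 < L e i) :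
    ∃ S' : St v (algebraMap k Ω).range A T n, S'.J = J' ∧ Rf S S' L := by
  classical
  obtain ⟨g, hg, hg0, hgm, G, hG, hO⟩ := S.mod.chart
  have hpar := S.mod.par
  set y : Ω := S.z j / S.z i with hy
  set z' : Fin n → Ω := Function.update S.z j (y - algebraMap k Ω c) with hz'
  set O' : Subring Ω := lv v (adj S.O {y}) with hO'
  set F : Set Ω := A ∪ (fun x => x / g) '' (G : Set Ω) with hFdef
  have hF : F.Finite := hA.union ((Finset.finite_toSet G).image _)
  have hF0 : ∀ a ∈ F, v.Ge 0 a := by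
    rintro a (ha | ⟨x, hx, rfl⟩)
    · exact hA0 a ha
    · intro h0
      have hx0 : x ≠ 0 := by
        rintro rfl
        simp at h0
      have h1 := (hG x hx).2 hx0
      rw [v.map_div hx0 hg0]
      linarith
  have hy0 : v.Ge 0 y := by
    intro _
    rw [hy, v.map_div (hpar.ne j) (hpar.ne i)]
    linarith
  have hRA0 : ∀ a ∈ adj (algebraMap k Ω).range A, v.Ge 0 a :=
    adj_nonneg (by rintro _ ⟨c, rfl⟩; exact h.ge c) hA0
  have hRF0 : ∀ a ∈ adj (algebraMap k Ω).range F, v.Ge 0 a :=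
    adj_nonneg (by rintro _ ⟨c, rfl⟩; exact h.ge c) hF0
  have hO0 : ∀ f ∈ S.O, v.Ge 0 f := by
    rw [hO]
    exact lv_nonneg hRF0
  have hOinv : ∀ f ∈ S.O, f ≠ 0 → v f = 0 → f⁻¹ ∈ S.O := Par.inv_mem hO
  have hO'inv : ∀ f ∈ O', f ≠ 0 → v f = 0 → f⁻¹ ∈ O' := fun f => lv_inv
  have hB0 : ∀ f ∈ adj S.O {y}, v.Ge 0 f := adj_nonneg hO0 (by
    intro f hf
    rw [Set.mem_singleton_iff.1 hf]
    exact hy0)
  have hO'0 : ∀ f ∈ O', v.Ge 0 f := lv_nonneg hB0
  have hOO' : S.O ≤ O' := (base_le_adj _ _).trans (le_lv v _)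
  have hyO' : y ∈ O' := le_lv v _ (mem_adj (Set.mem_singleton _))
  have hpar' : Par v O' z' := par_new h hF hF0 hO S.dim hpar hij hle hc
  have htr : ∀ t, SM v S.O S.z S.J t → SM v O' z' J' t := fun t ht =>
    sm_transfer hpar'.ne hpar'.pos hO'inv hOO' hsup hmon hpp ht
  have hdim' : ringKrullDim O' = n := by
    rw [← S.dim]
    exact dim_new h hF hF0 hO (hpar.mem j) (hpar.mem i) hy0
  have hAO : ∀ a ∈ A, a ∈ S.O := by
    intro a ha
    rw [hO]
    exact le_lv v _ (mem_adj (Or.inl ha))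
  have hRO : (algebraMap k Ω).range ≤ S.O := by
    rw [hO]
    exact (base_le_adj _ _).trans (le_lv v _)
  have hA0' : ∀ a ∈ adj (algebraMap k Ω).range (hA.toFinset : Set Ω), v.Ge 0 a := by
    rwa [hA.coe_toFinset]
  have hAF : adj (algebraMap k Ω).range (hA.toFinset : Set Ω) =
      adj (algebraMap k Ω).range A := by
    rw [hA.coe_toFinset]
  -- the old ring is in the quotients
  have hOQ : S.O ≤ QM v S.O S.z S.J hpar.ne (adj (algebraMap k Ω).range A) hRA0 := by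
    conv_lhs => rw [hO]
    refine qm_lv hOinv ?_ ?_
    · refine adj_le ((base_le_adj _ _).trans le_QM) ?_
      rintro f (hf | ⟨x, hx, rfl⟩)
      · exact le_QM (mem_adj hf)
      · exact ⟨x, (hG x hx).1, g, hg, hgm, rfl⟩
    · conv_rhs => rw [hO]
      exact le_lv v _
  have hyQ : ∃ a ∈ adj (algebraMap k Ω).range A, ∃ b ∈ adj (algebraMap k Ω).range A,
      SM v S.O S.z S.J b ∧ y = a / b := by
    obtain ⟨a₁, ha₁, b₁, hb₁, hb₁m, h1⟩ := hOQ (hpar.mem j)
    obtain ⟨c₁, hc₁, d₁, hd₁, hd₁m, h2⟩ := hOQ (hpar.mem i)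
    obtain ⟨p, hp, q, hq, hqm, h3⟩ := hOQ (S.O.prod_mem (t := S.J) fun l _ => hpar.mem l)
    have hb₁0 := hb₁m.ne hpar.ne
    have hd₁0 := hd₁m.ne hpar.ne
    have hq0 := hqm.ne hpar.ne
    have hs0 : (∏ l ∈ S.J, S.z l) ≠ 0 := Finset.prod_ne_zero_iff.2 fun l _ => hpar.ne l
    have hc₁0 : c₁ ≠ 0 := by
      rintro rfl
      exact hpar.ne i (by rw [h2, zero_div])
    have hp0 : p ≠ 0 := by
      rintro rfl
      exact hs0 (by rw [h3, zero_div])
    -- the monomial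
    have hzs : SM v S.O S.z S.J (S.z i * ∏ l ∈ S.J, S.z l) := by
      refine SM.of_pos (f := Pi.single i 1 + fun l => if l ∈ S.J then 1 else 0) hpar.ne hpar.pos
        ?_ ?_ S.O.one_mem one_ne_zero v.map_one ?_
      · intro l hl
        have hli : l ≠ i := by
          rintro rfl
          exact hl hi
        rw [Pi.add_apply, Pi.single_eq_of_ne hli, if_neg hl, add_zero]
      · intro l hl
        rw [Pi.add_apply, if_pos hl]
        by_cases hli : l = i
        · rw [hli, Pi.single_eq_same]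
          norm_num
        · rw [Pi.single_eq_of_ne hli]
          norm_num
      · rw [mul_one, lm_add hpar.ne, lm_single, zpow_one, lm]
        congr 1
        rw [← Finset.prod_subset (Finset.subset_univ S.J) fun l _ hl => by rw [if_neg hl, zpow_zero]]
        exact Finset.prod_congr rfl fun l hl => by rw [if_pos hl, zpow_one]
    have hge : ∀ x ∈ adj (algebraMap k Ω).range A, x ≠ 0 → 0 ≤ v x := fun x hx hx0 => hRA0 x hx hx0
    have hzs0 : 0 ≤ v (S.z i * ∏ l ∈ S.J, S.z l) := by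
      have h4 : S.z i * ∏ l ∈ S.J, S.z l ∈ S.O :=
        S.O.mul_mem (hpar.mem i) (S.O.prod_mem fun l _ => hpar.mem l)
      exact hO0 _ h4 (mul_ne_zero (hpar.ne i) hs0)
    have hbd := hb₁m.mul hpar.ne (hge _ hb₁ hb₁0) hd₁m (hge _ hd₁ hd₁0)
    have hbdq := hbd.mul hpar.ne (hge _ (Subring.mul_mem _ hb₁ hd₁) (mul_ne_zero hb₁0 hd₁0)) hqm
      (hge _ hq hq0)
    have hall := hbdq.mul hpar.ne (hge _ (Subring.mul_mem _ (Subring.mul_mem _ hb₁ hd₁) hq)
      (mul_ne_zero (mul_ne_zero hb₁0 hd₁0) hq0)) hzs hzs0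
    refine ⟨a₁ * d₁ * p, Subring.mul_mem _ (Subring.mul_mem _ ha₁ hd₁) hp, b₁ * c₁ * p,
      Subring.mul_mem _ (Subring.mul_mem _ hb₁ hc₁) hp, ?_, ?_⟩
    · convert hall using 1
      rw [h3, h2]
      field_simp
    · rw [hy, h1, h2]
      field_simp
  have hFR : O' = lv v (adj (algebraMap k Ω).range
      ((hA.toFinset ∪ (G.image fun x => x / g) ∪ {y} : Finset Ω) : Set Ω)) := by
    rw [hO', hO, lv_adj_lv, adj_adj]
    congr 2
    rw [Finset.coe_union, Finset.coe_union, hA.coe_toFinset, Finset.coe_image,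
      Finset.coe_singleton]
  have hchart := chart_of (w := v) (R := (algebraMap k Ω).range) (O := O') (z := z') (J := J')
    (hz := hpar'.ne) hO'inv hO'0 hA.toFinset hA0'
    (fun a ha => hOO' (hAO a (hA.mem_toFinset.1 ha))) _ hFR (by
      intro f hf
      rcases Finset.mem_union.1 hf with hf | hf
      · rcases Finset.mem_union.1 hf with hf | hf
        · exact le_QM (mem_adj (Finset.mem_coe.2 hf))
        · obtain ⟨x, hx, rfl⟩ := Finset.mem_image.1 hf
          exact ⟨x, by rw [hAF]; exact (hG x hx).1, g, by rw [hAF]; exact hg, htr g hgm, rfl⟩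
      · rw [Finset.mem_singleton.1 hf]
        obtain ⟨a, ha, b, hb, hbm, hab⟩ := hyQ
        exact ⟨a, by rw [hAF]; exact ha, b, by rw [hAF]; exact hb, htr b hbm, hab⟩)
  rw [hA.coe_toFinset] at hchart
  exact ⟨⟨z', J', O', ⟨hpar', hchart, fun t ht => htr t (S.mod.mono t ht)⟩, hdim'⟩, rfl,
    ⟨hOO', hsup, hmon, hnn, hpp⟩⟩

end Pool.Agent.TWI
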