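import Pool.Agent.Lib.TWI.I2e

/-!
# TANK W, row I2 (REF), part f: the two cases of a blowing up
-/

set_option autoImplicit false

open Polynomial

namespace Pool.Agent.TWI

open Pool.Agent.H15JM (RVal)
open Pool.Agent.LU1 (VPos)
open Pool.Agent.D2 (Ctx0)
open Pool.Agent.LUC

universe u

variable {k Ω : Type u} [Field k] [Field Ω] [Algebra k Ω] {v : RVal Ω} {n : ℕ} {A T : Set Ω}

/-- The map of the exponents if the new parameter is `z j / z i`. -/
def L1 (i j : Fin n) : (Fin n → ℤ) →+ (Fin n → ℤ) where
  toFun e := e + Pi.single i (e j)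
  map_zero' := by simp
  map_add' e e' := by
    rw [Pi.add_apply, Pi.single_add]
    abel

/-- The map of the exponents if `z j / z i` is a unit. -/
def L2 (i j : Fin n) : (Fin n → ℤ) →+ (Fin n → ℤ) where
  toFun e := e - Pi.single j (e j) + Pi.single i (e j)
  map_zero' := by simp
  map_add' e e' := by
    rw [Pi.add_apply, Pi.single_add, Pi.single_add]
    abel

theorem L1_apply (i j : Fin n) (e : Fin n → ℤ) : L1 i j e = e + Pi.single i (e j) := rfl

theorem L2_apply (i j : Fin n) (e : Fin n → ℤ) :
    L2 i j e = e - Pi.single j (e j) + Pi.single i (e j) := rfl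

theorem lm_L2 {z : Fin n → Ω} (hz : ∀ i, z i ≠ 0) {i j : Fin n} (hij : i ≠ j) (t : Ω)
    (e : Fin n → ℤ) : lm z e = lm (Function.update z j t) (L2 i j e) * (z j / z i) ^ (e j) := by
  have h1 : lm (Function.update z j t) (L2 i j e) = lm z (L2 i j e) := by
    refine lm_congr fun l => ?_
    by_cases hl : l = j
    · right
      rw [hl, L2_apply, Pi.add_apply, Pi.sub_apply, Pi.single_eq_same,
        Pi.single_eq_of_ne (Ne.symm hij), sub_self, add_zero]
    · left
      rw [Function.update_of_ne hl]
  have h2 : lm z (L2 i j e) = lm z e * (z j ^ (e j))⁻¹ * z i ^ (e j) := by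
    rw [L2_apply, lm_add hz, sub_eq_add_neg, lm_add hz, lm_neg, lm_single, lm_single]
  rw [h1, h2, div_zpow]
  have h3 : z j ^ (e j) ≠ 0 := zpow_ne_zero _ (hz j)
  have h4 : z i ^ (e j) ≠ 0 := zpow_ne_zero _ (hz i)
  field_simp

theorem lm_L1 {z : Fin n → Ω} (hz : ∀ i, z i ≠ 0) {i j : Fin n} (hij : i ≠ j)
    (e : Fin n → ℤ) : lm z e = lm (Function.update z j (z j / z i)) (L1 i j e) := by
  have hz' : ∀ l, Function.update z j (z j / z i) l ≠ 0 := by
    intro l
    by_cases hl : l = j
    · rw [hl, Function.update_self]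
      exact div_ne_zero (hz j) (hz i)
    · rw [Function.update_of_ne hl]
      exact hz l
  have h1 : L1 i j e = L2 i j e + Pi.single j (e j) := by
    rw [L1_apply, L2_apply]
    abel
  rw [h1, lm_add hz', lm_single, Function.update_self]
  exact lm_L2 hz hij _ e

theorem zpow_mem' {O : Subring Ω} {y : Ω} (hy : y ∈ O) (hy' : y⁻¹ ∈ O) (m : ℤ) : y ^ m ∈ O := by
  rcases m with m | m
  · rw [Int.ofNat_eq_natCast, zpow_natCast]
    exact O.pow_mem hy m
  · rw [zpow_negSucc, ← inv_pow]
    exact O.pow_mem hy' _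

/-- One blowing up. -/
theorem step (h : Ctx0 k v) (hA : A.Finite) (hA0 : ∀ a ∈ A, v.Ge 0 a)
    (S : St v (algebraMap k Ω).range A T n) {i j : Fin n} (hi : i ∈ S.J) (hj : j ∈ S.J)
    (hij : i ≠ j) (hle : v (S.z i) ≤ v (S.z j)) :
    ∃ (S' : St v (algebraMap k Ω).range A T n) (L : (Fin n → ℤ) →+ (Fin n → ℤ)), Rf S S' L ∧
      ((S'.J = S.J ∧ ∀ e, L e = e + Pi.single i (e j)) ∨ S'.J.card < S.J.card) := by
  classical
  have hz := S.mod.par.ne
  have hy0 : v.Ge 0 (S.z j / S.z i) := by
    intro _
    rw [v.map_div (hz j) (hz i)]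
    linarith
  have hyne : S.z j / S.z i ≠ 0 := div_ne_zero (hz j) (hz i)
  obtain ⟨c, hc⟩ := h.residue hy0
  by_cases hc0 : c = 0
  · obtain ⟨S', h1, h2⟩ := mk_step (J' := S.J) (L := L1 i j) h hA hA0 S hi hij hle hc
      (by
        intro e he l hl
        have hli : l ≠ i := by
          rintro rfl
          exact hl hi
        rw [L1_apply, Pi.add_apply, he l hl, Pi.single_eq_of_ne hli, add_zero])
      (by
        intro e _
        refine ⟨1, Subring.one_mem _, one_ne_zero, v.map_one, ?_⟩
        rw [hc0, _root_.map_zero, sub_zero, mul_one]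
        exact lm_L1 hz hij e)
      (by
        intro e _ he l hl
        rw [L1_apply, Pi.add_apply]
        by_cases hli : l = i
        · rw [hli, Pi.single_eq_same]
          exact add_nonneg (he i hi) (he j hj)
        · rw [Pi.single_eq_of_ne hli, add_zero]
          exact he l hl)
      (by
        intro e _ he l hl
        rw [L1_apply, Pi.add_apply]
        by_cases hli : l = i
        · rw [hli, Pi.single_eq_same]
          exact add_pos (he i hi) (he j hj)
        · rw [Pi.single_eq_of_ne hli, add_zero]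
          exact he l hl)
    exact ⟨S', L1 i j, h2, Or.inl ⟨h1, fun e => rfl⟩⟩
  · have hvy : v (S.z j / S.z i) = 0 := by
      by_contra h1
      have h2 : VPos v (S.z j / S.z i) := fun h3 => lt_of_le_of_ne (hy0 h3) (Ne.symm h1)
      have h3 := VPos.sub h2 hc
      rw [sub_sub_cancel] at h3
      exact hc0 (h.const_eq_zero h3)
    have hyO : S.z j / S.z i ∈ lv v (adj S.O {S.z j / S.z i}) :=
      le_lv v _ (mem_adj (Set.mem_singleton _))
    obtain ⟨S', h1, h2⟩ := mk_step (J' := S.J.erase j) (L := L2 i j) h hA hA0 S hi hij hle hc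
      (by
        intro e he l hl
        by_cases hlj : l = j
        · rw [hlj, L2_apply, Pi.add_apply, Pi.sub_apply, Pi.single_eq_same,
            Pi.single_eq_of_ne (Ne.symm hij), sub_self, add_zero]
        · have hlJ : l ∉ S.J := fun hlJ => hl (Finset.mem_erase.2 ⟨hlj, hlJ⟩)
          have hli : l ≠ i := by
            rintro rfl
            exact hlJ hi
          rw [L2_apply, Pi.add_apply, Pi.sub_apply, he l hlJ, Pi.single_eq_of_ne hli,
            Pi.single_eq_of_ne hlj, sub_zero, add_zero])
      (by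
        intro e _
        refine ⟨(S.z j / S.z i) ^ (e j), zpow_mem' hyO (lv_inv hyO hyne hvy) _,
          zpow_ne_zero _ hyne, ?_, lm_L2 hz hij _ e⟩
        rw [v.map_zpow hyne, hvy, mul_zero])
      (by
        intro e _ he l hl
        obtain ⟨hlj, hlJ⟩ := Finset.mem_erase.1 hl
        rw [L2_apply, Pi.add_apply, Pi.sub_apply, Pi.single_eq_of_ne hlj, sub_zero]
        by_cases hli : l = i
        · rw [hli, Pi.single_eq_same]
          exact add_nonneg (he i hi) (he j hj)
        · rw [Pi.single_eq_of_ne hli, add_zero]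
          exact he l hlJ)
      (by
        intro e _ he l hl
        obtain ⟨hlj, hlJ⟩ := Finset.mem_erase.1 hl
        rw [L2_apply, Pi.add_apply, Pi.sub_apply, Pi.single_eq_of_ne hlj, sub_zero]
        by_cases hli : l = i
        · rw [hli, Pi.single_eq_same]
          exact add_pos (he i hi) (he j hj)
        · rw [Pi.single_eq_of_ne hli, add_zero]
          exact he l hlJ)
    refine ⟨S', L2 i j, h2, Or.inr ?_⟩
    rw [h1, Finset.card_erase_of_mem hj]
    have h3 := Finset.card_pos.2 ⟨j, hj⟩
    omega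

end Pool.Agent.TWI
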