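import Pool.Agent.Lib.TWI.I2f

/-!
# TANK W, row I2 (REF), part g: exponents of one sign
-/

set_option autoImplicit false

open Polynomial

namespace Pool.Agent.TWI

open Pool.Agent.H15JM (RVal)
open Pool.Agent.LU1 (VPos)
open Pool.Agent.D2 (Ctx0)
open Pool.Agent.LUC

universe u

variable {k Ω : Type u} [Field k] [Field Ω] [Algebra k Ω] {v : RVal Ω} {n : ℕ} {A T : Set Ω}

theorem enc_lt {n a b d a' b' d' : ℕ} (hb' : b' ≤ n) (hd' : d' ≤ n)
    (h : a' < a ∨ (a' = a ∧ b' < b) ∨ (a' = a ∧ b' ≤ b ∧ d' < d)) :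
    (a' * (n + 1) + b') * (n + 1) + d' < (a * (n + 1) + b) * (n + 1) + d := by
  have key : ∀ x y : ℕ, x < y → x * (n + 1) + n < y * (n + 1) := by
    intro x y hxy
    have h1 : (x + 1) * (n + 1) ≤ y * (n + 1) := Nat.mul_le_mul_right _ hxy
    rw [Nat.add_mul] at h1
    omega
  rcases h with h | ⟨rfl, h⟩ | ⟨rfl, h1, h2⟩
  · have h1 := key a' a h
    have h2 : a' * (n + 1) + b' < a * (n + 1) + b := by omega
    have h3 := key _ _ h2
    omega
  · have h2 : a' * (n + 1) + b' < a' * (n + 1) + b := by omega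
    have h3 := key _ _ h2
    omega
  · have h3 : (a' * (n + 1) + b') * (n + 1) ≤ (a' * (n + 1) + b) * (n + 1) :=
      Nat.mul_le_mul_right _ (by omega)
    omega

open Classical in
/-- The measure. -/
noncomputable def Phi (J : Finset (Fin n)) (e : Fin n → ℤ) (i : Fin n) : ℕ :=
  ((e i).natAbs * (n + 1) + (J.filter fun l => |e l| = |e i|).card) * (n + 1) +
    (J.filter fun l => e l * e i < 0).card

theorem card_le_n (J : Finset (Fin n)) : J.card ≤ n := by
  have h := Finset.card_le_univ J
  rwa [Fintype.card_fin] at h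

/-- The first case. -/
theorem phi_lt_one {J : Finset (Fin n)} {e : Fin n → ℤ} {i j i' : Fin n} (hi : i ∈ J)
    (hmax : ∀ l ∈ J, |e l| ≤ |e i|) (hj : j ∈ J) (hji : e j * e i < 0) (hi' : i' ∈ J) :
    Phi J (e + Pi.single i (e j)) i' < Phi J e i := by
  classical
  set e' : Fin n → ℤ := e + Pi.single i (e j) with he'
  have hei : e' i = e i + e j := by rw [he', Pi.add_apply, Pi.single_eq_same]
  have hel : ∀ l, l ≠ i → e' l = e l := fun l hl => by
    rw [he', Pi.add_apply, Pi.single_eq_of_ne hl, add_zero]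
  have hlt : |e' i| < |e i| := by
    rw [hei]
    have h1 := hmax j hj
    rcases lt_trichotomy (e i) 0 with h2 | h2 | h2
    · have h3 : 0 < e j := by
        by_contra h4
        exact absurd hji (not_lt.2 (mul_nonneg_of_nonpos_of_nonpos (not_lt.1 h4) h2.le))
      rw [abs_of_pos h3, abs_of_neg h2] at h1
      rw [abs_of_neg h2, abs_lt]
      constructor <;> linarith
    · rw [h2, mul_zero] at hji
      exact absurd hji (lt_irrefl _)
    · have h3 : e j < 0 := by
        by_contra h4
        exact absurd hji (not_lt.2 (mul_nonneg (not_lt.1 h4) h2.le))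
      rw [abs_of_neg h3, abs_of_pos h2] at h1
      rw [abs_of_pos h2, abs_lt]
      constructor <;> linarith
  have hmax' : ∀ l ∈ J, |e' l| ≤ |e i| := by
    intro l hl
    by_cases hli : l = i
    · rw [hli]
      exact hlt.le
    · rw [hel l hli]
      exact hmax l hl
  refine enc_lt (card_le_n _) (card_le_n _) ?_
  rcases (hmax' i' hi').lt_or_eq with h1 | h1
  · left
    zify
    exact h1
  · right
    left
    have h2 : (e' i').natAbs = (e i).natAbs := by
      zify
      exact h1
    refine ⟨h2, Finset.card_lt_card ?_⟩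
    rw [Finset.ssubset_iff_of_subset]
    · refine ⟨i, Finset.mem_filter.2 ⟨hi, rfl⟩, fun h3 => ?_⟩
      have h4 := (Finset.mem_filter.1 h3).2
      rw [h1] at h4
      exact absurd h4 hlt.ne
    · intro l hl
      obtain ⟨hlJ, h3⟩ := Finset.mem_filter.1 hl
      refine Finset.mem_filter.2 ⟨hlJ, ?_⟩
      have hli : l ≠ i := by
        rintro rfl
        rw [h1] at h3
        exact absurd h3 hlt.ne
      rw [hel l hli, h1] at h3
      exact h3

/-- The second case. -/
theorem phi_lt_two {J : Finset (Fin n)} {e : Fin n → ℤ} {i j : Fin n} 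
    (hmax : ∀ l ∈ J, |e l| ≤ |e i|) (hj : j ∈ J) (hji : e j * e i < 0) (hij : i ≠ j) :
    (∀ l ∈ J, |(e + Pi.single j (e i) : Fin n → ℤ) l| ≤ |(e + Pi.single j (e i) : Fin n → ℤ) i|) ∧
      Phi J (e + Pi.single j (e i)) i < Phi J e i := by
  classical
  set e' : Fin n → ℤ := e + Pi.single j (e i) with he'
  have hej : e' j = e j + e i := by rw [he', Pi.add_apply, Pi.single_eq_same]
  have hel : ∀ l, l ≠ j → e' l = e l := fun l hl => by
    rw [he', Pi.add_apply, Pi.single_eq_of_ne hl, add_zero]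
  have hei : e' i = e i := hel i hij
  have h1 := hmax j hj
  have hlt : |e' j| < |e i| ∧ 0 ≤ e' j * e i := by
    rw [hej]
    rcases lt_trichotomy (e i) 0 with h2 | h2 | h2
    · have h3 : 0 < e j := by
        by_contra h4
        exact absurd hji (not_lt.2 (mul_nonneg_of_nonpos_of_nonpos (not_lt.1 h4) h2.le))
      rw [abs_of_pos h3, abs_of_neg h2] at h1
      rw [abs_of_neg h2, abs_lt]
      refine ⟨⟨by linarith, by linarith⟩, mul_nonneg_of_nonpos_of_nonpos (by linarith) h2.le⟩
    · rw [h2, mul_zero] at hji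
      exact absurd hji (lt_irrefl _)
    · have h3 : e j < 0 := by
        by_contra h4
        exact absurd hji (not_lt.2 (mul_nonneg (not_lt.1 h4) h2.le))
      rw [abs_of_neg h3, abs_of_pos h2] at h1
      rw [abs_of_pos h2, abs_lt]
      exact ⟨⟨by linarith, by linarith⟩, mul_nonneg (by linarith) h2.le⟩
  refine ⟨fun l hl => ?_, enc_lt (card_le_n _) (card_le_n _) (Or.inr (Or.inr ?_))⟩
  · rw [hei]
    by_cases hlj : l = j
    · rw [hlj]
      exact hlt.1.le
    · rw [hel l hlj]
      exact hmax l hl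
  · refine ⟨by rw [hei], Finset.card_le_card ?_, Finset.card_lt_card ?_⟩
    · intro l hl
      obtain ⟨hlJ, h3⟩ := Finset.mem_filter.1 hl
      refine Finset.mem_filter.2 ⟨hlJ, ?_⟩
      rw [hei] at h3
      have hlj : l ≠ j := by
        rintro rfl
        exact absurd h3 hlt.1.ne
      rwa [hel l hlj] at h3
    · rw [Finset.ssubset_iff_of_subset]
      · refine ⟨j, Finset.mem_filter.2 ⟨hj, hji⟩, fun h3 => ?_⟩
        have h4 := (Finset.mem_filter.1 h3).2
        rw [hei] at h4
        exact absurd h4 (not_lt.2 hlt.2)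
      · intro l hl
        obtain ⟨hlJ, h3⟩ := Finset.mem_filter.1 hl
        refine Finset.mem_filter.2 ⟨hlJ, ?_⟩
        rw [hei] at h3
        have hlj : l ≠ j := by
          rintro rfl
          exact absurd h3 (not_lt.2 hlt.2)
        rwa [hel l hlj] at h3

/-- Claim A. -/
theorem claimA (h : Ctx0 k v) (hA : A.Finite) (hA0 : ∀ a ∈ A, v.Ge 0 a) :
    ∀ (c : ℕ) (S : St v (algebraMap k Ω).range A T n) (e : Fin n → ℤ), S.J.card = c →
      Spp S.J e → ∃ (S' : St v (algebraMap k Ω).range A T n)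
        (L : (Fin n → ℤ) →+ (Fin n → ℤ)), Rf S S' L ∧
        ((∀ i ∈ S'.J, 0 ≤ L e i) ∨ ∀ i ∈ S'.J, L e i ≤ 0) := by
  classical
  intro c
  induction c using Nat.strong_induction_on with
  | _ c ih =>
  have inner : ∀ (N : ℕ) (S : St v (algebraMap k Ω).range A T n) (e : Fin n → ℤ) (i : Fin n),
      S.J.card = c → Spp S.J e → i ∈ S.J → (∀ l ∈ S.J, |e l| ≤ |e i|) → Phi S.J e i = N →
      ∃ (S' : St v (algebraMap k Ω).range A T n)
        (L : (Fin n → ℤ) →+ (Fin n → ℤ)), Rf S S' L ∧
        ((∀ i ∈ S'.J, 0 ≤ L e i) ∨ ∀ i ∈ S'.J, L e i ≤ 0) := by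
    intro N
    induction N using Nat.strong_induction_on with
    | _ N ihN =>
    intro S e i hcard he hi hmax hN
    by_cases hopp : ∃ j ∈ S.J, e j * e i < 0
    · obtain ⟨j, hj, hji⟩ := hopp
      have hij : i ≠ j := by
        rintro rfl
        exact absurd hji (not_lt.2 (mul_self_nonneg _))
      rcases le_total (v (S.z i)) (v (S.z j)) with hle | hle
      · obtain ⟨S', L, hRf, ⟨hJ, hL⟩ | h1⟩ := step h hA hA0 S hi hj hij hle
        · obtain ⟨i', hi', hmax'⟩ := Finset.exists_max_image S'.J (fun l => |L e l|)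
            ⟨i, by rw [hJ]; exact hi⟩
          have h2 : Phi S'.J (L e) i' < N := by
            rw [← hN, hL, hJ]
            rw [hJ] at hi'
            exact phi_lt_one hi hmax hj hji hi'
          obtain ⟨S'', L', hRf', h3⟩ := ihN _ h2 S' (L e) i' (by rw [hJ]; exact hcard)
            (hRf.sup e he) hi' hmax' rfl
          exact ⟨S'', L'.comp L, hRf.trans hRf', h3⟩
        · obtain ⟨S'', L', hRf', h3⟩ := ih _ (by rw [← hcard]; exact h1) S' (L e) rfl
            (hRf.sup e he)
          exact ⟨S'', L'.comp L, hRf.trans hRf', h3⟩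
      · obtain ⟨S', L, hRf, ⟨hJ, hL⟩ | h1⟩ := step h hA hA0 S hj hi hij.symm hle
        · obtain ⟨hmax', h2⟩ := phi_lt_two hmax hj hji hij
          obtain ⟨S'', L', hRf', h3⟩ := ihN (Phi S'.J (L e) i) (by
            rw [← hN, hL, hJ]
            exact h2) S' (L e) i (by rw [hJ]; exact hcard) (hRf.sup e he)
            (by rw [hJ]; exact hi) (by rw [hJ, hL]; exact hmax') rfl
          exact ⟨S'', L'.comp L, hRf.trans hRf', h3⟩
        · obtain ⟨S'', L', hRf', h3⟩ := ih _ (by rw [← hcard]; exact h1) S' (L e) rfl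
            (hRf.sup e he)
          exact ⟨S'', L'.comp L, hRf.trans hRf', h3⟩
    · refine ⟨S, AddMonoidHom.id _, Rf.refl S, ?_⟩
      rcases lt_trichotomy (e i) 0 with h2 | h2 | h2
      · right
        intro l hl
        change e l ≤ 0
        by_contra h3
        exact hopp ⟨l, hl, mul_neg_of_pos_of_neg (not_le.1 h3) h2⟩
      · left
        intro l hl
        change 0 ≤ e l
        have h3 := hmax l hl
        rw [h2, abs_zero] at h3
        exact (abs_eq_zero.1 (le_antisymm h3 (abs_nonneg _))).ge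
      · left
        intro l hl
        change 0 ≤ e l
        by_contra h3
        exact hopp ⟨l, hl, mul_neg_of_neg_of_pos (not_le.1 h3) h2⟩
  intro S e hcard he
  by_cases hJ : S.J.Nonempty
  · obtain ⟨i, hi, hmax⟩ := Finset.exists_max_image S.J (fun l => |e l|) hJ
    exact inner _ S e i hcard he hi hmax rfl
  · refine ⟨S, AddMonoidHom.id _, Rf.refl S, Or.inl fun i hi => ?_⟩
    exact absurd ⟨i, hi⟩ hJ

end Pool.Agent.TWI
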