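import Pool.Agent.Lib.TA.Basis
import Mathlib.Topology.Instances.AddCircle.DenseSubgroup
import Mathlib.LinearAlgebra.Complex.FiniteDimensional

/-!
# TANK W, I3 (the irrational trick), part c: irrational radii, dense groups of values
-/

set_option autoImplicit false

namespace Pool.Agent.TWI

open Pool.Agent.H15JM (RVal)

universe u

variable {k Ω : Type u} [Field k] [Field Ω] [Algebra k Ω] {v : RVal Ω}

/-- There are radii `b` which are not rational multiples of values. -/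
theorem exists_irr_radius (htriv : ∀ c : k, c ≠ 0 → v (algebraMap k Ω c) = 0) {N : ℕ}
    (hN : Algebra.trdeg k Ω ≤ (N : Cardinal)) {lo hi : ℝ} (hlt : lo < hi) :
    ∃ b : ℝ, lo < b ∧ b < hi ∧ ∀ (m : ℤ) (f : Ω), m ≠ 0 → f ≠ 0 → v f ≠ m * b := by
  by_contra hcon
  push Not at hcon
  -- all the reals are rational multiples of values
  have hall : ∀ x : ℝ, ∃ (m : ℤ) (f : Ω), m ≠ 0 ∧ f ≠ 0 ∧ v f = m * x := by
    intro x
    rcases eq_or_ne x 0 with rfl | hx
    · exact ⟨1, 1, one_ne_zero, one_ne_zero, by rw [v.map_one, mul_zero]⟩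
    -- a rational `q ≠ 0` with `q x` in the interval
    obtain ⟨lo', hi', h1, h2, h3, h4⟩ : ∃ lo' hi' : ℝ, lo ≤ lo' ∧ hi' ≤ hi ∧ lo' < hi' ∧
        (∀ y, lo' < y → y < hi' → y ≠ 0) := by
      rcases lt_or_ge lo 0 with h | h
      · exact ⟨lo, min hi 0, le_rfl, min_le_left _ _, lt_min hlt h,
          fun y _ hy => (hy.trans_le (min_le_right _ _)).ne⟩
      · exact ⟨lo, hi, le_rfl, le_rfl, hlt, fun y hy _ => (h.trans_lt hy).ne'⟩
    obtain ⟨q, hq1, hq2⟩ : ∃ q : ℚ, lo' < q * x ∧ q * x < hi' := by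
      rcases lt_or_gt_of_ne hx with hx | hx
      · obtain ⟨q, hq1, hq2⟩ := exists_rat_btwn (div_lt_div_of_neg_of_lt hx h3)
        exact ⟨q, by rwa [lt_div_iff_of_neg hx] at hq2, by rwa [div_lt_iff_of_neg hx] at hq1⟩
      · obtain ⟨q, hq1, hq2⟩ := exists_rat_btwn (div_lt_div_of_pos_right h3 hx)
        exact ⟨q, by rwa [div_lt_iff₀ hx] at hq1, by rwa [lt_div_iff₀ hx] at hq2⟩
    have hq0 : q ≠ 0 := by
      rintro rfl
      exact h4 _ hq1 hq2 (by simp)
    obtain ⟨m, f, hm, hf, hv⟩ := hcon (q * x) (h1.trans_lt hq1) (hq2.trans_le h2)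
    refine ⟨m * q.num, f ^ q.den, mul_ne_zero hm (Rat.num_ne_zero.2 hq0), pow_ne_zero _ hf, ?_⟩
    rw [v.map_pow hf, hv]
    have h5 : (q.den : ℝ) * (q : ℝ) = (q.num : ℝ) := by
      have : (q.den : ℚ) * q = q.num := by rw [mul_comm]; exact Rat.mul_den_eq_num q
      exact_mod_cast this
    push_cast
    rw [← h5]
    ring
  -- `N + 1` independent reals
  have hrank : ((N + 1 : ℕ) : Cardinal) ≤ Module.rank ℚ ℝ := by
    rw [Real.rank_rat_real]
    exact Cardinal.nat_lt_continuum _ |>.le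
  obtain ⟨x, hx⟩ := Module.le_rank_iff.1 hrank
  choose m f hm hf hv using fun i => hall (x i)
  have hind : LinearIndependent ℚ fun i => v (f i) := by
    have h1 : (fun i => v (f i)) = fun i => ((Units.mk0 (m i : ℚ) (by exact_mod_cast hm i)) •
        x i) := by
      funext i
      rw [hv i, Units.smul_def, Units.val_mk0, Rat.smul_def]
      push_cast
      ring
    rw [h1]
    exact hx.units_smul fun i => Units.mk0 (m i : ℚ) (by exact_mod_cast hm i)
  have h2 := (TA.algInd_of_val htriv hf hind).lift_cardinalMk_le_trdeg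
  rw [Cardinal.mk_fin, Cardinal.lift_natCast, Cardinal.lift_uzero] at h2
  have h3 := h2.trans hN
  have h4 : N + 1 ≤ N := by exact_mod_cast h3
  omega

/-- Two independent values generate a dense group. -/
theorem exists_combo {c₁ c₂ : Ω} (h₁ : c₁ ≠ 0) (h₂ : c₂ ≠ 0)
    (hind : LinearIndependent ℚ ![v c₁, v c₂]) {lo hi : ℝ} (hlt : lo < hi) :
    ∃ m₁ m₂ : ℤ, lo < v (c₁ ^ m₁ * c₂ ^ m₂) ∧ v (c₁ ^ m₁ * c₂ ^ m₂) < hi := by
  have hv2 : v c₂ ≠ 0 := by
    have := hind.ne_zero (1 : Fin 2)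
    simpa using this
  have hirr : Irrational (v c₁ / v c₂) := by
    rintro ⟨q, hq⟩
    have h1 : v c₁ = q * v c₂ := by rw [hq, div_mul_cancel₀ _ hv2]
    rw [LinearIndependent.pair_iff] at hind
    have h2 := hind 1 (-q) (by rw [one_smul, neg_smul, Rat.smul_def, h1]; ring)
    exact one_ne_zero h2.1
  have hd := dense_addSubgroupClosure_pair_iff.2 hirr
  obtain ⟨x, hx, hx1, hx2⟩ := hd.exists_between hlt
  obtain ⟨m₁, m₂, hm⟩ := AddSubgroup.mem_closure_pair.1 hx
  refine ⟨m₁, m₂, ?_⟩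
  have h3 : v (c₁ ^ m₁ * c₂ ^ m₂) = x := by
    rw [v.map_mul (zpow_ne_zero _ h₁) (zpow_ne_zero _ h₂), v.map_zpow h₁, v.map_zpow h₂, ← hm,
      zsmul_eq_mul, zsmul_eq_mul]
  rw [h3]
  exact ⟨hx1, hx2⟩

/-- A finitely generated field with one more element, up to algebraic elements. -/
theorem trdeg_le_of_fg {L : IntermediateField k Ω} (hL : L.FG) {z : Ω}
    (hΩ : ∀ g : Ω, IsAlgebraic (LU1.adj L z) g) : ∃ N : ℕ, Algebra.trdeg k Ω ≤ (N : Cardinal) := by
  classical
  obtain ⟨S, hS⟩ := hL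
  have h1 : LU1.adj L z = IntermediateField.adjoin k ((insert z S : Finset Ω) : Set Ω) := by
    rw [LU1.adj, ← hS, ← IntermediateField.adjoin_union, Set.union_singleton, Finset.coe_insert]
  have halg : Algebra.IsAlgebraic (Algebra.adjoin k ((insert z S : Finset Ω) : Set Ω)) Ω := by
    constructor
    intro x
    rw [← IntermediateField.isAlgebraic_adjoin_iff, ← h1]
    exact hΩ x
  have h2 := Algebra.IsAlgebraic.trdeg_le_cardinalMk k ((insert z S : Finset Ω) : Set Ω)
  refine ⟨(insert z S).card, h2.trans ?_⟩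
  simp

end Pool.Agent.TWI
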