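import Pool.Agent.Lib.TWI.I3b
import Pool.Agent.Lib.TWI.I3c
import Pool.Agent.Lib.TWN.WTa
import Pool.Agent.Lib.TWN.GWs

/-!
# TANK W, I3: the irrational trick
-/

set_option autoImplicit false

open Polynomial

namespace Pool.Agent.TWI

open Pool.Agent.H15JM (RVal)
open Pool.Agent.LU1 (VPos adj)
open Pool.Agent.LUC (LUs QuoIs)
open Pool.Agent.D2 (Ctx0)
open Pool.Agent.TW (LimAlg exists_shift)
open Pool.Agent.TWT (cm cm_apply Dom vpos_hasse)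

universe u

variable {k Ω : Type u} [Field k] [Field Ω] [Algebra k Ω] {v : RVal Ω}

open TW.WTa in
/-- The irrational trick, from the monomial valuations of irrational radius and the toric
refinement. -/
theorem lus_of_irr_of [IsAlgClosed k] [IsAlgClosed Ω] (h : Ctx0 k v) {L : IntermediateField k Ω}
    (hL : L.FG) {c₁ c₂ : Ω} (hc₁ : c₁ ∈ L) (hc₂ : c₂ ∈ L) (h₁ : c₁ ≠ 0) (h₂ : c₂ ≠ 0)
    (hind : LinearIndependent ℚ ![v c₁, v c₂]) {z : Ω} (hz : Transcendental L z)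
    (hΩ : ∀ g : Ω, IsAlgebraic (adj L z) g) (hlim : LimAlg v L z)
    (hRef : ∀ V : RVal Ω, Ctx0 k V → Ref V (algebraMap k Ω).range)
    (hirr : ∀ {z α : Ω} {b : ℝ}, Transcendental L z → IsAlgebraic L α → b < v (z - α) →
      (∀ (m : ℤ) (f : Ω), m ≠ 0 → f ≠ 0 → v f ≠ m * b) → (∀ g : Ω, IsAlgebraic (adj L z) g) →
      ∃ W : RVal Ω, Ctx0 k W ∧ (∀ f, f ≠ 0 → IsAlgebraic L f → W f = v f) ∧
        (∀ β : Ω, IsAlgebraic L β → v (z - β) < b → W (z - β) = v (z - β)) ∧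
        W (z - α) = b ∧
        ∀ S : Finset Ω, (∀ f ∈ S, f ∈ adj L z ∧ f ≠ 0) → ∃ ε > 0, ∀ c ∈ L, c ≠ 0 →
          |v c - b| < ε → ∀ Φ : Ω ≃ₐ[L] Ω, Φ z = z + c → (∀ β, IsAlgebraic L β → Φ β = β) →
            ∀ f ∈ S, (0 < W f → 0 < v (Φ f)) ∧ (W f = 0 → v (Φ f) = 0))
    (hW : ∀ (W : RVal Ω) (α : Ω), Ctx0 k W → (∀ f, f ≠ 0 → IsAlgebraic L f → W f = v f) →
      IsAlgebraic L α → (∀ (m : ℤ) (f : Ω), m ≠ 0 → f ≠ 0 → IsAlgebraic L f →
        v f ≠ m * W (z - α)) →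
      LUs W (algebraMap k Ω).range (adj L z).toSubfield) :
    LUs v (algebraMap k Ω).range (adj L z).toSubfield := by
  classical
  obtain ⟨A1, hA1, hq1⟩ := exists_gens v hL
  have hz0 : z ≠ 0 := by
    rintro rfl
    exact hz (isAlgebraic_zero)
  -- `z' = d z` has value `≥ 0`
  obtain ⟨d, hd, hd0, hdv⟩ : ∃ d ∈ L, d ≠ 0 ∧ 0 ≤ v (d * z) := by
    obtain ⟨m₁, m₂, h3, -⟩ := exists_combo h₁ h₂ hind (lo := -v z) (hi := -v z + 1) (by linarith)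
    have h4 : c₁ ^ m₁ * c₂ ^ m₂ ≠ 0 := mul_ne_zero (zpow_ne_zero _ h₁) (zpow_ne_zero _ h₂)
    refine ⟨c₁ ^ m₁ * c₂ ^ m₂, mul_mem (zpow_mem hc₁ _) (zpow_mem hc₂ _), h4, ?_⟩
    rw [v.map_mul h4 hz0]
    linarith
  have hz'tr := transcendental_smul hz hd hd0
  have hadj := adj_smul (z := z) hd hd0
  have hΩ' : ∀ g : Ω, IsAlgebraic (adj L (d * z)) g := by rw [hadj]; exact hΩ
  have hz'0 : d * z ≠ 0 := mul_ne_zero hd0 hz0
  rw [← hadj]
  rw [← hadj] at hW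
  obtain ⟨z', hz'⟩ : ∃ z' : Ω, z' = d * z := ⟨_, rfl⟩
  have hz'd : z' = d * z := hz'
  rw [← hz'] at hdv hz'tr hΩ' hz'0 hW ⊢
  refine lus_of_trans_irr h (fun c => L.algebraMap_mem c) ?_ (LU1.mem_adj_self L z')
    (fun _ => hdv) (fun f hf hf0 => exists_frac hf hf0) A1 hA1 hq1 hRef hc₁ hc₂ h₁ h₂ ?_
  · intro x hx
    exact LU1.mem_adj_left hx
  intro S hS
  obtain ⟨RS, hRS⟩ : ∃ RS : Finset Ω, RS = insert 0 (S.biUnion fun P => P.roots.toFinset) :=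
    ⟨_, rfl⟩
  have hRSalg : ∀ β ∈ RS, IsAlgebraic L β := by
    intro β hβ
    rw [hRS, Finset.mem_insert, Finset.mem_biUnion] at hβ
    rcases hβ with rfl | ⟨P, hP, hβ⟩
    · exact isAlgebraic_zero
    · rw [Multiset.mem_toFinset] at hβ
      exact root_alg (hS P hP).1 (Polynomial.ne_zero_of_mem_roots hβ)
        (Polynomial.isRoot_of_mem_roots hβ)
  have h0RS : (0 : Ω) ∈ RS := by rw [hRS]; exact Finset.mem_insert_self _ _
  have halg : ∀ f ∈ L, IsAlgebraic L f := fun f hf => isAlgebraic_algebraMap (⟨f, hf⟩ : L)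
  have hdalg : IsAlgebraic L d := halg d hd
  have hzne : ∀ β : Ω, IsAlgebraic L β → z' - β ≠ 0 := by
    intro β hβ h0
    apply hz'tr
    rw [sub_eq_zero.1 h0]
    exact hβ
  have hzne' : ∀ β : Ω, IsAlgebraic L β → z - β ≠ 0 := by
    intro β hβ h0
    apply hz
    rw [sub_eq_zero.1 h0]
    exact hβ
  -- the radius
  obtain ⟨C, hC⟩ : ∃ C : ℝ, ∀ β ∈ RS, v (z' - β) ≤ C := by
    obtain ⟨C, hC⟩ := (RS.image fun β => v (z' - β)).bddAbove
    exact ⟨C, fun β hβ => hC (Finset.mem_coe.2 (Finset.mem_image_of_mem _ hβ))⟩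
  have hC0 : 0 ≤ C := by
    have h3 := hC 0 h0RS
    rw [sub_zero] at h3
    linarith
  obtain ⟨N, hN⟩ := trdeg_le_of_fg hL hΩ
  obtain ⟨b, hb1, hb2, hb⟩ := exists_irr_radius h.triv hN (lo := C) (hi := C + 1) (by linarith)
  obtain ⟨α, hα, hαv⟩ := hlim (C + 1 - v d)
  have hαv' : b < v (z' - d * α) := by
    have h3 := hαv (hzne' α hα)
    have h4 : z' - d * α = d * (z - α) := by rw [hz'd]; ring
    rw [h4, v.map_mul hd0 (hzne' α hα)]
    linarith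
  obtain ⟨W, hWc, hWL, hWβ, hWα, hcont⟩ := hirr hz'tr (hdalg.mul hα) hαv' hb hΩ'
  have hWL' : ∀ x ∈ L.toSubfield, x ≠ 0 → W x = v x := fun x hx hx0 =>
    hWL x hx0 (halg x hx)
  obtain ⟨l₁, l₂, hl1, hl2⟩ := exists_combo h₁ h₂ hind hb1
  obtain ⟨c₀, hc₀⟩ : ∃ c₀ : Ω, c₀ = c₁ ^ l₁ * c₂ ^ l₂ := ⟨_, rfl⟩
  rw [← hc₀] at hl1 hl2
  have hc₀L : c₀ ∈ L := by rw [hc₀]; exact mul_mem (zpow_mem hc₁ _) (zpow_mem hc₂ _)
  have hc₀0 : c₀ ≠ 0 := by rw [hc₀]; exact mul_ne_zero (zpow_ne_zero _ h₁) (zpow_ne_zero _ h₂)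
  have hlow : ∀ β ∈ RS, v (z' - β) < v c₀ := fun β hβ => (hC β hβ).trans_lt hl1
  have hz'W : W z' = v z' := by
    have h3 := hWβ 0 isAlgebraic_zero ((hlow 0 h0RS).trans hl2)
    rwa [sub_zero] at h3
  refine ⟨W, c₀, hc₀L, hc₀0, hC0.trans hl1.le, hWL', ?_, ?_, ?_, ?_⟩
  · intro _
    rw [hz'W]
    exact hdv
  · -- the chart for `W`
    refine hW W α hWc hWL hα fun m f hm hf hfL hcon => ?_
    have h3 : W (z' - d * α) = v d + W (z - α) := by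
      have h4 : z' - d * α = d * (z - α) := by rw [hz'd]; ring
      rw [h4, W.map_mul hd0 (hzne' α hα), hWL' d hd hd0]
    rw [hWα] at h3
    refine hb m (f * d ^ m) hm (mul_ne_zero hf (zpow_ne_zero _ hd0)) ?_
    rw [v.map_mul hf (zpow_ne_zero _ hd0), v.map_zpow hd0, hcon, h3]
    ring
  · -- the errors
    intro P hP j hj
    refine vpos_hasse P.roots (a := P.leadingCoeff) ?_ (hS P hP).2 ?_ j hj
    · exact (IsAlgClosed.splits P).eq_prod_roots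
    · intro β hβ
      have hβRS : β ∈ RS := by
        rw [hRS, Finset.mem_insert, Finset.mem_biUnion]
        exact Or.inr ⟨P, hP, Multiset.mem_toFinset.2 hβ⟩
      intro _
      rw [W.map_div hc₀0 (hzne β (hRSalg β hβRS)), hWL' c₀ hc₀L hc₀0,
        hWβ β (hRSalg β hβRS) ((hlow β hβRS).trans hl2)]
      have := hlow β hβRS
      linarith
  · intro U hU
    obtain ⟨ε, hε, hcont⟩ := hcont (U.filter fun f => f ≠ 0) (fun f hf => by
      rw [Finset.mem_filter] at hf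
      exact ⟨hU f hf.1, hf.2⟩)
    obtain ⟨m₁, m₂, hm1, hm2⟩ := exists_combo h₁ h₂ hind (max_lt hl2 (sub_lt_self b hε))
    obtain ⟨c, hc⟩ : ∃ c : Ω, c = c₁ ^ m₁ * c₂ ^ m₂ := ⟨_, rfl⟩
    rw [← hc] at hm1 hm2
    have hcL : c ∈ L := by rw [hc]; exact mul_mem (zpow_mem hc₁ _) (zpow_mem hc₂ _)
    have hc0 : c ≠ 0 := by rw [hc]; exact mul_ne_zero (zpow_ne_zero _ h₁) (zpow_ne_zero _ h₂)
    obtain ⟨Φ, hΦz, hΦa⟩ := exists_shift (k := k) hz'tr hcL hΩ'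
    have hΦ1 : Φ 1 z' = z' + c := by rw [hΦz, _root_.map_one, one_mul]
    have h5 := hcont c hcL hc0 (by
      rw [abs_lt]
      constructor
      · have := (le_max_right _ _).trans_lt hm1
        linarith
      · linarith) (Φ 1) hΦ1 (hΦa 1)
    refine ⟨m₁, m₂, (Φ 1).toRingEquiv, fun x hx => (Φ 1).commutes (⟨x, hx⟩ : L), ?_, ?_, ?_⟩
    · rw [← hc]
      exact hΦ1
    · rw [← hc]
      exact (le_max_left _ _).trans hm1.le
    · intro f hf hf0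
      have h6 := h5 f (Finset.mem_filter.2 ⟨hf, hf0⟩)
      exact ⟨h6.2, h6.1⟩

end Pool.Agent.TWI
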