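import Pool.Agent.Lib.TWI.I1
import Pool.Agent.Lib.TWI.I2
import Pool.Agent.Lib.TWI.I3d

/-!
# TANK W, I3: the irrational trick
-/

set_option autoImplicit false

open Polynomial

namespace Pool.Agent.TW

open Pool.Agent.H15JM (RVal)
open Pool.Agent.LU1 (VPos adj)
open Pool.Agent.LUC (Cl LUs IsMod Par SM QuoIs lv)
open Pool.Agent.D2 (Ctx0)
open Pool.Agent.D2P (hen)

universe u

variable {k Ω : Type u} [Field k] [Field Ω] [Algebra k Ω] {v : RVal Ω}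

/-- ROW I3 = IT.  The irrational trick. -/
theorem lus_of_irr [IsAlgClosed k] [IsAlgClosed Ω] (h : Ctx0 k v) {L : IntermediateField k Ω}
    (hL : L.FG) {c₁ c₂ : Ω} (hc₁ : c₁ ∈ L) (hc₂ : c₂ ∈ L) (h₁ : c₁ ≠ 0) (h₂ : c₂ ≠ 0)
    (hind : LinearIndependent ℚ ![v c₁, v c₂]) {z : Ω} (hz : Transcendental L z)
    (hΩ : ∀ g : Ω, IsAlgebraic (adj L z) g) (hlim : LimAlg v L z)
    (hW : ∀ (W : RVal Ω) (α : Ω), Ctx0 k W → (∀ f, f ≠ 0 → IsAlgebraic L f → W f = v f) →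
      IsAlgebraic L α → (∀ (m : ℤ) (f : Ω), m ≠ 0 → f ≠ 0 → IsAlgebraic L f → v f ≠ m * W (z - α)) →
      LUs W (algebraMap k Ω).range (adj L z).toSubfield) :
    LUs v (algebraMap k Ω).range (adj L z).toSubfield := by
  have hc : v c₁ ≠ 0 := hind.ne_zero 0
  have hpos : ∃ a ∈ L, a ≠ 0 ∧ 0 < v a := by
    rcases hc.lt_or_gt with h0 | h0
    · exact ⟨c₁⁻¹, inv_mem hc₁, inv_ne_zero h₁, by rw [v.map_inv h₁]; linarith⟩
    · exact ⟨c₁, hc₁, h₁, h0⟩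
  refine TWI.lus_of_irr_of h hL hc₁ hc₂ h₁ h₂ hind hz hΩ hlim (fun V hV => ?_)
    (fun {z α b} hz hα hlt hb hΩ => exists_irr h hpos hz hα hlt hb hΩ) hW
  intro A T n z J O hA hA0 hM hdim M hMJ
  exact exists_refine hV hA hA0 hM hdim M hMJ

end Pool.Agent.TW
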