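import Pool.Agent.Lib.TWI.I3a

/-!
# TANK W, I3 (the irrational trick), part b: translation by `c₁ ^ m₁ c₂ ^ m₂`, with a toric refinement
-/

set_option autoImplicit false

open Polynomial

namespace Pool.Agent.TWI

open Pool.Agent.H15JM (RVal)
open Pool.Agent.LU1 (VPos val_add_vpos)
open Pool.Agent.D2 (Ctx0)
open Pool.Agent.TWT
open Pool.Agent.LUC

universe u

variable {Ω : Type u} [Field Ω]

/-- **Translation**, by `c = c₁ ^ m₁ c₂ ^ m₂`, near to the valuation `w`. -/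
theorem lus_of_trans_irr {k : Type u} [Field k] [PerfectField k] [Algebra k Ω] {v : RVal Ω}
    (h : Ctx0 k v) {L K : Subfield Ω}
    (hkL : ∀ c : k, algebraMap k Ω c ∈ L) (hLK : L ≤ K) {z : Ω} (hzK : z ∈ K) (hzv : v.Ge 0 z)
    (hKz : ∀ f ∈ K, f ≠ 0 → ∃ P Q : Polynomial Ω, (∀ i, P.coeff i ∈ L) ∧ (∀ i, Q.coeff i ∈ L) ∧
      P.eval z ≠ 0 ∧ Q.eval z ≠ 0 ∧ f = P.eval z / Q.eval z)
    (A1 : Finset Ω) (hA1 : ∀ a ∈ A1, v.Ge 0 a)
    (hq1 : QuoIs (adj (algebraMap k Ω).range (A1 : Set Ω)) L)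
    (hRef : ∀ V : RVal Ω, Ctx0 k V → Ref V (algebraMap k Ω).range)
    {c₁ c₂ : Ω} (hc₁ : c₁ ∈ L) (hc₂ : c₂ ∈ L) (h₁ : c₁ ≠ 0) (h₂ : c₂ ≠ 0)
    (H : ∀ S : Finset (Polynomial Ω), (∀ P ∈ S, (∀ i, P.coeff i ∈ L) ∧ P.eval z ≠ 0) →
      ∃ (w : RVal Ω) (c₀ : Ω), c₀ ∈ L ∧ c₀ ≠ 0 ∧ 0 ≤ v c₀ ∧ (∀ x ∈ L, x ≠ 0 → w x = v x) ∧
        w.Ge 0 z ∧ LUs w (algebraMap k Ω).range K ∧
        (∀ P ∈ S, ∀ j : ℕ, 1 ≤ j → VPos w ((hasseDeriv j P).eval z * c₀ ^ j / P.eval z)) ∧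
        ∀ U : Finset Ω, (∀ f ∈ U, f ∈ K) → ∃ (m₁ m₂ : ℤ) (φ : Ω ≃+* Ω), (∀ x ∈ L, φ x = x) ∧
          φ z = z + c₁ ^ m₁ * c₂ ^ m₂ ∧ v c₀ ≤ v (c₁ ^ m₁ * c₂ ^ m₂) ∧
          Dom w (cm v φ) (U : Set Ω)) :
    LUs v (algebraMap k Ω).range K := by
  classical
  have hk : ∀ c : k, c ≠ 0 → v (algebraMap k Ω c) = 0 := h.triv
  intro A hA hq T hT
  have hRL : ∀ x ∈ (algebraMap k Ω).range, x ∈ L := by
    rintro _ ⟨a, rfl⟩
    exact hkL a
  have hA1L : ∀ a ∈ A1, a ∈ L := fun a ha => hq1.1 a (mem_adj ha)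
  have hAK : ∀ a ∈ A, a ∈ K := fun a ha => hq.1 a (mem_adj ha)
  -- numerators and denominators of `c₁`, `c₂`
  obtain ⟨p₁, hp₁, q₁, hq₁, hq₁0, hc₁e⟩ := hq1.2 c₁ hc₁
  obtain ⟨p₂, hp₂, q₂, hq₂, hq₂0, hc₂e⟩ := hq1.2 c₂ hc₂
  have hp₁0 : p₁ ≠ 0 := by rintro rfl; exact h₁ (by rw [hc₁e, zero_div])
  have hp₂0 : p₂ ≠ 0 := by rintro rfl; exact h₂ (by rw [hc₂e, zero_div])
  -- denominators of the generators
  have hgenK : ∀ b ∈ insert z A1, b ∈ K := by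
    intro b hb
    rcases Finset.mem_insert.1 hb with rfl | hb
    · exact hzK
    · exact hLK (hA1L b hb)
  have hβ0 : ∀ b : Ω, ∃ β : Ω, b ∈ insert z A1 → β ∈ adj (algebraMap k Ω).range (A : Set Ω) ∧
      β ≠ 0 ∧ ∃ α ∈ adj (algebraMap k Ω).range (A : Set Ω), b = α / β := by
    intro b
    by_cases hb : b ∈ insert z A1
    · obtain ⟨α, hα, β, hβ, hβ0, h1⟩ := hq.2 b (hgenK b hb)
      exact ⟨β, fun _ => ⟨hβ, hβ0, α, hα, h1⟩⟩
    · exact ⟨0, fun h => absurd h hb⟩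
  choose β hβ using hβ0
  obtain ⟨T0, hT0⟩ : ∃ T0 : Finset Ω, T0 = T ∪ A.filter (fun a => a ≠ 0) ∪
      (insert z A1).image β := ⟨_, rfl⟩
  have hT0K : ∀ t ∈ T0, t ∈ K ∧ t ≠ 0 := by
    intro t ht
    rw [hT0, Finset.mem_union, Finset.mem_union, Finset.mem_filter, Finset.mem_image] at ht
    rcases ht with (ht | ⟨ht, ht0⟩) | ⟨b, hb, rfl⟩
    · exact hT t ht
    · exact ⟨hAK t ht, ht0⟩
    · exact ⟨hq.1 _ (hβ b hb).1, (hβ b hb).2.1⟩
  -- polynomials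
  have hPQ : ∀ t : Ω, ∃ P Q : Polynomial Ω, t ∈ T0 → (∀ i, P.coeff i ∈ L) ∧
      (∀ i, Q.coeff i ∈ L) ∧ P.eval z ≠ 0 ∧ Q.eval z ≠ 0 ∧ t = P.eval z / Q.eval z := by
    intro t
    by_cases ht : t ∈ T0
    · obtain ⟨P, Q, h⟩ := hKz t (hT0K t ht).1 (hT0K t ht).2
      exact ⟨P, Q, fun _ => h⟩
    · exact ⟨0, 0, fun h => absurd h ht⟩
  choose P Q hPQ using hPQ
  obtain ⟨S0, hS0⟩ : ∃ S0 : Finset (Polynomial Ω), S0 = T0.image P ∪ T0.image Q := ⟨_, rfl⟩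
  have hS0L : ∀ p ∈ S0, (∀ i, p.coeff i ∈ L) ∧ p.eval z ≠ 0 := by
    intro p hp
    rw [hS0, Finset.mem_union, Finset.mem_image, Finset.mem_image] at hp
    rcases hp with ⟨t, ht, rfl⟩ | ⟨t, ht, rfl⟩
    · exact ⟨(hPQ t ht).1, (hPQ t ht).2.2.1⟩
    · exact ⟨(hPQ t ht).2.1, (hPQ t ht).2.2.2.1⟩
  have hev : ∀ p : Polynomial Ω, (∀ i, p.coeff i ∈ L) → p.eval z ∈ K := by
    intro p hp
    rw [Polynomial.eval_eq_sum_range]
    exact K.sum_mem fun i _ => K.mul_mem (hLK (hp i)) (K.pow_mem hzK i)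
  have hevj : ∀ p : Polynomial Ω, (∀ i, p.coeff i ∈ L) → ∀ j, (hasseDeriv j p).eval z ∈ K := by
    intro p hp j
    refine hev _ fun i => ?_
    rw [hasseDeriv_coeff]
    exact L.mul_mem (natCast_mem L _) (hp _)
  obtain ⟨w, c₀, hc₀L, hc₀0, hc₀v, hwL, hwz, hLU, hWE, hU⟩ := H S0 hS0L
  -- the valuation `w` on `L`
  have hwge : ∀ x ∈ L, v.Ge 0 x → w.Ge 0 x := by
    intro x hx hx0 h0
    rw [hwL x hx h0]
    exact hx0 h0
  have hkw : ∀ a : k, a ≠ 0 → w (algebraMap k Ω a) = 0 := by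
    intro a ha
    rw [hwL _ (hkL a) ((_root_.map_ne_zero _).2 ha)]
    exact hk a ha
  -- the model
  obtain ⟨A0, hA0⟩ : ∃ A0 : Finset Ω, A0 = insert z A1 := ⟨_, rfl⟩
  have hA0K : ∀ a ∈ A0, a ∈ K := by
    intro a ha
    rw [hA0] at ha
    exact hgenK a ha
  have hA0w : ∀ a ∈ A0, w.Ge 0 a := by
    intro a ha
    rw [hA0, Finset.mem_insert] at ha
    rcases ha with rfl | ha
    · exact hwz
    · exact hwge a (hA1L a ha) (hA1 a ha)
  have hzA0 : z ∈ adj (algebraMap k Ω).range (A0 : Set Ω) := mem_adj (by rw [hA0]; simp)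
  have hA1A0 : adj (algebraMap k Ω).range (A1 : Set Ω) ≤ adj (algebraMap k Ω).range (A0 : Set Ω) :=
    adj_mono le_rfl (by
      intro a ha
      rw [hA0]
      simp only [Finset.coe_insert, Set.mem_insert_iff]
      exact Or.inr ha)
  have hqA0 : QuoIs (adj (algebraMap k Ω).range (A0 : Set Ω)) K := by
    refine quoIs_of_closure ?_ ?_
    · intro f hf
      exact adj_induction (p := fun f => f ∈ K) (fun x hx => hLK (hRL x hx)) hA0K
        (fun _ _ => K.add_mem) (fun _ _ => K.mul_mem) hf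
    · intro f hf
      by_cases h0 : f = 0
      · rw [h0]
        exact Subfield.zero_mem _
      obtain ⟨p, q, hp, hq', -, -, rfl⟩ := hKz f hf h0
      have hLc : ∀ x ∈ L, x ∈ Subfield.closure
          ((adj (algebraMap k Ω).range (A0 : Set Ω) : Subring Ω) : Set Ω) := by
        intro x hx
        obtain ⟨a, ha, b, hb, -, rfl⟩ := hq1.2 x hx
        exact Subfield.div_mem _ (Subfield.subset_closure (hA1A0 ha))
          (Subfield.subset_closure (hA1A0 hb))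
      have hev : ∀ p : Polynomial Ω, (∀ i, p.coeff i ∈ L) → p.eval z ∈ Subfield.closure
          ((adj (algebraMap k Ω).range (A0 : Set Ω) : Subring Ω) : Set Ω) := by
        intro p hp
        rw [Polynomial.eval_eq_sum_range]
        exact Subfield.sum_mem _ fun i _ => Subfield.mul_mem _ (hLc _ (hp i))
          (Subfield.pow_mem _ (Subfield.subset_closure hzA0) i)
      exact Subfield.div_mem _ (hev p hp) (hev q hq')
  -- the elements which have to be monomials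
  obtain ⟨I0, hI0⟩ : ∃ I0 : Finset (Polynomial Ω × ℕ), I0 =
      S0.biUnion fun p => (Finset.range (p.natDegree + 1)).image fun j => (p, j) := ⟨_, rfl⟩
  have hI0m : ∀ p j, (p, j) ∈ I0 ↔ p ∈ S0 ∧ j ≤ p.natDegree := by
    intro p j
    rw [hI0, Finset.mem_biUnion]
    constructor
    · rintro ⟨p', hp', h1⟩
      obtain ⟨j', hj', h2⟩ := Finset.mem_image.1 h1
      obtain ⟨rfl, rfl⟩ := Prod.mk.inj h2
      exact ⟨hp', Nat.lt_succ_iff.1 (Finset.mem_range.1 hj')⟩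
    · rintro ⟨hp, hj⟩
      exact ⟨p, hp, Finset.mem_image.2 ⟨j, Finset.mem_range.2 (Nat.lt_succ_of_le hj), rfl⟩⟩
  obtain ⟨E, hE⟩ : ∃ E : Finset Ω, E = (I0.image fun x =>
      (hasseDeriv x.2 x.1).eval z / x.1.eval z).filter fun x => x ≠ 0 := ⟨_, rfl⟩
  obtain ⟨E', hE'⟩ : ∃ E' : Finset Ω, E' = I0.image fun x =>
      (hasseDeriv x.2 x.1).eval z * c₀ ^ x.2 / x.1.eval z := ⟨_, rfl⟩
  have hEK : ∀ x ∈ E, x ∈ K ∧ x ≠ 0 := by
    intro x hx
    rw [hE, Finset.mem_filter] at hx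
    obtain ⟨hx, hx0⟩ := hx
    obtain ⟨⟨p, j⟩, hpj, rfl⟩ := Finset.mem_image.1 hx
    exact ⟨K.div_mem (hevj p (hS0L p ((hI0m p j).1 hpj).1).1 j)
      (hev p (hS0L p ((hI0m p j).1 hpj).1).1), hx0⟩
  have hE'K : ∀ x ∈ E', x ∈ K := by
    intro x hx
    rw [hE'] at hx
    obtain ⟨⟨p, j⟩, hpj, rfl⟩ := Finset.mem_image.1 hx
    exact K.div_mem (K.mul_mem (hevj p (hS0L p ((hI0m p j).1 hpj).1).1 j)
      (K.pow_mem (hLK hc₀L) j)) (hev p (hS0L p ((hI0m p j).1 hpj).1).1)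
  have hadjL : ∀ x ∈ adj (algebraMap k Ω).range (A1 : Set Ω), x ∈ L := hq1.1
  obtain ⟨T1, hT1⟩ : ∃ T1 : Finset Ω, T1 = T0 ∪ {p₁, q₁, p₂, q₂} ∪ E := ⟨_, rfl⟩
  have hT1K : ∀ t ∈ T1, t ∈ K ∧ t ≠ 0 := by
    intro t ht
    rw [hT1, Finset.mem_union, Finset.mem_union] at ht
    simp only [Finset.mem_insert, Finset.mem_singleton] at ht
    rcases ht with (ht | rfl | rfl | rfl | rfl) | ht
    · exact hT0K t ht
    · exact ⟨hLK (hadjL _ hp₁), hp₁0⟩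
    · exact ⟨hLK (hadjL _ hq₁), hq₁0⟩
    · exact ⟨hLK (hadjL _ hp₂), hp₂0⟩
    · exact ⟨hLK (hadjL _ hq₂), hq₂0⟩
    · exact hEK t ht
  obtain ⟨n, z', J, O, hmod, hdim⟩ := hLU A0 hA0w hqA0 T1 hT1K
  obtain ⟨g, G, S2, hS2K, hg, hg0, hG, hctrl⟩ := exists_control w hkw hA0w hmod hdim
    (K := K) (fun a => hLK (hkL a)) hA0K
  obtain ⟨m₁, m₂, φ, hφL, hφz, hmv, hdom⟩ := hU (S2 ∪ T1 ∪ E' ∪ A0) (by
    intro f hf
    rw [Finset.mem_union, Finset.mem_union, Finset.mem_union] at hf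
    rcases hf with ((hf | hf) | hf) | hf
    · exact hS2K f hf
    · exact (hT1K f hf).1
    · exact hE'K f hf
    · exact hA0K f hf)
  obtain ⟨c, hc⟩ : ∃ c : Ω, c = c₁ ^ m₁ * c₂ ^ m₂ := ⟨_, rfl⟩
  rw [← hc] at hφz hmv
  have hcL : c ∈ L := by rw [hc]; exact L.mul_mem (L.zpow_mem hc₁ _) (L.zpow_mem hc₂ _)
  have hc0 : c ≠ 0 := by rw [hc]; exact mul_ne_zero (zpow_ne_zero _ h₁) (zpow_ne_zero _ h₂)
  have hcv : v.Ge 0 c := fun _ => hc₀v.trans hmv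
  obtain ⟨V, hV⟩ : ∃ V : RVal Ω, V = cm v φ := ⟨_, rfl⟩
  have hkφ : ∀ b : k, φ (algebraMap k Ω b) = algebraMap k Ω b := fun b => hφL _ (hkL b)
  have hctxV : Ctx0 k V := by rw [hV]; exact ctx0_cm h hkφ
  have hkV : ∀ b : k, b ≠ 0 → V (algebraMap k Ω b) = 0 := hctxV.triv
  have hVL : ∀ x ∈ L, V x = v x := fun x hx => by rw [hV, cm_apply, hφL x hx]
  rw [← hV] at hdom
  obtain ⟨m, x, -, -, -, hmodV, hdimV⟩ := hctrl V hkV
    (hdom.mono (by
      rw [Finset.coe_union, Finset.coe_union, Finset.coe_union]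
      exact fun f hf => Or.inl (Or.inl (Or.inl hf))))
  obtain ⟨O', hO'⟩ : ∃ O' : Subring Ω, O' = lv V (adj (algebraMap k Ω).range
      ((A0 : Set Ω) ∪ (fun x => x / g) '' (G : Set Ω))) := ⟨_, rfl⟩
  rw [← hO'] at hmodV hdimV
  have hO'inv : ∀ f ∈ O', f ≠ 0 → V f = 0 → f⁻¹ ∈ O' := by
    rw [hO']
    exact fun f => lv_inv
  have hzne := hmodV.par.ne
  have hA0V : ∀ a ∈ A0, V.Ge 0 a := fun a ha => hdom.ge (by
    rw [Finset.coe_union]
    exact Or.inr (Finset.mem_coe.2 ha)) (hA0w a ha)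
  have hmono : ∀ t ∈ T1, LM V O' (Fin.append z' x) (J.map (Fin.castAddEmb m)) t :=
    fun t ht => LM.of_SM (hmodV.mono t ht)
  have hp₁T : p₁ ∈ T1 := by rw [hT1]; simp
  have hq₁T : q₁ ∈ T1 := by rw [hT1]; simp
  have hp₂T : p₂ ∈ T1 := by rw [hT1]; simp
  have hq₂T : q₂ ∈ T1 := by rw [hT1]; simp
  -- numerator and denominator of `c`
  obtain ⟨d, hd⟩ : ∃ d : Ω, d = (q₁ ^ m₁.toNat * p₁ ^ (-m₁).toNat) *
      (q₂ ^ m₂.toNat * p₂ ^ (-m₂).toNat) := ⟨_, rfl⟩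
  have hcd : c * d = (p₁ ^ m₁.toNat * q₁ ^ (-m₁).toNat) * (p₂ ^ m₂.toNat * q₂ ^ (-m₂).toNat) := by
    rw [hc, hd, ← zpow_frac hp₁0 hq₁0, ← zpow_frac hp₂0 hq₂0, ← hc₁e, ← hc₂e]
    ring
  have hdA : d ∈ adj (algebraMap k Ω).range (A1 : Set Ω) := by
    rw [hd]
    exact Subring.mul_mem _ (Subring.mul_mem _ (Subring.pow_mem _ hq₁ _)
      (Subring.pow_mem _ hp₁ _)) (Subring.mul_mem _ (Subring.pow_mem _ hq₂ _)
      (Subring.pow_mem _ hp₂ _))
  have hcdA : c * d ∈ adj (algebraMap k Ω).range (A1 : Set Ω) := by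
    rw [hcd]
    exact Subring.mul_mem _ (Subring.mul_mem _ (Subring.pow_mem _ hp₁ _)
      (Subring.pow_mem _ hq₁ _)) (Subring.mul_mem _ (Subring.pow_mem _ hp₂ _)
      (Subring.pow_mem _ hq₂ _))
  have hd0 : d ≠ 0 := by
    rw [hd]
    exact mul_ne_zero (mul_ne_zero (pow_ne_zero _ hq₁0) (pow_ne_zero _ hp₁0))
      (mul_ne_zero (pow_ne_zero _ hq₂0) (pow_ne_zero _ hp₂0))
  have hdLM : LM V O' (Fin.append z' x) (J.map (Fin.castAddEmb m)) d := by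
    rw [hd]
    exact (((hmono _ hq₁T).pow hzne _).mul hzne ((hmono _ hp₁T).pow hzne _)).mul hzne
      (((hmono _ hq₂T).pow hzne _).mul hzne ((hmono _ hp₂T).pow hzne _))
  have hcLM : LM V O' (Fin.append z' x) (J.map (Fin.castAddEmb m)) c := by
    rw [hc, hc₁e, hc₂e]
    exact (((hmono _ hp₁T).div hO'inv hzne (hmono _ hq₁T)).zpow hO'inv hzne _).mul hzne
      (((hmono _ hp₂T).div hO'inv hzne (hmono _ hq₂T)).zpow hO'inv hzne _)
  -- the refinement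
  obtain ⟨I1, hI1⟩ : ∃ I1 : Finset (Polynomial Ω × ℕ), I1 =
      I0.filter fun x => (hasseDeriv x.2 x.1).eval z / x.1.eval z ≠ 0 := ⟨_, rfl⟩
  obtain ⟨F, hF⟩ : ∃ F : Finset Ω, F = {c, d} ∪ I1.image fun x =>
      (hasseDeriv x.2 x.1).eval z / x.1.eval z * c ^ x.2 := ⟨_, rfl⟩
  obtain ⟨z₂, J₂, O₂, hOO₂, hmod₂, hdim₂, hSM₂, hF₂⟩ := Ref.exists (hRef V hctxV)
    (Finset.finite_toSet A0) hA0V hmodV hdimV F (by
      intro t ht
      rw [hF, Finset.mem_union] at ht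
      simp only [Finset.mem_insert, Finset.mem_singleton] at ht
      rcases ht with (rfl | rfl) | ht
      · exact hcLM
      · exact hdLM
      · obtain ⟨⟨p, j⟩, hpj, rfl⟩ := Finset.mem_image.1 ht
        rw [hI1, Finset.mem_filter] at hpj
        refine (hmono _ ?_).mul hzne (hcLM.pow hzne _)
        rw [hT1, Finset.mem_union, hE, Finset.mem_filter]
        exact Or.inr ⟨Finset.mem_image.2 ⟨_, hpj.1, rfl⟩, hpj.2⟩)
  obtain ⟨g₂, hg₂, hg₂0, hg₂m, G₂, hG₂, hO₂⟩ := hmod₂.chart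
  have hcSM : SM V O₂ z₂ J₂ c := hF₂ c (by rw [hF]; simp)
  have hdSM : SM V O₂ z₂ J₂ d := hF₂ d (by rw [hF]; simp)
  have hcO₂ : c ∈ O₂ := SM.mem hmod₂.par.mem hcSM (by rw [hVL c hcL]; exact hcv hc0)
  have hAA0 : adj (algebraMap k Ω).range (A0 : Set Ω) ≤
      adj (algebraMap k Ω).range ((insert z (insert c A1) : Finset Ω) : Set Ω) :=
    adj_mono le_rfl (by
      intro a ha
      rw [hA0, Finset.coe_insert] at ha
      rw [Finset.coe_insert, Finset.coe_insert]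
      rcases ha with ha | ha
      · exact Or.inl ha
      · exact Or.inr (Or.inr ha))
  have hO₂' : O₂ = lv V (adj (algebraMap k Ω).range
      (((insert z (insert c A1) : Finset Ω) : Set Ω) ∪ (fun x => x / g₂) '' (G₂ : Set Ω))) := by
    have h1 : (((insert z (insert c A1) : Finset Ω) : Set Ω) ∪
        (fun x => x / g₂) '' (G₂ : Set Ω)) =
        insert c ((A0 : Set Ω) ∪ (fun x => x / g₂) '' (G₂ : Set Ω)) := by
      rw [hA0, Finset.coe_insert, Finset.coe_insert, Finset.coe_insert, Set.insert_comm,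
        Set.insert_union]
    rw [h1, lv_insert (by rw [← hO₂]; exact hcO₂)]
    exact hO₂
  -- the errors
  have herr : ∀ p ∈ S0, ∀ j : ℕ, 1 ≤ j →
      (hasseDeriv j p).eval z * c ^ j / p.eval z ∈ O₂ ∧
      VPos V ((hasseDeriv j p).eval z * c ^ j / p.eval z) := by
    intro p hp j hj
    by_cases h0 : (hasseDeriv j p).eval z / p.eval z = 0
    · have h1 : (hasseDeriv j p).eval z * c ^ j / p.eval z = 0 := by
        rw [mul_comm, mul_div_assoc, h0, mul_zero]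
      rw [h1]
      exact ⟨O₂.zero_mem, VPos.zero⟩
    · have hp0 : p.eval z ≠ 0 := (hS0L p hp).2
      have hjd : j ≤ p.natDegree := by
        by_contra hlt
        push Not at hlt
        apply h0
        rw [hasseDeriv_eq_zero_of_lt_natDegree p j hlt, eval_zero, zero_div]
      have hI : (p, j) ∈ I0 := (hI0m p j).2 ⟨hp, hjd⟩
      have h1 : (hasseDeriv j p).eval z * c ^ j / p.eval z =
          (hasseDeriv j p).eval z / p.eval z * c ^ j := by ring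
      have h2 : SM V O₂ z₂ J₂ ((hasseDeriv j p).eval z / p.eval z * c ^ j) := by
        refine hF₂ _ ?_
        rw [hF, Finset.mem_union, hI1]
        exact Or.inr (Finset.mem_image.2 ⟨(p, j), Finset.mem_filter.2 ⟨hI, h0⟩, rfl⟩)
      -- the value
      have h3 : (hasseDeriv j p).eval z * c₀ ^ j / p.eval z ≠ 0 := by
        have e : (hasseDeriv j p).eval z * c₀ ^ j / p.eval z =
          (hasseDeriv j p).eval z / p.eval z * c₀ ^ j := by ring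
        rw [e]
        exact mul_ne_zero h0 (pow_ne_zero _ hc₀0)
      have h4 : 0 < V ((hasseDeriv j p).eval z * c₀ ^ j / p.eval z) := by
        refine (hdom _ ?_ h3).2 (hWE p hp j hj h3)
        rw [Finset.coe_union, Finset.coe_union]
        refine Or.inl (Or.inr (Finset.mem_coe.2 ?_))
        rw [hE']
        exact Finset.mem_image.2 ⟨(p, j), hI, rfl⟩
      have h5 : 0 < V ((hasseDeriv j p).eval z / p.eval z * c ^ j) := by
        have e : (hasseDeriv j p).eval z / p.eval z * c ^ j =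
            (hasseDeriv j p).eval z * c₀ ^ j / p.eval z * (c / c₀) ^ j := by
          rw [div_pow]
          field_simp
        have hq0 : c / c₀ ≠ 0 := div_ne_zero hc0 hc₀0
        rw [e, V.map_mul h3 (pow_ne_zero _ hq0), V.map_pow hq0, V.map_div hc0 hc₀0, hVL c hcL,
          hVL c₀ hc₀L]
        have h6 : 0 ≤ (j : ℝ) * (v c - v c₀) := mul_nonneg (Nat.cast_nonneg j) (by linarith)
        linarith
      rw [h1]
      exact ⟨SM.mem hmod₂.par.mem h2 h5.le, fun _ => h5⟩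
  subst hV
  refine assemble (T0 := T0) (φ := φ) (z := z) (c := c) (c' := c) (d := d)
    (A1 := A1) (L := L) (g := g₂) (G := G₂) hk hkL hA ?_ ?_ hA1L hA1 hzv ?_ hφL hφz
    hcL hcL ?_ hcv hdA hd0 hcdA hmod₂.par hO₂' (hAA0 hg₂) hg₂0 hg₂m
    (fun y hy => ⟨hAA0 (hG₂ y hy).1, (hG₂ y hy).2⟩) ?_ hdSM hdim₂ ?_
  · rw [hT0]
    exact Finset.subset_union_left.trans Finset.subset_union_left
  · intro a ha ha0
    rw [hT0, Finset.mem_union, Finset.mem_union, Finset.mem_filter]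
    exact Or.inl (Or.inr ⟨ha, ha0⟩)
  · intro b hb
    obtain ⟨h1, h2, α, hα, h3⟩ := hβ b hb
    refine ⟨β b, h1, ?_, α, hα, h3⟩
    rw [hT0, Finset.mem_union]
    exact Or.inr (Finset.mem_image_of_mem _ hb)
  · exact mem_adj (by simp)
  · intro t ht
    exact hSM₂ t (hmodV.mono t (by
      rw [hT1]; exact Finset.mem_union_left _ (Finset.mem_union_left _ ht)))
  · intro t ht
    obtain ⟨h1, h2, h3, h4, h5⟩ := hPQ t ht
    refine ⟨P t, Q t, h1, h2, h3, h4, h5, herr _ ?_, herr _ ?_⟩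
    · rw [hS0, Finset.mem_union]
      exact Or.inl (Finset.mem_image_of_mem _ ht)
    · rw [hS0, Finset.mem_union]
      exact Or.inr (Finset.mem_image_of_mem _ ht)

end Pool.Agent.TWI
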