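import Pool.Agent.Lib.TWI.I4a
import Pool.Agent.Lib.TWI.I3
import Pool.Agent.Lib.TWN.NB2
import Pool.Agent.Lib.TWQ.Q5b

/-!
# TANK W, row I4: the induction with the irrational trick

`lus_of_basis_irr_gen`: with a condition `P` on the core `k(t)` which is stable under the extension
by an element of irrational value; `lus_of_basis_irr'`: `P` is the value group of the core is
finitely generated (no condition on the value group of `E`).
-/

set_option autoImplicit false

open Polynomial

namespace Pool.Agent.TW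

open Pool.Agent.H15JM (RVal)
open Pool.Agent.LU1 (VPos adj val_add_vpos)
open Pool.Agent.LUC (Cl LUs IsMod Par SM QuoIs lv)
open Pool.Agent.D2 (Ctx0)
open Pool.Agent.D2P (hen mem_hen mem_adj_self adj_le isAlgebraic_mono isSeparable_mono)

universe u

variable {k Ω : Type u} [Field k] [Field Ω] [Algebra k Ω]

open Q5 I4 in
/-- The induction, general form. `P v C` is a condition on the core `C = k(t)`. -/
theorem lus_of_basis_irr_gen [IsAlgClosed k] [IsAlgClosed Ω] (δ : ℕ)
    (P : RVal Ω → IntermediateField k Ω → Prop)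
    (hPz : ∀ (v W : RVal Ω) (C : IntermediateField k Ω) (z α : Ω), Ctx0 k v → Ctx0 k W → P v C →
      (∀ f, f ≠ 0 → IsAlgebraic C f → W f = v f) → Transcendental C z → IsAlgebraic C α →
      (∀ (m : ℤ) (f : Ω), m ≠ 0 → f ≠ 0 → IsAlgebraic C f → W f ≠ m * W (z - α)) →
      P W (adj C z))
    (H : ∀ (v : RVal Ω) (_ : Ctx0 k v) (C : IntermediateField k Ω) (_ : P v C)
      (_ : C.FG) (E : IntermediateField k Ω) (_ : C ≤ E) (_ : ∀ e ∈ E, IsSeparable C e) (_ : E.FG)
      (_ : ∀ g : Ω, IsAlgebraic E g)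
      (_ : ∃ c₁ ∈ C, ∃ c₂ ∈ C, c₁ ≠ 0 ∧ c₂ ≠ 0 ∧ LinearIndependent ℚ ![v c₁, v c₂])
      (_ : ∃ a ∈ E, a ≠ 0 ∧ 0 < v a) (_ : DefL v E δ),
      LUs v (algebraMap k Ω).range E.toSubfield) :
    ∀ (s m : ℕ) (v : RVal Ω) (_ : Ctx0 k v) (t : Fin m → Ω) (t' : Fin s → Ω)
      (_ : AlgebraicIndependent k (Sum.elim t t')) (E : IntermediateField k Ω) (_ : E.FG)
      (_ : ∀ i, t i ∈ E) (_ : ∀ i, t' i ∈ E)
      (_ : ∀ e ∈ E, IsSeparable (IntermediateField.adjoin k (Set.range t ∪ Set.range t')) e)
      (_ : ∀ g : Ω, IsAlgebraic E g)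
      (_ : P v (IntermediateField.adjoin k (Set.range t)))
      (_ : ∃ c₁ ∈ IntermediateField.adjoin k (Set.range t),
        ∃ c₂ ∈ IntermediateField.adjoin k (Set.range t), c₁ ≠ 0 ∧ c₂ ≠ 0 ∧
          LinearIndependent ℚ ![v c₁, v c₂])
      (_ : DefL v (IntermediateField.adjoin k (Set.range t)) δ)
      (_ : ∀ i, LimAlg v (IntermediateField.adjoin k (Set.range t)) (t' i)),
      LUs v (algebraMap k Ω).range E.toSubfield := by
  classical
  have hposof : ∀ (v : RVal Ω) (C : IntermediateField k Ω) (c₁ c₂ : Ω), c₁ ∈ C → c₁ ≠ 0 →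
      LinearIndependent ℚ ![v c₁, v c₂] → ∃ a ∈ C, a ≠ 0 ∧ 0 < v a := by
    intro v C c₁ c₂ h1 h2 h3
    have h4 : v c₁ ≠ 0 := h3.ne_zero 0
    rcases lt_or_gt_of_ne h4 with h5 | h5
    · exact ⟨c₁⁻¹, inv_mem h1, inv_ne_zero h2, by rw [v.map_inv h2]; linarith⟩
    · exact ⟨c₁, h1, h2, h5⟩
  intro s
  induction s with
  | zero =>
    intro m v h t t' _ E hE ht _ hsep hΩ hG hcc hD _
    have hle : IntermediateField.adjoin k (Set.range t) ≤ E := by
      rw [IntermediateField.adjoin_le_iff]
      rintro _ ⟨i, rfl⟩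
      exact ht i
    have hre : (Set.range t ∪ Set.range t' : Set Ω) = Set.range t := by
      rw [Set.range_eq_empty t', Set.union_empty]
    obtain ⟨a, ha, ha0, hav⟩ : ∃ a ∈ IntermediateField.adjoin k (Set.range t), a ≠ 0 ∧ 0 < v a := by
      obtain ⟨c₁, hc₁, c₂, hc₂, hc₁0, hc₂0, hci⟩ := hcc
      exact hposof v _ c₁ c₂ hc₁ hc₁0 hci
    refine H v h _ hG (IntermediateField.fg_adjoin_of_finite (Set.finite_range t)) E hle
      (fun e he => ?_) hE hΩ hcc ⟨a, hle ha, ha0, hav⟩ ?_
    · have h6 := hsep e he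
      rwa [hre] at h6
    obtain ⟨r, q, x, y, h1, h2, h3, h4, h5⟩ := hD
    refine ⟨r, q, x, y, ?_, fun i => ⟨hle (h2 i).1, (h2 i).2⟩, h3,
      fun i => ⟨hle (h4 i).1, (h4 i).2⟩, h5⟩
    rw [trdeg_eq_of_alg hle fun a ha => by
      have h6 := hsep a ha
      rw [hre] at h6
      exact h6.isIntegral.isAlgebraic]
    exact h1
  | succ s ih =>
    intro m v h t t' hai E hE ht ht' hsep hΩ hG hcc hD hlim
    set C : IntermediateField k Ω := IntermediateField.adjoin k (Set.range t) with hC
    set t₁ : Fin s → Ω := fun i => t' i.castSucc with ht₁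
    set w : Ω := t' (Fin.last s) with hw'
    set L : IntermediateField k Ω := IntermediateField.adjoin k (Set.range t ∪ Set.range t₁)
      with hL
    have hLfg : L.FG := IntermediateField.fg_adjoin_of_finite
      ((Set.finite_range t).union (Set.finite_range t₁))
    have hCL : C ≤ L := IntermediateField.adjoin.mono k _ _ Set.subset_union_left
    have hadj : adj L w = IntermediateField.adjoin k (Set.range t ∪ Set.range t') := by
      rw [adj, hL, ← IntermediateField.adjoin_union]
      congr 1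
      ext x
      constructor
      · rintro ((h1 | ⟨j, rfl⟩) | rfl)
        · exact Or.inl h1
        · exact Or.inr ⟨j.castSucc, rfl⟩
        · exact Or.inr ⟨Fin.last s, rfl⟩
      · rintro (h1 | ⟨j, rfl⟩)
        · exact Or.inl (Or.inl h1)
        · refine Fin.lastCases ?_ (fun j => ?_) j
          · exact Or.inr rfl
          · exact Or.inl (Or.inr ⟨j, rfl⟩)
    -- independence
    have hai₁ : AlgebraicIndependent k (Sum.elim t t₁) := by
      have h1 := hai.comp (Sum.map id Fin.castSucc)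
        (Function.Injective.sumMap Function.injective_id (Fin.castSucc_injective s))
      have h2 : Sum.elim t t' ∘ Sum.map id Fin.castSucc = Sum.elim t t₁ := by
        funext i
        rcases i with i | i <;> rfl
      rwa [h2] at h1
    have hw : Transcendental L w := by
      rw [hL, IntermediateField.transcendental_adjoin_iff]
      have h1 := hai.transcendental_adjoin (s := {j | j ≠ Sum.inr (Fin.last s)})
        (i := Sum.inr (Fin.last s)) (fun h1 => h1 rfl)
      have h2 : Sum.elim t t' '' {j | j ≠ Sum.inr (Fin.last s)} =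
          Set.range t ∪ Set.range t₁ := by
        ext x
        constructor
        · rintro ⟨i | i, hi, rfl⟩
          · exact Or.inl ⟨i, rfl⟩
          · refine Or.inr ?_
            have hi' : i ≠ Fin.last s := fun h3 => hi (by rw [h3])
            obtain ⟨j, rfl⟩ := Fin.exists_castSucc_eq.2 hi'
            exact ⟨j, rfl⟩
        · rintro (⟨i, rfl⟩ | ⟨i, rfl⟩)
          · exact ⟨Sum.inl i, fun h3 => (by cases h3), rfl⟩
          · refine ⟨Sum.inr i.castSucc, fun h3 => ?_, rfl⟩
            have h4 := Sum.inr.inj h3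
            exact (Fin.castSucc_lt_last i).ne h4
      rw [h2] at h1
      exact h1
    -- a primitive element
    obtain ⟨S, hS⟩ := id hE
    have hSE : ∀ s ∈ S, s ∈ E := by
      intro s hs
      rw [← hS]
      exact IntermediateField.subset_adjoin k _ hs
    have hwE : adj L w ≤ E := by
      rw [hadj, IntermediateField.adjoin_le_iff]
      rintro _ (⟨i, rfl⟩ | ⟨i, rfl⟩)
      · exact ht i
      · exact ht' i
    have hsep' : ∀ e ∈ E, IsSeparable (adj L w) e := fun e he => by
      rw [hadj]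
      exact hsep e he
    obtain ⟨θ, hθ, hEθ'⟩ := D2P.H0aux.exists_prim (T := adj L w) S fun s hs =>
      hsep' s (hSE s hs)
    have hEθ : adj (adj L w) θ = E := by
      rw [hEθ', hS]
      exact sup_eq_right.2 hwE
    obtain ⟨c₁, hc₁, c₂, hc₂, hc₁0, hc₂0, hci⟩ := hcc
    obtain ⟨a, haC, ha0, hav⟩ := hposof v C c₁ c₂ hc₁ hc₁0 hci
    have hposL : ∃ a ∈ L, a ≠ 0 ∧ 0 < v a := ⟨a, hCL haC, ha0, hav⟩
    have hmonoL : ∀ {x : Ω}, LimAlg v C x → LimAlg v L x := by
      intro x hx b
      obtain ⟨α, hα, h1⟩ := hx b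
      exact ⟨α, isAlgebraic_mono hCL hα, h1⟩
    obtain ⟨z, hz, hzl, hh⟩ := exists_gen_of_limAlg h hposL hw hθ (hmonoL (hlim _)) fun g =>
      D2P.isAlgebraic_trans (F := E) (fun a ha => (hsep' a ha).isIntegral.isAlgebraic) (hΩ g)
    rw [hEθ] at hh
    have hzfg : (adj L z).FG := D2P.fg_adj hLfg z
    have hΩz : ∀ g : Ω, IsAlgebraic (adj L z) g := fun g =>
      D2P.isAlgebraic_trans (F := E) (fun a ha => by
        have h1 : a ∈ hen v (adj L z) := by
          rw [← hh]
          exact D2P.le_hen _ ha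
        exact (mem_hen.1 h1).2.isIntegral.isAlgebraic) (hΩ g)
    refine lus_of_hen h.triv hE hzfg ⟨a, hwE ((mem_adj_self L w).2 (hCL haC)), ha0, hav⟩ hΩ hh ?_
    refine lus_of_irr h hLfg (hCL hc₁) (hCL hc₂) hc₁0 hc₂0 hci hz hΩz hzl ?_
    -- the new valuation
    intro W α hW0 hWv hα hirr
    set b : ℝ := W (z - α) with hb
    have hLalg : ∀ {f : Ω}, f ∈ L → IsAlgebraic L f := fun hf => D2P.isAlgebraic_of_mem hf
    have hC₁ : IntermediateField.adjoin k (Set.range (Fin.cons z t : Fin (m + 1) → Ω)) =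
        adj C z := by
      rw [adj, hC, ← IntermediateField.adjoin_union, Fin.range_cons, Set.insert_eq,
        Set.union_comm]
    have hzL : adj L z =
        IntermediateField.adjoin k (Set.range (Fin.cons z t : Fin (m + 1) → Ω) ∪ Set.range t₁) := by
      rw [adj, hL, ← IntermediateField.adjoin_union, Fin.range_cons, Set.insert_eq]
      congr 1
      ext x
      simp only [Set.mem_union, Set.mem_singleton_iff]
      tauto
    have hlim₁ : ∀ x ∈ Set.range t₁, LimAlg v C x := by
      rintro _ ⟨i, rfl⟩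
      exact hlim i.castSucc
    have hfield : ∀ {e : Ω}, IsAlgebraic L e → LimAlg v C e := by
      intro e he
      refine LimAlg.field ⟨a, haC, ha0, hav⟩ hlim₁ (isAlgebraic_mono ?_ he)
      rw [hL]
      refine IntermediateField.adjoin.mono k _ _ (Set.union_subset_union_left _ ?_)
      exact IntermediateField.subset_adjoin k _
    -- irrationality for `W`
    have hirrW : ∀ (m : ℤ) (f : Ω), m ≠ 0 → f ≠ 0 → IsAlgebraic L f → W f ≠ m * b := by
      intro m f hm hf hfa
      rw [hWv f hf hfa]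
      exact hirr m f hm hf hfa
    -- the values of `L(z)`
    have hzα : z - α ≠ 0 := fun h1 => hz (by rw [sub_eq_zero.1 h1]; exact hα)
    -- the approximation over `C`
    obtain ⟨α', hα', h1⟩ := hfield hα (b + 1)
    have hα'L : IsAlgebraic L α' := isAlgebraic_mono hCL hα'
    have hWα' : W (z - α') = b := by
      by_cases h2 : α - α' = 0
      · rw [← sub_eq_zero.1 h2]
      · have h3 : b < W (α - α') := by
          rw [hWv _ h2 (hα.sub hα'L)]
          have := h1 h2
          linarith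
        have h4 := W.add_of_lt hzα h2 h3
        rw [sub_add_sub_cancel] at h4
        exact h4.2
    have hzα' : z - α' ≠ 0 := fun h1 => hz (by rw [sub_eq_zero.1 h1]; exact hα'L)
    have hirrC : ∀ (m : ℤ) (f : Ω), m ≠ 0 → f ≠ 0 → IsAlgebraic C f → W f ≠ m * W (z - α') := by
      intro m f hm hf hfa
      rw [hWα']
      exact hirrW m f hm hf (isAlgebraic_mono hCL hfa)
    have hzC : Transcendental C z := fun h1 => hz (isAlgebraic_mono hCL h1)
    have hG₁ : P W (adj C z) := hPz v W C z α' h hW0 hG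
      (fun f hf hfa => hWv f hf (isAlgebraic_mono hCL hfa)) hzC hα' hirrC
    set Q : C[X] := minpoly C α' with hQ
    have hP0 : aeval z Q ≠ 0 := fun h1 => hzC ⟨Q, minpoly.ne_zero hα'.isIntegral, h1⟩
    obtain ⟨j, hj0, hj⟩ := val_aeval_irr hzα' hα' hirrC Q hP0
    rw [hWα'] at hj
    have hjne : j ≠ 0 := by
      rintro rfl
      rw [hasseDeriv_zero'] at hj0
      exact hj0 (minpoly.aeval C α')
    have hcalg : IsAlgebraic L (aeval α' (hasseDeriv j Q)) := by
      have h2 : α' ∈ algebraicClosure C Ω := mem_algebraicClosure_iff.2 hα'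
      refine isAlgebraic_mono hCL ?_
      rw [← mem_algebraicClosure_iff, aeval_eq_sum_range]
      exact sum_mem fun j _ => (algebraicClosure C Ω).smul_mem (pow_mem h2 j)
    obtain ⟨r, q, x, y, hr1, hx1, hx2, hy1, hy2⟩ := hD
    have hCz : C ≤ adj C z := (mem_adj_self C z).2
    have hPmem : aeval z Q ∈ adj C z := by
      rw [adj_eq]
      exact IntermediateField.algebra_adjoin_le_adjoin C _ (aeval_mem_adjoin_singleton C z)
    -- the independence of `z, t, t₁`
    have hai₂ : AlgebraicIndependent k (Sum.elim (Fin.cons z t : Fin (m + 1) → Ω) t₁) := by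
      have h3 : Transcendental (Algebra.adjoin k (Set.range (Sum.elim t t₁))) z := by
        rw [← IntermediateField.transcendental_adjoin_iff, Set.Sum.elim_range]
        exact hz
      have h4 := (hai₁.option_iff_transcendental z).2 h3
      let ε : Fin (m + 1) ⊕ Fin s → Option (Fin m ⊕ Fin s) := fun i =>
        Sum.elim (fun i => Fin.cases none (fun j => some (Sum.inl j)) i)
          (fun j => some (Sum.inr j)) i
      have hε : Function.Injective ε := by
        rintro (i | i) (j | j) hij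
        · revert hij
          refine Fin.cases ?_ (fun i => ?_) i <;> refine Fin.cases ?_ (fun j => ?_) j
          · intro _; rfl
          · intro hij; simp [ε] at hij
          · intro hij; simp [ε] at hij
          · intro hij
            simp only [ε, Sum.elim_inl, Fin.cases_succ, Option.some.injEq, Sum.inl.injEq] at hij
            rw [hij]
        · revert hij
          refine Fin.cases ?_ (fun i => ?_) i
          · intro hij; simp [ε] at hij
          · intro hij; simp [ε] at hij
        · revert hij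
          refine Fin.cases ?_ (fun j => ?_) j
          · intro hij; simp [ε] at hij
          · intro hij; simp [ε] at hij
        · simp only [ε, Sum.elim_inr, Option.some.injEq, Sum.inr.injEq] at hij
          rw [hij]
      have h5 := h4.comp ε hε
      have h6 : (fun o : Option (Fin m ⊕ Fin s) => o.elim z (Sum.elim t t₁)) ∘ ε =
          Sum.elim (Fin.cons z t : Fin (m + 1) → Ω) t₁ := by
        funext i
        rcases i with i | i
        · refine Fin.cases ?_ (fun j => ?_) i
          · rfl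
          · rfl
        · rfl
      rwa [h6] at h5
    have hait : AlgebraicIndependent k t := hai.comp Sum.inl Sum.inl_injective
    have haizt : AlgebraicIndependent k (Fin.cons z t : Fin (m + 1) → Ω) :=
      hai₂.comp Sum.inl Sum.inl_injective
    have htrC : Algebra.trdeg k C = (m : Cardinal) := by
      rw [hC, trdeg_adjoin_eq hait.to_subtype_range]
      have h3 := Cardinal.mk_range_eq_of_injective hait.injective
      simpa using h3
    have htrC₁ : Algebra.trdeg k (adj C z) = ((m + 1 : ℕ) : Cardinal) := by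
      rw [← hC₁, trdeg_adjoin_eq haizt.to_subtype_range]
      have h3 := Cardinal.mk_range_eq_of_injective haizt.injective
      simpa using h3
    have hmr : m ≤ r + q + δ := by
      rw [htrC] at hr1
      exact_mod_cast hr1
    rw [← hC₁] at hG₁
    refine ih (m + 1) W hW0 (Fin.cons z t) t₁ hai₂ (adj L z) hzfg ?_ ?_ ?_ hΩz hG₁ ?_ ?_ ?_
    · intro i
      refine Fin.cases ?_ (fun j => ?_) i
      · exact (mem_adj_self L z).1
      · exact (mem_adj_self L z).2 (hCL (IntermediateField.subset_adjoin k _ ⟨j, rfl⟩))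
    · intro i
      exact (mem_adj_self L z).2 (IntermediateField.subset_adjoin k _ (Or.inr ⟨i, rfl⟩))
    · intro e he
      rw [hzL] at he
      exact isSeparable_algebraMap (F := IntermediateField.adjoin k
        (Set.range (Fin.cons z t : Fin (m + 1) → Ω) ∪ Set.range t₁))
        (⟨e, he⟩ : IntermediateField.adjoin k
        (Set.range (Fin.cons z t : Fin (m + 1) → Ω) ∪ Set.range t₁))
    · rw [hC₁]
      refine ⟨c₁, hCz hc₁, c₂, hCz hc₂, hc₁0, hc₂0, ?_⟩
      rw [hWv c₁ hc₁0 (hLalg (hCL hc₁)), hWv c₂ hc₂0 (hLalg (hCL hc₂))]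
      exact hci
    · rw [hC₁]
      refine ⟨r + 1, q, Fin.cons (aeval z Q) x, y, ?_, ?_, ?_, ?_, ?_⟩
      · rw [htrC₁]
        have h3 : m + 1 ≤ r + 1 + q + δ := by omega
        exact_mod_cast h3
      · intro i
        refine Fin.cases ?_ (fun i => ?_) i
        · exact ⟨hPmem, hP0⟩
        · exact ⟨hCz (hx1 i).1, (hx1 i).2⟩
      · refine linInd_cons (L := L) (fun i => hLalg (hCL (hx1 i).1)) (fun i => (hx1 i).2) ?_ hjne
          hj0 hcalg hj hirrW
        have h3 : (fun i => W (x i)) = fun i => v (x i) := by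
          funext i
          exact hWv _ (hx1 i).2 (hLalg (hCL (hx1 i).1))
        rw [h3]
        exact hx2
      · intro i
        refine ⟨hCz (hy1 i).1, fun h0 => ?_⟩
        rw [hWv _ h0 (hLalg (hCL (hy1 i).1))]
        exact (hy1 i).2 h0
      · intro R hR
        obtain ⟨h3, h4⟩ := hy2 R hR
        exact ⟨h3, by rw [hWv _ h3 (hLalg (aeval_mem (fun i => hCL (hy1 i).1) R)), h4]⟩
    · rw [hC₁]
      intro i c
      obtain ⟨β, hβ, h3⟩ := hlim i.castSucc c
      refine ⟨β, isAlgebraic_mono hCz hβ, fun h0 => ?_⟩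
      rw [hWv _ h0]
      · exact h3 h0
      · exact (hLalg (IntermediateField.subset_adjoin k _ (Or.inr ⟨i, rfl⟩))).sub
          (isAlgebraic_mono hCL hβ)

open Q5 I4 in
/-- The values of a finite separable extension. -/
theorem fg_val_of_sep {v : RVal Ω} {C E : IntermediateField k Ω} (hE : E.FG) (hle : C ≤ E)
    (hsep : ∀ e ∈ E, IsSeparable C e)
    (hG : ∃ G : AddSubgroup ℝ, G.FG ∧ ∀ g ∈ C, g ≠ 0 → v g ∈ G) :
    ∃ G : AddSubgroup ℝ, G.FG ∧ ∀ g ∈ E, g ≠ 0 → v g ∈ G := by
  obtain ⟨S, hS⟩ := id hE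
  have hSE : ∀ s ∈ S, s ∈ E := by
    intro s hs
    rw [← hS]
    exact IntermediateField.subset_adjoin k _ hs
  obtain ⟨θ, hθ, hEθ'⟩ := D2P.H0aux.exists_prim (T := C) S fun s hs => hsep s (hSE s hs)
  have hEθ : adj C θ = E := by
    rw [hEθ', hS]
    exact sup_eq_right.2 hle
  obtain ⟨G, hGfg, hG⟩ := hG
  have hθa : IsAlgebraic C θ := hθ.isIntegral.isAlgebraic
  obtain ⟨G', hG'fg, hG'⟩ := exists_fg_fin (v := v) (L := C) hGfg hG hθa
  refine ⟨G', hG'fg, fun g hg hg0 => ?_⟩
  rw [← hEθ, adj_eq] at hg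
  have h1 := IntermediateField.adjoin_simple_toSubalgebra_of_isAlgebraic hθa
  have h2 : g ∈ (IntermediateField.adjoin C {θ}).toSubalgebra := hg
  rw [h1, Algebra.adjoin_singleton_eq_range_aeval] at h2
  obtain ⟨q, rfl⟩ := h2
  exact hG' q hg0

open Q5 I4 in
/-- ROW I4, strong form: only the value group of the core `k(t)` is finitely generated. -/
theorem lus_of_basis_irr' [IsAlgClosed k] [IsAlgClosed Ω] (δ : ℕ)
    (H : ∀ (v : RVal Ω) (_ : Ctx0 k v) (E : IntermediateField k Ω) (_ : E.FG)
      (_ : ∀ g : Ω, IsAlgebraic E g) (_ : ∃ a ∈ E, a ≠ 0 ∧ 0 < v a) (_ : DefL v E δ)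
      (_ : ∃ G : AddSubgroup ℝ, G.FG ∧ ∀ g ∈ E, g ≠ 0 → v g ∈ G),
      LUs v (algebraMap k Ω).range E.toSubfield) :
    ∀ (s m : ℕ) (v : RVal Ω) (_ : Ctx0 k v) (t : Fin m → Ω) (t' : Fin s → Ω)
      (_ : AlgebraicIndependent k (Sum.elim t t')) (E : IntermediateField k Ω) (_ : E.FG)
      (_ : ∀ i, t i ∈ E) (_ : ∀ i, t' i ∈ E)
      (_ : ∀ e ∈ E, IsSeparable (IntermediateField.adjoin k (Set.range t ∪ Set.range t')) e)
      (_ : ∀ g : Ω, IsAlgebraic E g)
      (_ : ∃ G : AddSubgroup ℝ, G.FG ∧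
        ∀ g ∈ IntermediateField.adjoin k (Set.range t), g ≠ 0 → v g ∈ G)
      (_ : ∃ c₁ ∈ IntermediateField.adjoin k (Set.range t),
        ∃ c₂ ∈ IntermediateField.adjoin k (Set.range t), c₁ ≠ 0 ∧ c₂ ≠ 0 ∧
          LinearIndependent ℚ ![v c₁, v c₂])
      (_ : DefL v (IntermediateField.adjoin k (Set.range t)) δ)
      (_ : ∀ i, LimAlg v (IntermediateField.adjoin k (Set.range t)) (t' i)),
      LUs v (algebraMap k Ω).range E.toSubfield := by
  refine lus_of_basis_irr_gen δ
    (fun v C => ∃ G : AddSubgroup ℝ, G.FG ∧ ∀ g ∈ C, g ≠ 0 → v g ∈ G) ?_ ?_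
  · intro v W C z α _ _ hG hWv hz hα hirr
    obtain ⟨G, hGfg, hG⟩ := hG
    obtain ⟨G', hG'fg, hG'⟩ := exists_fg_fin (v := v) (L := C) hGfg hG hα
    refine exists_fg_irr hG'fg hz hα (fun q hq => ?_) hirr
    rw [hWv _ hq]
    · exact hG' q hq
    · have h1 : α ∈ algebraicClosure C Ω := mem_algebraicClosure_iff.2 hα
      rw [← mem_algebraicClosure_iff, aeval_eq_sum_range]
      exact sum_mem fun j _ => (algebraicClosure C Ω).smul_mem (pow_mem h1 j)
  · intro v h C hG _ E hle hsep hE hΩ _ hpos hD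
    exact H v h E hE hΩ hpos hD (fg_val_of_sep hE hle hsep hG)

/-- ROW I4.  Residue field `k`; the fields of defect at most `δ` with finitely generated value group
are log uniformizable. `t, t'` is a separating transcendence basis of `E`, the `t'` are in the
completion of the algebraic closure of `k(t)`, of defect at most `δ`. Then `E` is log
uniformizable. -/
theorem lus_of_basis_irr (p : ℕ) [Fact p.Prime] [CharP k p] [IsAlgClosed k] [IsAlgClosed Ω] (δ : ℕ)
    (H : ∀ (v : RVal Ω) (_ : Ctx0 k v) (E : IntermediateField k Ω) (_ : E.FG)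
      (_ : ∀ g : Ω, IsAlgebraic E g) (_ : ∃ a ∈ E, a ≠ 0 ∧ 0 < v a) (_ : DefL v E δ)
      (_ : ∃ G : AddSubgroup ℝ, G.FG ∧ ∀ g ∈ E, g ≠ 0 → v g ∈ G),
      LUs v (algebraMap k Ω).range E.toSubfield) :
    ∀ (s m : ℕ) (v : RVal Ω) (_ : Ctx0 k v) (t : Fin m → Ω) (t' : Fin s → Ω)
      (_ : AlgebraicIndependent k (Sum.elim t t')) (E : IntermediateField k Ω) (_ : E.FG)
      (_ : ∀ i, t i ∈ E) (_ : ∀ i, t' i ∈ E)
      (_ : ∀ e ∈ E, IsSeparable (IntermediateField.adjoin k (Set.range t ∪ Set.range t')) e)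
      (_ : ∀ g : Ω, IsAlgebraic E g)
      (_ : ∃ G : AddSubgroup ℝ, G.FG ∧ ∀ g ∈ E, g ≠ 0 → v g ∈ G)
      (_ : ∃ c₁ ∈ IntermediateField.adjoin k (Set.range t),
        ∃ c₂ ∈ IntermediateField.adjoin k (Set.range t), c₁ ≠ 0 ∧ c₂ ≠ 0 ∧
          LinearIndependent ℚ ![v c₁, v c₂])
      (_ : DefL v (IntermediateField.adjoin k (Set.range t)) δ)
      (_ : ∀ i, LimAlg v (IntermediateField.adjoin k (Set.range t)) (t' i)),
      LUs v (algebraMap k Ω).range E.toSubfield := by
  intro s m v h t t' hai E hE ht ht' hsep hΩ hG hcc hD hlim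
  obtain ⟨G, hGfg, hG⟩ := hG
  refine lus_of_basis_irr' δ H s m v h t t' hai E hE ht ht' hsep hΩ ⟨G, hGfg, fun g hg => hG g ?_⟩
    hcc hD hlim
  have hle : IntermediateField.adjoin k (Set.range t) ≤ E := by
    rw [IntermediateField.adjoin_le_iff]
    rintro _ ⟨i, rfl⟩
    exact ht i
  exact hle hg

end Pool.Agent.TW

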