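import Pool.Agent.Lib.TWQ.Q5
import Pool.Agent.Lib.TW.B2
import Mathlib.RingTheory.Localization.Module

/-!
# TANK W, row I4 (core): the induction with the irrational trick

`lus_of_basis_irr_of`: `t, t'` a separating transcendence basis of `E`, `t'` in the completion of the
algebraic closure of `k(t)`, which has defect at most `δ`; residue field `k`, finitely generated
value group: `E` is log uniformizable if all such fields of defect at most `δ` are. Induction on the
number of the `t'`: the last one is moved to a generator `z` of the henselization, the valuation is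
replaced by one for which the value of `z - α` is irrational over the values of the algebraic
elements.
-/

set_option autoImplicit false

open Polynomial

namespace Pool.Agent.TW

open Pool.Agent.H15JM (RVal)
open Pool.Agent.LU1 (VPos adj val_add_vpos)
open Pool.Agent.LUC (Cl LUs IsMod Par SM QuoIs lv)
open Pool.Agent.D2 (Ctx0)
open Pool.Agent.D2P (hen mem_hen mem_adj_self adj_le isAlgebraic_mono isSeparable_mono)

universe u

variable {k Ω : Type u} [Field k] [Field Ω] [Algebra k Ω]

namespace I4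

/-- A sum of elements of distinct values. -/
theorem val_sum_distinct {v : RVal Ω} {ι : Type*} (S : Finset ι) (f : ι → Ω)
    (hf : ∀ i ∈ S, f i ≠ 0) (hd : ∀ i ∈ S, ∀ j ∈ S, v (f i) = v (f j) → i = j)
    (hS : S.Nonempty) : ∃ i ∈ S, ∑ j ∈ S, f j ≠ 0 ∧ v (∑ j ∈ S, f j) = v (f i) := by
  classical
  obtain ⟨i, hi, hmin⟩ := S.exists_min_image (fun j => v (f j)) hS
  refine ⟨i, hi, ?_⟩
  have h0 := hf i hi
  have h1 : VPos v (∑ j ∈ S.erase i, f j * (f i)⁻¹) := by
    refine D2.vpos_sum0 _ _ fun j hj => ?_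
    intro _
    have hj' := Finset.mem_of_mem_erase hj
    rw [v.map_mul (hf j hj') (inv_ne_zero h0), v.map_inv h0]
    have h2 : v (f i) < v (f j) := lt_of_le_of_ne (hmin j hj') fun h =>
      Finset.ne_of_mem_erase hj (hd i hi j hj' h).symm
    linarith
  have h2 := val_add_vpos (v := v) one_ne_zero v.map_one h1
  have h3 : ∑ j ∈ S, f j = f i * (1 + ∑ j ∈ S.erase i, f j * (f i)⁻¹) := by
    rw [← Finset.add_sum_erase _ _ hi, mul_add, mul_one, Finset.mul_sum]
    congr 1
    refine Finset.sum_congr rfl fun j _ => ?_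
    field_simp
  rw [h3]
  exact ⟨mul_ne_zero h0 h2.1, by rw [v.map_mul h0 h2.1, h2.2, add_zero]⟩

/-- The values of algebraic elements of bounded degree have bounded torsion modulo the values of
`L`. -/
theorem exists_nsmul {v : RVal Ω} {L : IntermediateField k Ω} {G : AddSubgroup ℝ}
    (hG : ∀ g ∈ L, g ≠ 0 → v g ∈ G) {f : Ω} (hf : f ≠ 0) {P : L[X]} (hP : P ≠ 0)
    (h0 : aeval f P = 0) : ∃ N : ℕ, 0 < N ∧ N ≤ P.natDegree ∧ (N : ℝ) * v f ∈ G := by
  classical
  by_contra hcon
  push Not at hcon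
  set F : ℕ → Ω := fun i => (P.coeff i : Ω) * f ^ i with hF
  have hc : ∀ i ∈ P.support, (P.coeff i : Ω) ≠ 0 := fun i hi h1 =>
    (mem_support_iff.1 hi) (Subtype.ext h1)
  have hne : ∀ i ∈ P.support, F i ≠ 0 := fun i hi => mul_ne_zero (hc i hi) (pow_ne_zero _ hf)
  have hsum : ∑ i ∈ P.support, F i = 0 := by
    rw [← h0, aeval_def, eval₂_def, Polynomial.sum_def]
    rfl
  have hval : ∀ i ∈ P.support, v (F i) = v (P.coeff i : Ω) + i * v f := fun i hi => by
    rw [hF]
    simp only
    rw [v.map_mul (hc i hi) (pow_ne_zero _ hf), v.map_pow hf]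
  have key : ∀ i ∈ P.support, ∀ j ∈ P.support, i < j → v (F i) = v (F j) → False := by
    intro i hi j hj hij h1
    rw [hval i hi, hval j hj] at h1
    refine hcon (j - i) (by omega) ((Nat.sub_le _ _).trans (le_natDegree_of_mem_supp j hj)) ?_
    have h2 : ((j - i : ℕ) : ℝ) * v f = v (P.coeff i : Ω) - v (P.coeff j : Ω) := by
      rw [Nat.cast_sub hij.le]
      linarith
    rw [h2]
    exact G.sub_mem (hG _ (P.coeff i).2 (hc i hi)) (hG _ (P.coeff j).2 (hc j hj))
  obtain ⟨i, hi, h1, -⟩ := val_sum_distinct (v := v) P.support F hne (fun i hi j hj h1 => by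
    rcases lt_trichotomy i j with h2 | h2 | h2
    · exact (key i hi j hj h2 h1).elim
    · exact h2
    · exact (key j hj i hi h2 h1.symm).elim) (support_nonempty.2 hP)
  exact h1 hsum

/-- The values of a finite extension are in a finitely generated group. -/
theorem exists_fg_fin {v : RVal Ω} {L : IntermediateField k Ω} {G : AddSubgroup ℝ} (hGfg : G.FG)
    (hG : ∀ g ∈ L, g ≠ 0 → v g ∈ G) {α : Ω} (hα : IsAlgebraic L α) :
    ∃ G' : AddSubgroup ℝ, G'.FG ∧ ∀ q : L[X], aeval α q ≠ 0 → v (aeval α q) ∈ G' := by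
  classical
  have hint := hα.isIntegral
  have : FiniteDimensional L (IntermediateField.adjoin L {α}) :=
    IntermediateField.adjoin.finiteDimensional hint
  set n := Module.finrank L (IntermediateField.adjoin L {α}) with hn
  obtain ⟨S, hS⟩ := hGfg
  set d : ℝ := (n.factorial : ℝ) with hd
  have hd0 : d ≠ 0 := by
    rw [hd]
    exact_mod_cast n.factorial_ne_zero
  refine ⟨AddSubgroup.closure ((S.image fun x => x / d : Finset ℝ) : Set ℝ), ⟨_, rfl⟩, ?_⟩
  have hdiv : ∀ x ∈ G, x / d ∈ AddSubgroup.closure ((S.image fun x => x / d : Finset ℝ) : Set ℝ) := by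
    intro x hx
    rw [← hS] at hx
    induction hx using AddSubgroup.closure_induction with
    | mem x hx =>
      refine AddSubgroup.subset_closure ?_
      rw [Finset.coe_image]
      exact ⟨x, hx, rfl⟩
    | zero => rw [zero_div]; exact zero_mem _
    | add x y _ _ h1 h2 => rw [add_div]; exact add_mem h1 h2
    | neg x _ h1 => rw [neg_div]; exact neg_mem h1
  intro q hq
  have hmem : aeval α q ∈ IntermediateField.adjoin L {α} :=
    IntermediateField.algebra_adjoin_le_adjoin L _ (aeval_mem_adjoin_singleton L α)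
  set y : IntermediateField.adjoin L {α} := ⟨aeval α q, hmem⟩ with hy
  have hyint : IsIntegral L y := Algebra.IsIntegral.isIntegral y
  have h1 : aeval (aeval α q) (minpoly L y) = 0 := by
    have h2 := congrArg (algebraMap (IntermediateField.adjoin L {α}) Ω) (minpoly.aeval L y)
    rw [← aeval_algebraMap_apply, map_zero] at h2
    exact h2
  obtain ⟨N, hN0, hN1, hN2⟩ := exists_nsmul hG hq (minpoly.ne_zero hyint) h1
  have hNn : N ∣ n.factorial :=
    Nat.dvd_factorial hN0 (hN1.trans (minpoly.natDegree_le y))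
  obtain ⟨m, hm⟩ := hNn
  have h2 : d * v (aeval α q) ∈ G := by
    have h3 := G.nsmul_mem hN2 m
    rw [nsmul_eq_mul] at h3
    have h4 : d * v (aeval α q) = (m : ℝ) * ((N : ℝ) * v (aeval α q)) := by
      rw [hd, hm]
      push_cast
      ring
    rw [h4]
    exact h3
  have h3 := hdiv _ h2
  rwa [mul_div_cancel_left₀ _ hd0] at h3

theorem hasseDeriv_map' {R S : Type*} [Semiring R] [Semiring S] (f : R →+* S) (p : R[X]) (i : ℕ) :
    hasseDeriv i (p.map f) = (hasseDeriv i p).map f := by
  ext n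
  rw [hasseDeriv_coeff, coeff_map, coeff_map, hasseDeriv_coeff, map_mul, map_natCast]

/-- The value of `q z` if the value of `z - α` is irrational. -/
theorem val_aeval_irr {W : RVal Ω} {L : IntermediateField k Ω} {z α : Ω} (hzα : z - α ≠ 0)
    (hα : IsAlgebraic L α)
    (hirr : ∀ (m : ℤ) (f : Ω), m ≠ 0 → f ≠ 0 → IsAlgebraic L f → W f ≠ m * W (z - α))
    (q : L[X]) (hq : aeval z q ≠ 0) :
    ∃ j : ℕ, aeval α (hasseDeriv j q) ≠ 0 ∧
      W (aeval z q) = W (aeval α (hasseDeriv j q)) + j * W (z - α) := by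
  classical
  set Q : Polynomial Ω := q.map (algebraMap L Ω) with hQ
  set T : Polynomial Ω := taylor α Q with hT
  have hcoef : ∀ i, T.coeff i = aeval α (hasseDeriv i q) := by
    intro i
    rw [hT, taylor_coeff, hQ, hasseDeriv_map', eval_map, aeval_def]
  have halg : ∀ i, IsAlgebraic L (T.coeff i) := by
    intro i
    rw [hcoef]
    have h1 : α ∈ algebraicClosure L Ω := mem_algebraicClosure_iff.2 hα
    rw [← mem_algebraicClosure_iff, aeval_eq_sum_range]
    exact sum_mem fun j _ => (algebraicClosure L Ω).smul_mem (pow_mem h1 j)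
  have hev : aeval z q = ∑ i ∈ T.support, T.coeff i * (z - α) ^ i := by
    have h1 : aeval z q = T.eval (z - α) := by
      rw [hT, taylor_eval_sub, hQ, eval_map, aeval_def]
    rw [h1, eval_eq_sum, Polynomial.sum_def]
  have hT0 : T ≠ 0 := by
    rintro h1
    rw [h1, support_zero, Finset.sum_empty] at hev
    exact hq hev
  have hne : ∀ i ∈ T.support, T.coeff i * (z - α) ^ i ≠ 0 := fun i hi =>
    mul_ne_zero (mem_support_iff.1 hi) (pow_ne_zero _ hzα)
  have hval : ∀ i ∈ T.support, W (T.coeff i * (z - α) ^ i) = W (T.coeff i) + i * W (z - α) :=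
    fun i hi => by
      rw [W.map_mul (mem_support_iff.1 hi) (pow_ne_zero _ hzα), W.map_pow hzα]
  have key : ∀ i ∈ T.support, ∀ j ∈ T.support, i < j →
      W (T.coeff i * (z - α) ^ i) = W (T.coeff j * (z - α) ^ j) → False := by
    intro i hi j hj hij h1
    rw [hval i hi, hval j hj] at h1
    have hi0 := mem_support_iff.1 hi
    have hj0 := mem_support_iff.1 hj
    refine hirr ((j : ℤ) - i) (T.coeff i / T.coeff j) (by omega) (div_ne_zero hi0 hj0) ?_ ?_
    · rw [div_eq_mul_inv]
      exact (halg i).mul (halg j).inv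
    · rw [W.map_div hi0 hj0]
      push_cast
      linarith
  obtain ⟨i, hi, -, h1⟩ := val_sum_distinct (v := W) T.support
    (fun i => T.coeff i * (z - α) ^ i) hne (fun i hi j hj h1 => by
      rcases lt_trichotomy i j with h2 | h2 | h2
      · exact (key i hi j hj h2 h1).elim
      · exact h2
      · exact (key j hj i hi h2 h1.symm).elim) (support_nonempty.2 hT0)
  refine ⟨i, ?_, ?_⟩
  · rw [← hcoef]
    exact mem_support_iff.1 hi
  · rw [← hcoef, ← hval i hi, ← h1, hev]

/-- The values of `L(z)` if the value of `z - α` is irrational. -/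
theorem exists_fg_irr {W : RVal Ω} {L : IntermediateField k Ω} {G' : AddSubgroup ℝ}
    (hfg : G'.FG) {z α : Ω} (hz : Transcendental L z) (hα : IsAlgebraic L α)
    (hG' : ∀ q : L[X], aeval α q ≠ 0 → W (aeval α q) ∈ G')
    (hirr : ∀ (m : ℤ) (f : Ω), m ≠ 0 → f ≠ 0 → IsAlgebraic L f → W f ≠ m * W (z - α)) :
    ∃ G₁ : AddSubgroup ℝ, G₁.FG ∧ ∀ g ∈ adj L z, g ≠ 0 → W g ∈ G₁ := by
  have hzα : z - α ≠ 0 := by
    intro h1
    exact hz (by rw [sub_eq_zero.1 h1]; exact hα)
  refine ⟨G' ⊔ AddSubgroup.zmultiples (W (z - α)),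
    hfg.sup ⟨{W (z - α)}, by rw [Finset.coe_singleton, AddSubgroup.zmultiples_eq_closure]⟩, ?_⟩
  have hq : ∀ q : L[X], aeval z q ≠ 0 →
      W (aeval z q) ∈ G' ⊔ AddSubgroup.zmultiples (W (z - α)) := by
    intro q hq
    obtain ⟨j, h1, h2⟩ := val_aeval_irr hzα hα hirr q hq
    rw [h2]
    refine add_mem (AddSubgroup.mem_sup_left (hG' _ h1)) (AddSubgroup.mem_sup_right ?_)
    rw [AddSubgroup.mem_zmultiples_iff]
    exact ⟨j, by simp⟩
  intro g hg hg0
  rw [adj_eq] at hg
  obtain ⟨r, s, h1⟩ := (IntermediateField.mem_adjoin_simple_iff L g).1 hg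
  have hr : aeval z r ≠ 0 := by
    intro h2
    rw [h2, zero_div] at h1
    exact hg0 h1
  have hs : aeval z s ≠ 0 := by
    intro h2
    rw [h2, div_zero] at h1
    exact hg0 h1
  rw [h1, W.map_div hr hs]
  exact sub_mem (hq r hr) (hq s hs)

theorem alg_zpow {L : IntermediateField k Ω} {x : Ω} (hx : IsAlgebraic L x) (n : ℤ) :
    IsAlgebraic L (x ^ n) := by
  have h1 : x ∈ algebraicClosure L Ω := mem_algebraicClosure_iff.2 hx
  exact mem_algebraicClosure_iff.1 (zpow_mem h1 n)

/-- Independence of an irrational value. -/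
theorem linInd_cons {W : RVal Ω} {L : IntermediateField k Ω} {r : ℕ} {x : Fin r → Ω}
    (hxL : ∀ i, IsAlgebraic L (x i)) (hx0 : ∀ i, x i ≠ 0)
    (hx : LinearIndependent ℚ fun i => W (x i)) {x' c : Ω} {b : ℝ} {j : ℕ} (hj : j ≠ 0)
    (hc0 : c ≠ 0) (hc : IsAlgebraic L c) (hx' : W x' = W c + j * b)
    (hirr : ∀ (m : ℤ) (f : Ω), m ≠ 0 → f ≠ 0 → IsAlgebraic L f → W f ≠ m * b) :
    LinearIndependent ℚ fun i => W ((Fin.cons x' x : Fin (r + 1) → Ω) i) := by
  classical
  rw [← LinearIndependent.iff_fractionRing (R := ℤ) (K := ℚ)] at hx ⊢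
  rw [Fintype.linearIndependent_iff] at hx ⊢
  intro g hg
  rw [Fin.sum_univ_succ] at hg
  simp only [Fin.cons_zero, Fin.cons_succ, zsmul_eq_mul] at hg
  have h0 : g 0 = 0 := by
    by_contra h1
    have hprod : ∏ i, x i ^ (-g i.succ) ≠ 0 :=
      Finset.prod_ne_zero_iff.2 fun i _ => zpow_ne_zero _ (hx0 i)
    have hprodalg : IsAlgebraic L (∏ i, x i ^ (-g i.succ)) := by
      have h2 : ∀ i, IsAlgebraic L (x i ^ (-g i.succ)) := fun i =>
        alg_zpow (hxL i) _
      have h3 : ∀ S : Finset (Fin r), IsAlgebraic L (∏ i ∈ S, x i ^ (-g i.succ)) := by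
        intro S
        induction S using Finset.induction_on with
        | empty => rw [Finset.prod_empty]; exact isAlgebraic_one
        | insert a S ha ih => rw [Finset.prod_insert ha]; exact (h2 a).mul ih
      exact h3 _
    refine hirr (g 0 * j) (c ^ (-g 0) * ∏ i, x i ^ (-g i.succ))
      (mul_ne_zero h1 (by exact_mod_cast hj)) (mul_ne_zero (zpow_ne_zero _ hc0) hprod)
      ((alg_zpow hc _).mul hprodalg) ?_
    rw [W.map_mul (zpow_ne_zero _ hc0) hprod, W.map_zpow hc0,
      W.map_prod _ _ fun i _ => zpow_ne_zero _ (hx0 i)]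
    have h2 : ∑ i, W (x i ^ (-g i.succ)) = -∑ i, (g i.succ : ℝ) * W (x i) := by
      rw [← Finset.sum_neg_distrib]
      refine Finset.sum_congr rfl fun i _ => ?_
      rw [W.map_zpow (hx0 i)]
      push_cast
      ring
    rw [h2]
    rw [hx'] at hg
    push_cast
    linarith
  rw [h0, Int.cast_zero, zero_mul, zero_add] at hg
  have h1 := hx (fun i => g i.succ) (by
    simp only [zsmul_eq_mul]
    exact hg)
  intro i
  refine Fin.cases h0 (fun i => h1 i) i

end I4

open Q5 I4 in
/-- The induction (the other rows as hypotheses). -/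
theorem lus_of_basis_irr_of [IsAlgClosed k] [IsAlgClosed Ω] (δ : ℕ)
    (H : ∀ (v : RVal Ω) (_ : Ctx0 k v) (E : IntermediateField k Ω) (_ : E.FG)
      (_ : ∀ g : Ω, IsAlgebraic E g) (_ : ∃ a ∈ E, a ≠ 0 ∧ 0 < v a) (_ : DefL v E δ)
      (_ : ∃ G : AddSubgroup ℝ, G.FG ∧ ∀ g ∈ E, g ≠ 0 → v g ∈ G),
      LUs v (algebraMap k Ω).range E.toSubfield)
    (H2 : ∀ v : RVal Ω, Ctx0 k v → ∀ L : IntermediateField k Ω, (∃ a ∈ L, a ≠ 0 ∧ 0 < v a) →
      ∀ w θ : Ω, Transcendental L w → IsSeparable (adj L w) θ → LimAlg v L w →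
        (∀ g : Ω, IsAlgebraic (adj L w) g) →
        ∃ z : Ω, Transcendental L z ∧ LimAlg v L z ∧
          hen v (adj (adj L w) θ) = hen v (adj L z))
    (H3 : ∀ v : RVal Ω, Ctx0 k v → ∀ L : IntermediateField k Ω, L.FG → ∀ c₁ ∈ L, ∀ c₂ ∈ L,
      c₁ ≠ 0 → c₂ ≠ 0 → LinearIndependent ℚ ![v c₁, v c₂] → ∀ z : Ω, Transcendental L z →
      (∀ g : Ω, IsAlgebraic (adj L z) g) → LimAlg v L z →
      (∀ (W : RVal Ω) (α : Ω), Ctx0 k W → (∀ f, f ≠ 0 → IsAlgebraic L f → W f = v f) →
        IsAlgebraic L α →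
        (∀ (m : ℤ) (f : Ω), m ≠ 0 → f ≠ 0 → IsAlgebraic L f → v f ≠ m * W (z - α)) →
        LUs W (algebraMap k Ω).range (adj L z).toSubfield) →
      LUs v (algebraMap k Ω).range (adj L z).toSubfield)
    (H5b : ∀ v : RVal Ω, ∀ C : IntermediateField k Ω, (∃ a ∈ C, a ≠ 0 ∧ 0 < v a) →
      ∀ S : Set Ω, (∀ s ∈ S, LimAlg v C s) → ∀ e : Ω,
        IsAlgebraic (IntermediateField.adjoin k ((C : Set Ω) ∪ S)) e → LimAlg v C e) :
    ∀ (s m : ℕ) (v : RVal Ω) (_ : Ctx0 k v) (t : Fin m → Ω) (t' : Fin s → Ω)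
      (_ : AlgebraicIndependent k (Sum.elim t t')) (E : IntermediateField k Ω) (_ : E.FG)
      (_ : ∀ i, t i ∈ E) (_ : ∀ i, t' i ∈ E)
      (_ : ∀ e ∈ E, IsSeparable (IntermediateField.adjoin k (Set.range t ∪ Set.range t')) e)
      (_ : ∀ g : Ω, IsAlgebraic E g)
      (_ : ∃ G : AddSubgroup ℝ, G.FG ∧ ∀ g ∈ E, g ≠ 0 → v g ∈ G)
      (_ : ∃ c₁ ∈ IntermediateField.adjoin k (Set.range t),
        ∃ c₂ ∈ IntermediateField.adjoin k (Set.range t), c₁ ≠ 0 ∧ c₂ ≠ 0 ∧
          LinearIndependent ℚ ![v c₁, v c₂])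
      (_ : DefL v (IntermediateField.adjoin k (Set.range t)) δ)
      (_ : ∀ i, LimAlg v (IntermediateField.adjoin k (Set.range t)) (t' i)),
      LUs v (algebraMap k Ω).range E.toSubfield := by
  classical
  have hposof : ∀ (v : RVal Ω) (C : IntermediateField k Ω) (c₁ c₂ : Ω), c₁ ∈ C → c₁ ≠ 0 →
      LinearIndependent ℚ ![v c₁, v c₂] → ∃ a ∈ C, a ≠ 0 ∧ 0 < v a := by
    intro v C c₁ c₂ h1 h2 h3
    have h4 : v c₁ ≠ 0 := h3.ne_zero 0
    rcases lt_or_gt_of_ne h4 with h5 | h5
    · exact ⟨c₁⁻¹, inv_mem h1, inv_ne_zero h2, by rw [v.map_inv h2]; linarith⟩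
    · exact ⟨c₁, h1, h2, h5⟩
  intro s
  induction s with
  | zero =>
    intro m v h t t' _ E hE ht _ hsep hΩ hG hcc hD _
    have hle : IntermediateField.adjoin k (Set.range t) ≤ E := by
      rw [IntermediateField.adjoin_le_iff]
      rintro _ ⟨i, rfl⟩
      exact ht i
    have hre : (Set.range t ∪ Set.range t' : Set Ω) = Set.range t := by
      rw [Set.range_eq_empty t', Set.union_empty]
    obtain ⟨c₁, hc₁, c₂, hc₂, hc₁0, hc₂0, hci⟩ := hcc
    obtain ⟨a, ha, ha0, hav⟩ := hposof v _ c₁ c₂ hc₁ hc₁0 hci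
    refine H v h E hE hΩ ⟨a, hle ha, ha0, hav⟩ ?_ hG
    obtain ⟨r, q, x, y, h1, h2, h3, h4, h5⟩ := hD
    refine ⟨r, q, x, y, ?_, fun i => ⟨hle (h2 i).1, (h2 i).2⟩, h3,
      fun i => ⟨hle (h4 i).1, (h4 i).2⟩, h5⟩
    rw [trdeg_eq_of_alg hle fun a ha => by
      have h6 := hsep a ha
      rw [hre] at h6
      exact h6.isIntegral.isAlgebraic]
    exact h1
  | succ s ih =>
    intro m v h t t' hai E hE ht ht' hsep hΩ hG hcc hD hlim
    set C : IntermediateField k Ω := IntermediateField.adjoin k (Set.range t) with hC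
    set t₁ : Fin s → Ω := fun i => t' i.castSucc with ht₁
    set w : Ω := t' (Fin.last s) with hw'
    set L : IntermediateField k Ω := IntermediateField.adjoin k (Set.range t ∪ Set.range t₁)
      with hL
    have hLfg : L.FG := IntermediateField.fg_adjoin_of_finite
      ((Set.finite_range t).union (Set.finite_range t₁))
    have hCL : C ≤ L := IntermediateField.adjoin.mono k _ _ Set.subset_union_left
    have hadj : adj L w = IntermediateField.adjoin k (Set.range t ∪ Set.range t') := by
      rw [adj, hL, ← IntermediateField.adjoin_union]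
      congr 1
      ext x
      constructor
      · rintro ((h1 | ⟨j, rfl⟩) | rfl)
        · exact Or.inl h1
        · exact Or.inr ⟨j.castSucc, rfl⟩
        · exact Or.inr ⟨Fin.last s, rfl⟩
      · rintro (h1 | ⟨j, rfl⟩)
        · exact Or.inl (Or.inl h1)
        · refine Fin.lastCases ?_ (fun j => ?_) j
          · exact Or.inr rfl
          · exact Or.inl (Or.inr ⟨j, rfl⟩)
    -- independence
    have hai₁ : AlgebraicIndependent k (Sum.elim t t₁) := by
      have h1 := hai.comp (Sum.map id Fin.castSucc)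
        (Function.Injective.sumMap Function.injective_id (Fin.castSucc_injective s))
      have h2 : Sum.elim t t' ∘ Sum.map id Fin.castSucc = Sum.elim t t₁ := by
        funext i
        rcases i with i | i <;> rfl
      rwa [h2] at h1
    have hw : Transcendental L w := by
      rw [hL, IntermediateField.transcendental_adjoin_iff]
      have h1 := hai.transcendental_adjoin (s := {j | j ≠ Sum.inr (Fin.last s)})
        (i := Sum.inr (Fin.last s)) (fun h1 => h1 rfl)
      have h2 : Sum.elim t t' '' {j | j ≠ Sum.inr (Fin.last s)} =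
          Set.range t ∪ Set.range t₁ := by
        ext x
        constructor
        · rintro ⟨i | i, hi, rfl⟩
          · exact Or.inl ⟨i, rfl⟩
          · refine Or.inr ?_
            have hi' : i ≠ Fin.last s := fun h3 => hi (by rw [h3])
            obtain ⟨j, rfl⟩ := Fin.exists_castSucc_eq.2 hi'
            exact ⟨j, rfl⟩
        · rintro (⟨i, rfl⟩ | ⟨i, rfl⟩)
          · exact ⟨Sum.inl i, fun h3 => (by cases h3), rfl⟩
          · refine ⟨Sum.inr i.castSucc, fun h3 => ?_, rfl⟩
            have h4 := Sum.inr.inj h3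
            exact (Fin.castSucc_lt_last i).ne h4
      rw [h2] at h1
      exact h1
    -- a primitive element
    obtain ⟨S, hS⟩ := id hE
    have hSE : ∀ s ∈ S, s ∈ E := by
      intro s hs
      rw [← hS]
      exact IntermediateField.subset_adjoin k _ hs
    have hwE : adj L w ≤ E := by
      rw [hadj, IntermediateField.adjoin_le_iff]
      rintro _ (⟨i, rfl⟩ | ⟨i, rfl⟩)
      · exact ht i
      · exact ht' i
    have hsep' : ∀ e ∈ E, IsSeparable (adj L w) e := fun e he => by
      rw [hadj]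
      exact hsep e he
    obtain ⟨θ, hθ, hEθ'⟩ := D2P.H0aux.exists_prim (T := adj L w) S fun s hs =>
      hsep' s (hSE s hs)
    have hEθ : adj (adj L w) θ = E := by
      rw [hEθ', hS]
      exact sup_eq_right.2 hwE
    obtain ⟨c₁, hc₁, c₂, hc₂, hc₁0, hc₂0, hci⟩ := hcc
    obtain ⟨a, haC, ha0, hav⟩ := hposof v C c₁ c₂ hc₁ hc₁0 hci
    have hposL : ∃ a ∈ L, a ≠ 0 ∧ 0 < v a := ⟨a, hCL haC, ha0, hav⟩
    have hmonoL : ∀ {x : Ω}, LimAlg v C x → LimAlg v L x := by
      intro x hx b
      obtain ⟨α, hα, h1⟩ := hx b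
      exact ⟨α, isAlgebraic_mono hCL hα, h1⟩
    obtain ⟨z, hz, hzl, hh⟩ := H2 v h L hposL w θ hw hθ (hmonoL (hlim _)) fun g =>
      D2P.isAlgebraic_trans (F := E) (fun a ha => (hsep' a ha).isIntegral.isAlgebraic) (hΩ g)
    rw [hEθ] at hh
    have hzfg : (adj L z).FG := D2P.fg_adj hLfg z
    have hΩz : ∀ g : Ω, IsAlgebraic (adj L z) g := fun g =>
      D2P.isAlgebraic_trans (F := E) (fun a ha => by
        have h1 : a ∈ hen v (adj L z) := by
          rw [← hh]
          exact D2P.le_hen _ ha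
        exact (mem_hen.1 h1).2.isIntegral.isAlgebraic) (hΩ g)
    refine lus_of_hen h.triv hE hzfg ⟨a, hwE ((mem_adj_self L w).2 (hCL haC)), ha0, hav⟩ hΩ hh ?_
    refine H3 v h L hLfg c₁ (hCL hc₁) c₂ (hCL hc₂) hc₁0 hc₂0 hci z hz hΩz hzl ?_
    -- the new valuation
    intro W α hW0 hWv hα hirr
    set b : ℝ := W (z - α) with hb
    have hLalg : ∀ {f : Ω}, f ∈ L → IsAlgebraic L f := fun hf => D2P.isAlgebraic_of_mem hf
    have hC₁ : IntermediateField.adjoin k (Set.range (Fin.cons z t : Fin (m + 1) → Ω)) =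
        adj C z := by
      rw [adj, hC, ← IntermediateField.adjoin_union, Fin.range_cons, Set.insert_eq,
        Set.union_comm]
    have hzL : adj L z =
        IntermediateField.adjoin k (Set.range (Fin.cons z t : Fin (m + 1) → Ω) ∪ Set.range t₁) := by
      rw [adj, hL, ← IntermediateField.adjoin_union, Fin.range_cons, Set.insert_eq]
      congr 1
      ext x
      simp only [Set.mem_union, Set.mem_singleton_iff]
      tauto
    have hlim₁ : ∀ x ∈ Set.range t₁, LimAlg v C x := by
      rintro _ ⟨i, rfl⟩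
      exact hlim i.castSucc
    have hfield : ∀ {e : Ω}, IsAlgebraic L e → LimAlg v C e := by
      intro e he
      refine H5b v C ⟨a, haC, ha0, hav⟩ (Set.range t₁) hlim₁ e (isAlgebraic_mono ?_ he)
      rw [hL]
      refine IntermediateField.adjoin.mono k _ _ (Set.union_subset_union_left _ ?_)
      exact IntermediateField.subset_adjoin k _
    -- irrationality for `W`
    have hirrW : ∀ (m : ℤ) (f : Ω), m ≠ 0 → f ≠ 0 → IsAlgebraic L f → W f ≠ m * b := by
      intro m f hm hf hfa
      rw [hWv f hf hfa]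
      exact hirr m f hm hf hfa
    -- the values of `L(z)`
    have hzα : z - α ≠ 0 := fun h1 => hz (by rw [sub_eq_zero.1 h1]; exact hα)
    obtain ⟨G, hGfg, hG⟩ := hG
    obtain ⟨G', hG'fg, hG'⟩ := exists_fg_fin (v := v) (L := L) hGfg
      (fun g hg => hG g (hwE ((mem_adj_self L w).2 hg))) hα
    have hG'W : ∀ q : L[X], aeval α q ≠ 0 → W (aeval α q) ∈ G' := by
      intro q hq
      rw [hWv _ hq]
      · exact hG' q hq
      · have h1 : α ∈ algebraicClosure L Ω := mem_algebraicClosure_iff.2 hα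
        rw [← mem_algebraicClosure_iff, aeval_eq_sum_range]
        exact sum_mem fun j _ => (algebraicClosure L Ω).smul_mem (pow_mem h1 j)
    have hG₁ := exists_fg_irr hG'fg hz hα hG'W hirrW
    -- the approximation over `C`
    obtain ⟨α', hα', h1⟩ := hfield hα (b + 1)
    have hα'L : IsAlgebraic L α' := isAlgebraic_mono hCL hα'
    have hWα' : W (z - α') = b := by
      by_cases h2 : α - α' = 0
      · rw [← sub_eq_zero.1 h2]
      · have h3 : b < W (α - α') := by
          rw [hWv _ h2 (hα.sub hα'L)]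
          have := h1 h2
          linarith
        have h4 := W.add_of_lt hzα h2 h3
        rw [sub_add_sub_cancel] at h4
        exact h4.2
    have hzα' : z - α' ≠ 0 := fun h1 => hz (by rw [sub_eq_zero.1 h1]; exact hα'L)
    have hirrC : ∀ (m : ℤ) (f : Ω), m ≠ 0 → f ≠ 0 → IsAlgebraic C f → W f ≠ m * W (z - α') := by
      intro m f hm hf hfa
      rw [hWα']
      exact hirrW m f hm hf (isAlgebraic_mono hCL hfa)
    have hzC : Transcendental C z := fun h1 => hz (isAlgebraic_mono hCL h1)
    set P : C[X] := minpoly C α' with hP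
    have hP0 : aeval z P ≠ 0 := fun h1 => hzC ⟨P, minpoly.ne_zero hα'.isIntegral, h1⟩
    obtain ⟨j, hj0, hj⟩ := val_aeval_irr hzα' hα' hirrC P hP0
    rw [hWα'] at hj
    have hjne : j ≠ 0 := by
      rintro rfl
      rw [hasseDeriv_zero'] at hj0
      exact hj0 (minpoly.aeval C α')
    have hcalg : IsAlgebraic L (aeval α' (hasseDeriv j P)) := by
      have h2 : α' ∈ algebraicClosure C Ω := mem_algebraicClosure_iff.2 hα'
      refine isAlgebraic_mono hCL ?_
      rw [← mem_algebraicClosure_iff, aeval_eq_sum_range]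
      exact sum_mem fun j _ => (algebraicClosure C Ω).smul_mem (pow_mem h2 j)
    obtain ⟨r, q, x, y, hr1, hx1, hx2, hy1, hy2⟩ := hD
    have hCz : C ≤ adj C z := (mem_adj_self C z).2
    have hPmem : aeval z P ∈ adj C z := by
      rw [adj_eq]
      exact IntermediateField.algebra_adjoin_le_adjoin C _ (aeval_mem_adjoin_singleton C z)
    -- the independence of `z, t, t₁`
    have hai₂ : AlgebraicIndependent k (Sum.elim (Fin.cons z t : Fin (m + 1) → Ω) t₁) := by
      have h3 : Transcendental (Algebra.adjoin k (Set.range (Sum.elim t t₁))) z := by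
        rw [← IntermediateField.transcendental_adjoin_iff, Set.Sum.elim_range]
        exact hz
      have h4 := (hai₁.option_iff_transcendental z).2 h3
      let ε : Fin (m + 1) ⊕ Fin s → Option (Fin m ⊕ Fin s) := fun i =>
        Sum.elim (fun i => Fin.cases none (fun j => some (Sum.inl j)) i)
          (fun j => some (Sum.inr j)) i
      have hε : Function.Injective ε := by
        rintro (i | i) (j | j) hij
        · revert hij
          refine Fin.cases ?_ (fun i => ?_) i <;> refine Fin.cases ?_ (fun j => ?_) j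
          · intro _; rfl
          · intro hij; simp [ε] at hij
          · intro hij; simp [ε] at hij
          · intro hij
            simp only [ε, Sum.elim_inl, Fin.cases_succ, Option.some.injEq, Sum.inl.injEq] at hij
            rw [hij]
        · revert hij
          refine Fin.cases ?_ (fun i => ?_) i
          · intro hij; simp [ε] at hij
          · intro hij; simp [ε] at hij
        · revert hij
          refine Fin.cases ?_ (fun j => ?_) j
          · intro hij; simp [ε] at hij
          · intro hij; simp [ε] at hij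
        · simp only [ε, Sum.elim_inr, Option.some.injEq, Sum.inr.injEq] at hij
          rw [hij]
      have h5 := h4.comp ε hε
      have h6 : (fun o : Option (Fin m ⊕ Fin s) => o.elim z (Sum.elim t t₁)) ∘ ε =
          Sum.elim (Fin.cons z t : Fin (m + 1) → Ω) t₁ := by
        funext i
        rcases i with i | i
        · refine Fin.cases ?_ (fun j => ?_) i
          · rfl
          · rfl
        · rfl
      rwa [h6] at h5
    have hait : AlgebraicIndependent k t := hai.comp Sum.inl Sum.inl_injective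
    have haizt : AlgebraicIndependent k (Fin.cons z t : Fin (m + 1) → Ω) :=
      hai₂.comp Sum.inl Sum.inl_injective
    have htrC : Algebra.trdeg k C = (m : Cardinal) := by
      rw [hC, trdeg_adjoin_eq hait.to_subtype_range]
      have h3 := Cardinal.mk_range_eq_of_injective hait.injective
      simpa using h3
    have htrC₁ : Algebra.trdeg k (adj C z) = ((m + 1 : ℕ) : Cardinal) := by
      rw [← hC₁, trdeg_adjoin_eq haizt.to_subtype_range]
      have h3 := Cardinal.mk_range_eq_of_injective haizt.injective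
      simpa using h3
    have hmr : m ≤ r + q + δ := by
      rw [htrC] at hr1
      exact_mod_cast hr1
    refine ih (m + 1) W hW0 (Fin.cons z t) t₁ hai₂ (adj L z) hzfg ?_ ?_ ?_ hΩz hG₁ ?_ ?_ ?_
    · intro i
      refine Fin.cases ?_ (fun j => ?_) i
      · exact (mem_adj_self L z).1
      · exact (mem_adj_self L z).2 (hCL (IntermediateField.subset_adjoin k _ ⟨j, rfl⟩))
    · intro i
      exact (mem_adj_self L z).2 (IntermediateField.subset_adjoin k _ (Or.inr ⟨i, rfl⟩))
    · intro e he
      rw [hzL] at he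
      exact isSeparable_algebraMap (F := IntermediateField.adjoin k
        (Set.range (Fin.cons z t : Fin (m + 1) → Ω) ∪ Set.range t₁))
        (⟨e, he⟩ : IntermediateField.adjoin k
        (Set.range (Fin.cons z t : Fin (m + 1) → Ω) ∪ Set.range t₁))
    · rw [hC₁]
      refine ⟨c₁, hCz hc₁, c₂, hCz hc₂, hc₁0, hc₂0, ?_⟩
      rw [hWv c₁ hc₁0 (hLalg (hCL hc₁)), hWv c₂ hc₂0 (hLalg (hCL hc₂))]
      exact hci
    · rw [hC₁]
      refine ⟨r + 1, q, Fin.cons (aeval z P) x, y, ?_, ?_, ?_, ?_, ?_⟩
      · rw [htrC₁]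
        have h3 : m + 1 ≤ r + 1 + q + δ := by omega
        exact_mod_cast h3
      · intro i
        refine Fin.cases ?_ (fun i => ?_) i
        · exact ⟨hPmem, hP0⟩
        · exact ⟨hCz (hx1 i).1, (hx1 i).2⟩
      · refine linInd_cons (L := L) (fun i => hLalg (hCL (hx1 i).1)) (fun i => (hx1 i).2) ?_ hjne
          hj0 hcalg hj hirrW
        have h3 : (fun i => W (x i)) = fun i => v (x i) := by
          funext i
          exact hWv _ (hx1 i).2 (hLalg (hCL (hx1 i).1))
        rw [h3]
        exact hx2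
      · intro i
        refine ⟨hCz (hy1 i).1, fun h0 => ?_⟩
        rw [hWv _ h0 (hLalg (hCL (hy1 i).1))]
        exact (hy1 i).2 h0
      · intro Q hQ
        obtain ⟨h3, h4⟩ := hy2 Q hQ
        exact ⟨h3, by rw [hWv _ h3 (hLalg (aeval_mem (fun i => hCL (hy1 i).1) Q)), h4]⟩
    · rw [hC₁]
      intro i c
      obtain ⟨β, hβ, h3⟩ := hlim i.castSucc c
      refine ⟨β, isAlgebraic_mono hCz hβ, fun h0 => ?_⟩
      rw [hWv _ h0]
      · exact h3 h0
      · exact (hLalg (IntermediateField.subset_adjoin k _ (Or.inr ⟨i, rfl⟩))).sub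
          (isAlgebraic_mono hCL hβ)

end Pool.Agent.TW
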