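import Pool.Agent.Lib.TWQ.QXa
import Pool.Agent.Lib.D2.Ctx0
import Pool.Agent.Lib.TW.T1

/-!
# TANK W, row IX: discrete valuations with residue field `k`
-/

set_option autoImplicit false

open Polynomial

namespace Pool.Agent.TW

open Pool.Agent.H15JM (RVal)
open Pool.Agent.LU1 (VPos)
open Pool.Agent.D2 (Ctx0)

universe u

variable {k Ω : Type u} [Field k] [Field Ω] [Algebra k Ω] {v : RVal Ω}

namespace IX

theorem fg_of_le {G G' : AddSubgroup ℝ} (h : G ≤ G') (hG : G'.FG) : G.FG := by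
  have h1 : AddGroup.FG G' := (AddGroup.fg_iff_addSubgroup_fg _).2 hG
  have h2 : Module.Finite ℤ G' := Module.Finite.iff_addGroup_fg.2 h1
  have h3 : Module.Finite ℤ G :=
    Module.Finite.of_injective (AddSubgroup.inclusion h).toIntLinearMap
      (AddSubgroup.inclusion_injective h)
  exact (AddGroup.fg_iff_addSubgroup_fg _).1 (Module.Finite.iff_addGroup_fg.1 h3)

/-- Values commensurable with the generators of a finitely generated group of rank one. -/
theorem exists_step {G : AddSubgroup ℝ} (hG : G.FG) {γ : ℝ} (hγ : 0 < γ)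
    (hrk : ∀ g ∈ G, ∃ q : ℚ, g = q * γ) : ∃ δ : ℝ, 0 < δ ∧ ∀ g ∈ G, ∃ m : ℤ, g = m * δ := by
  classical
  obtain ⟨S, hS⟩ := hG
  choose! q hq using hrk
  have hSG : ∀ s ∈ S, s ∈ G := fun s hs => hS ▸ AddSubgroup.subset_closure hs
  let N : ℕ := ∏ s ∈ S, (q s).den
  have hN : 0 < N := Finset.prod_pos fun s _ => (q s).den_pos
  have hN' : (0 : ℝ) < N := by exact_mod_cast hN
  refine ⟨γ / N, div_pos hγ hN', fun g hg => ?_⟩
  have hle : G ≤ AddSubgroup.zmultiples (γ / N) := by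
    rw [← hS, AddSubgroup.closure_le]
    intro s hs
    have hsG := hSG s hs
    obtain ⟨d, hd⟩ : (q s).den ∣ N := Finset.dvd_prod_of_mem _ hs
    refine AddSubgroup.mem_zmultiples_iff.2 ⟨(q s).num * d, Eq.trans ?_ (hq s hsG).symm⟩
    have h1 : ((q s : ℚ) : ℝ) = (q s).num / (q s).den := by
      exact_mod_cast (Rat.num_div_den (q s)).symm
    have h2 : ((q s).den : ℝ) ≠ 0 := by exact_mod_cast (q s).den_ne_zero
    have h3 : (N : ℝ) = (q s).den * d := by rw [hd]; push_cast; ring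
    have h4 : (d : ℝ) ≠ 0 := by
      intro h0
      rw [h0, mul_zero] at h3
      exact hN'.ne' h3
    rw [h1, h3, zsmul_eq_mul]
    push_cast
    field_simp
  obtain ⟨m, hm⟩ := AddSubgroup.mem_zmultiples_iff.1 (hle hg)
  exact ⟨m, by rw [← hm, zsmul_eq_mul]⟩

/-- A uniformizer. -/
theorem exists_unif {E : IntermediateField k Ω} (hpos : ∃ a ∈ E, a ≠ 0 ∧ 0 < v a) {δ : ℝ}
    (hδ : 0 < δ) (hE : ∀ g ∈ E, g ≠ 0 → ∃ m : ℤ, v g = m * δ) :
    ∃ x ∈ E, x ≠ 0 ∧ 0 < v x ∧ ∀ g ∈ E, g ≠ 0 → ∃ m : ℤ, v g = m * v x := by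
  classical
  obtain ⟨a, haE, ha0, hav⟩ := hpos
  have hex : ∃ n : ℕ, 0 < n ∧ ∃ g ∈ E, g ≠ 0 ∧ v g = n * δ := by
    obtain ⟨m, hm⟩ := hE a haE ha0
    have hm0 : 0 < m := by
      rw [hm] at hav
      have := (pos_iff_pos_of_mul_pos hav).2 hδ
      exact_mod_cast this
    refine ⟨m.toNat, by omega, a, haE, ha0, ?_⟩
    rw [hm]
    congr 1
    have : ((m.toNat : ℤ) : ℝ) = (m : ℝ) := by rw [Int.toNat_of_nonneg hm0.le]
    exact_mod_cast this.symm
  obtain ⟨hn0, x, hxE, hx0, hxv⟩ := Nat.find_spec hex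
  have hxpos : 0 < v x := by
    rw [hxv]
    exact mul_pos (by exact_mod_cast hn0) hδ
  refine ⟨x, hxE, hx0, hxpos, fun g hg hg0 => ?_⟩
  set m : ℤ := ⌊v g / v x⌋ with hm
  refine ⟨m, ?_⟩
  have h1 : (m : ℝ) * v x ≤ v g := by
    have := Int.floor_le (v g / v x)
    rwa [le_div_iff₀ hxpos] at this
  have h2 : v g < (m + 1) * v x := by
    have := Int.lt_floor_add_one (v g / v x)
    rwa [div_lt_iff₀ hxpos] at this
  by_contra hne
  have h3 : (m : ℝ) * v x < v g := lt_of_le_of_ne h1 (Ne.symm hne)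
  have hgx : g / x ^ m ∈ E := div_mem hg (zpow_mem hxE m)
  have hgx0 : g / x ^ m ≠ 0 := div_ne_zero hg0 (zpow_ne_zero _ hx0)
  have hval : v (g / x ^ m) = v g - m * v x := by
    rw [v.map_div hg0 (zpow_ne_zero _ hx0), v.map_zpow hx0]
  obtain ⟨n, hn⟩ := hE _ hgx hgx0
  have hn1 : 0 < n := by
    have h4 : 0 < (n : ℝ) * δ := by rw [← hn, hval]; linarith
    have := (pos_iff_pos_of_mul_pos h4).2 hδ
    exact_mod_cast this
  have hn2 : n.toNat < Nat.find hex := by
    have h4 : (n : ℝ) * δ < (Nat.find hex : ℝ) * δ := by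
      rw [← hn, hval, ← hxv]
      linarith
    have h5 : (n : ℝ) < (Nat.find hex : ℝ) := lt_of_mul_lt_mul_right h4 hδ.le
    have h6 : n < (Nat.find hex : ℤ) := by exact_mod_cast h5
    omega
  refine Nat.find_min hex hn2 ⟨by omega, g / x ^ m, hgx, hgx0, ?_⟩
  rw [hn]
  congr 1
  have : ((n.toNat : ℤ) : ℝ) = (n : ℝ) := by rw [Int.toNat_of_nonneg hn1.le]
  exact_mod_cast this.symm

/-- Expansion in a uniformizer. -/
theorem exists_expand (h : Ctx0 k v) {E : IntermediateField k Ω} {x : Ω} (hx : x ∈ E)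
    (hx0 : x ≠ 0) (hxv : 0 < v x) (hE : ∀ g ∈ E, g ≠ 0 → ∃ m : ℤ, v g = m * v x) {f : Ω}
    (hf : f ∈ E) (n : ℕ) :
    ∃ P ∈ IntermediateField.adjoin k {x}, v.Ge (v f + n * v x) (f - P) := by
  have hxL : x ∈ IntermediateField.adjoin k {x} := IntermediateField.mem_adjoin_simple_self k x
  have hLE : IntermediateField.adjoin k {x} ≤ E := by
    rw [IntermediateField.adjoin_le_iff]
    rintro _ rfl
    exact hx
  induction n with
  | zero =>
    refine ⟨0, zero_mem _, ?_⟩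
    rw [sub_zero, Nat.cast_zero, zero_mul, add_zero]
    exact fun _ => le_rfl
  | succ n ih =>
    obtain ⟨P, hP, h1⟩ := ih
    by_cases h0 : f - P = 0
    · refine ⟨P, hP, ?_⟩
      rw [h0]
      exact RVal.Ge.zero
    have hfPE : f - P ∈ E := sub_mem hf (hLE hP)
    obtain ⟨m, hm⟩ := hE _ hfPE h0
    have hxm : x ^ m ≠ 0 := zpow_ne_zero _ hx0
    have hg0 : (f - P) / x ^ m ≠ 0 := div_ne_zero h0 hxm
    have hgv : v ((f - P) / x ^ m) = 0 := by
      rw [v.map_div h0 hxm, v.map_zpow hx0, hm, sub_self]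
    obtain ⟨c, hc0, hc⟩ := h.res _ hg0 hgv
    refine ⟨P + algebraMap k Ω c * x ^ m,
      add_mem hP (mul_mem (algebraMap_mem _ c) (zpow_mem hxL m)), ?_⟩
    have h2 : f - (P + algebraMap k Ω c * x ^ m) =
        ((f - P) / x ^ m - algebraMap k Ω c) * x ^ m := by
      field_simp
      ring
    rw [h2]
    intro h3
    have h4 : (f - P) / x ^ m - algebraMap k Ω c ≠ 0 := left_ne_zero_of_mul h3
    have h5 := hc h4
    have h6 : (f - P) / x ^ m - algebraMap k Ω c ∈ E :=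
      sub_mem (div_mem hfPE (zpow_mem hx m)) (algebraMap_mem _ c)
    obtain ⟨l, hl⟩ := hE _ h6 h4
    have hl1 : (1 : ℝ) ≤ l := by
      rw [hl] at h5
      have := (pos_iff_pos_of_mul_pos h5).2 hxv
      have h7 : (0 : ℤ) < l := by exact_mod_cast this
      exact_mod_cast h7
    rw [v.map_mul h4 hxm, v.map_zpow hx0, hl]
    have h8 := h1 h0
    rw [hm] at h8
    push_cast
    nlinarith

/-- A field with a discrete valuation and residue field `k` is in the completion of `k(x)`. -/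
theorem limAlg_unif (h : Ctx0 k v) {E : IntermediateField k Ω} {x : Ω} (hx : x ∈ E)
    (hx0 : x ≠ 0) (hxv : 0 < v x) (hE : ∀ g ∈ E, g ≠ 0 → ∃ m : ℤ, v g = m * v x) {f : Ω}
    (hf : f ∈ E) : LimAlg v (IntermediateField.adjoin k {x}) f := by
  intro C
  obtain ⟨n, hn⟩ := exists_nat_gt ((C - v f) / v x)
  rw [div_lt_iff₀ hxv] at hn
  obtain ⟨P, hP, h1⟩ := exists_expand h hx hx0 hxv hE hf n
  refine ⟨P, isAlgebraic_algebraMap (⟨P, hP⟩ : IntermediateField.adjoin k {x}), fun h2 => ?_⟩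
  have h3 := h1 h2
  linarith

/-- The field `k(x)` has defect at most one. -/
theorem defL_adjoin_one (h : Triv k v) (x : Ω) :
    DefL v (IntermediateField.adjoin k {x}) 1 := by
  refine ⟨0, 0, Fin.elim0, Fin.elim0, ?_, fun i => i.elim0, linearIndependent_empty_type,
    fun i => i.elim0, fun P hP => ?_⟩
  · refine (trdeg_adjoin_le (k := k) ({x} : Set Ω)).trans ?_
    simp
  · obtain ⟨c, rfl⟩ := MvPolynomial.C_surjective (Fin 0) P
    have hc : c ≠ 0 := fun h0 => hP (by rw [h0, map_zero])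
    rw [MvPolynomial.aeval_C]
    exact ⟨(map_ne_zero (algebraMap k Ω)).2 hc, h c hc⟩

end IX

end Pool.Agent.TW
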