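import Pool.Agent.Lib.TWI.IXa
import Pool.Agent.Lib.TWI.I4a
import Pool.Agent.Lib.TWQ.Q8

/-!
# TANK W, row IX: theorem N for cores of defect at most two, residue field `k`
-/

set_option autoImplicit false

open Polynomial

namespace Pool.Agent.TW

open Pool.Agent.H15JM (RVal)
open Pool.Agent.LU1 (VPos)
open Pool.Agent.LUC (LUs)
open Pool.Agent.D2 (Ctx0)

universe u

variable {k Ω : Type u} [Field k] [Field Ω] [Algebra k Ω] {v : RVal Ω}

namespace IX

/-- Elements of a finite extension are roots of polynomials of bounded degree. -/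
theorem exists_poly {L : IntermediateField k Ω} (D : IntermediateField L Ω)
    (hD : FiniteDimensional L D) {g : Ω} (hg : g ∈ D) :
    ∃ P : L[X], P ≠ 0 ∧ P.natDegree ≤ Module.finrank L D ∧ aeval g P = 0 := by
  have hint : IsIntegral L (⟨g, hg⟩ : D) := Algebra.IsIntegral.isIntegral _
  have hfree : Module.Free L D := Module.Free.of_divisionRing L D
  refine ⟨minpoly L (⟨g, hg⟩ : D), minpoly.ne_zero hint, minpoly.natDegree_le _, ?_⟩
  have h2 := congrArg (algebraMap D Ω) (minpoly.aeval L (⟨g, hg⟩ : D))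
  rw [map_zero, ← aeval_algebraMap_apply] at h2
  exact h2

/-- The values of a finite extension. -/
theorem exists_fg_alg {L : IntermediateField k Ω} {G : AddSubgroup ℝ} (hG : G.FG)
    (hv : ∀ g ∈ L, g ≠ 0 → v g ∈ G) {m : ℕ} {t' : Fin m → Ω} (ht' : ∀ i, IsAlgebraic L (t' i)) :
    ∃ G' : AddSubgroup ℝ, G'.FG ∧
      ∀ g ∈ IntermediateField.adjoin k (Set.range t'), g ≠ 0 → v g ∈ G' := by
  classical
  obtain ⟨D, hD, htD⟩ : ∃ D : IntermediateField L Ω, FiniteDimensional L D ∧ ∀ i, t' i ∈ D := by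
    refine ⟨IntermediateField.adjoin L (Set.range t'),
      IntermediateField.finiteDimensional_adjoin ?_, fun i =>
        IntermediateField.subset_adjoin L _ ⟨i, rfl⟩⟩
    rintro _ ⟨i, rfl⟩
    exact (ht' i).isIntegral
  obtain ⟨n, hn⟩ : ∃ n, n = Module.finrank L D := ⟨_, rfl⟩
  have hn0 : ((n.factorial : ℕ) : ℝ) ≠ 0 := by exact_mod_cast n.factorial_ne_zero
  refine ⟨G.map (AddMonoidHom.mulLeft ((n.factorial : ℝ)⁻¹)), ?_, fun g hg hg0 => ?_⟩
  · obtain ⟨S, hS⟩ := hG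
    refine ⟨S.image (AddMonoidHom.mulLeft ((n.factorial : ℝ)⁻¹)), ?_⟩
    rw [Finset.coe_image, ← AddMonoidHom.map_closure, hS]
  · have hg' : g ∈ D := by
      have h1 : IntermediateField.adjoin k (Set.range t') ≤ D.restrictScalars k := by
        rw [IntermediateField.adjoin_le_iff]
        rintro _ ⟨i, rfl⟩
        exact htD i
      exact h1 hg
    obtain ⟨P, hP0, hdeg, hP⟩ := exists_poly D hD hg'
    obtain ⟨N, hN0, hN, hNv⟩ := I4.exists_nsmul hv hg0 hP0 hP
    obtain ⟨c, hc⟩ := Nat.dvd_factorial hN0 (hN.trans (hdeg.trans hn.symm.le))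
    refine ⟨(n.factorial : ℝ) * v g, ?_, ?_⟩
    · have h3 : (n.factorial : ℝ) * v g = c • ((N : ℝ) * v g) := by
        rw [nsmul_eq_mul, hc]
        push_cast
        ring
      rw [h3]
      exact G.nsmul_mem hNv c
    · change (n.factorial : ℝ)⁻¹ * ((n.factorial : ℝ) * v g) = v g
      rw [inv_mul_cancel_left₀ hn0]

/-- The values of the core. -/
theorem exists_fg_core [IsAlgClosed Ω] {m : ℕ} {t : Fin m → Ω} (ht : AlgebraicIndependent k t)
    (hfar : ∀ i, ¬ LimAlg v (IntermediateField.adjoin k (t '' {j | j ≠ i})) (t i))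
    {L₀ : IntermediateField k Ω} {G : AddSubgroup ℝ} (hG : G.FG)
    (hv : ∀ g ∈ L₀, g ≠ 0 → v g ∈ G) (hlim : ∀ i, LimAlg v L₀ (t i)) :
    ∃ G' : AddSubgroup ℝ, G'.FG ∧
      ∀ g ∈ IntermediateField.adjoin k (Set.range t), g ≠ 0 → v g ∈ G' := by
  obtain ⟨t', h1, h2⟩ := Q7.exists_move_all ht hfar hlim
  obtain ⟨G', hG', hGv⟩ := exists_fg_alg hG hv h1
  obtain ⟨φ, hφ⟩ := Q7.exists_isometry ht h2 (D := IntermediateField.adjoin k (Set.range t'))
    fun i => IntermediateField.subset_adjoin _ _ ⟨i, rfl⟩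
  refine ⟨G', hG', fun g hg hg0 => ?_⟩
  have hg0' : (⟨g, hg⟩ : IntermediateField.adjoin k (Set.range t)) ≠ 0 := fun h0 =>
    hg0 (congrArg Subtype.val h0)
  rw [← hφ ⟨g, hg⟩ hg0']
  exact hGv _ (φ ⟨g, hg⟩).2 fun h0 => hg0' ((map_eq_zero_iff φ φ.injective).1 (Subtype.ext h0))

theorem limAlg_trans [IsAlgClosed Ω] {L L' : IntermediateField k Ω}
    (h : ∀ a ∈ L, LimAlg v L' a) {z : Ω} (hz : LimAlg v L z) : LimAlg v L' z := by
  intro c
  obtain ⟨α, hα, h1⟩ := hz c
  obtain ⟨β, hβ, h2⟩ := LimAlg.of_isAlgebraic h hα c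
  refine ⟨β, hβ, ?_⟩
  have h3 : z - β = (z - α) + (α - β) := by ring
  rw [h3]
  exact h1.add h2

/-- `exists_small` with a finitely generated value group. -/
theorem exists_small_fg [IsAlgClosed k] [IsAlgClosed Ω] {δ : ℕ} (h : Triv k v)
    {E : IntermediateField k Ω} (hE : E.FG) (hpos : ∃ a ∈ E, a ≠ 0 ∧ 0 < v a)
    {L₀ : IntermediateField k Ω} (hD : DefL v L₀ δ) {G : AddSubgroup ℝ} (hG : G.FG)
    (hv : ∀ g ∈ L₀, g ≠ 0 → v g ∈ G) (hlim : ∀ e ∈ E, LimAlg v L₀ e) :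
    ∃ (m : ℕ) (t : Fin m → Ω), (∀ i, t i ∈ E) ∧
      (∃ a ∈ IntermediateField.adjoin k (Set.range t), a ≠ 0 ∧ 0 < v a) ∧
      DefL v (IntermediateField.adjoin k (Set.range t)) δ ∧
      (∃ G' : AddSubgroup ℝ, G'.FG ∧
        ∀ g ∈ IntermediateField.adjoin k (Set.range t), g ≠ 0 → v g ∈ G') ∧
      ∀ e ∈ E, LimAlg v (IntermediateField.adjoin k (Set.range t)) e := by
  obtain ⟨m, s, t, t', hind, ht, ht', hsep, hpt, hlt, hfar⟩ := exists_core h hE hpos
  have hind' : AlgebraicIndependent k t := hind.comp Sum.inl Sum.inl_injective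
  refine ⟨m, t, ht, hpt, DefL.of_core' h hind' hfar hD fun i => hlim _ (ht i),
    exists_fg_core hind' hfar hG hv fun i => hlim _ (ht i), fun e he => ?_⟩
  refine LimAlg.field hpt (S := Set.range t') ?_
    (D2P.isAlgebraic_mono ?_ (hsep e he).isIntegral.isAlgebraic)
  · rintro _ ⟨i, rfl⟩
    exact hlt i
  · rw [IntermediateField.adjoin_le_iff]
    rintro a (ha | ha)
    · exact IntermediateField.subset_adjoin _ _ (Or.inl (IntermediateField.subset_adjoin _ _ ha))
    · exact IntermediateField.subset_adjoin _ _ (Or.inr ha)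

/-- Elements with dependent values. -/
theorem exists_rat {a b : ℝ} (ha : a ≠ 0) (h : ¬ LinearIndependent ℚ ![a, b]) :
    ∃ q : ℚ, b = q * a := by
  rw [LinearIndependent.pair_iff] at h
  push Not at h
  obtain ⟨s, t, hst, h1⟩ := h
  have ht : t ≠ 0 := by
    rintro rfl
    rw [zero_smul, add_zero, Rat.smul_def, mul_eq_zero] at hst
    rcases hst with h2 | h2
    · exact h1 (by exact_mod_cast h2) rfl
    · exact ha h2
  refine ⟨-s / t, ?_⟩
  have ht' : (t : ℝ) ≠ 0 := by exact_mod_cast ht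
  rw [Rat.smul_def, Rat.smul_def] at hst
  push_cast
  field_simp
  linarith

end IX

/-- The statement of row I4 (the hypothesis on the value group only for the core). -/
def IrrStmt (k : Type u) [Field k] (δ : ℕ) : Prop :=
  ∀ (Ω : Type u) [Field Ω] [Algebra k Ω] [IsAlgClosed Ω] (s m : ℕ) (v : RVal Ω) (_ : Ctx0 k v)
    (t : Fin m → Ω) (t' : Fin s → Ω) (_ : AlgebraicIndependent k (Sum.elim t t'))
    (E : IntermediateField k Ω) (_ : E.FG) (_ : ∀ i, t i ∈ E) (_ : ∀ i, t' i ∈ E)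
    (_ : ∀ e ∈ E, IsSeparable (IntermediateField.adjoin k (Set.range t ∪ Set.range t')) e)
    (_ : ∀ g : Ω, IsAlgebraic E g)
    (_ : ∃ G : AddSubgroup ℝ, G.FG ∧
      ∀ g ∈ IntermediateField.adjoin k (Set.range t), g ≠ 0 → v g ∈ G)
    (_ : ∃ c₁ ∈ IntermediateField.adjoin k (Set.range t),
      ∃ c₂ ∈ IntermediateField.adjoin k (Set.range t), c₁ ≠ 0 ∧ c₂ ≠ 0 ∧
        LinearIndependent ℚ ![v c₁, v c₂])
    (_ : DefL v (IntermediateField.adjoin k (Set.range t)) δ)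
    (_ : ∀ i, LimAlg v (IntermediateField.adjoin k (Set.range t)) (t' i)),
    LUs v (algebraMap k Ω).range E.toSubfield

open IX in
/-- Theorem N for cores of defect at most two, residue field `k` and finitely generated value
group of the core. -/
theorem lus_of_limAlg_two (p : ℕ) [Fact p.Prime] [CharP k p] [IsAlgClosed k] [IsAlgClosed Ω]
    (H4 : IrrStmt k 2) (h : Ctx0 k v) {E : IntermediateField k Ω} (hE : E.FG)
    (hΩ : ∀ g : Ω, IsAlgebraic E g) (hpos : ∃ a ∈ E, a ≠ 0 ∧ 0 < v a)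
    {L₀ : IntermediateField k Ω} {G : AddSubgroup ℝ} (hG : G.FG)
    (hv : ∀ g ∈ L₀, g ≠ 0 → v g ∈ G) (hD : DefL v L₀ 2) (hlim : ∀ e ∈ E, LimAlg v L₀ e) :
    LUs v (algebraMap k Ω).range E.toSubfield := by
  classical
  obtain ⟨m, s, t, t', hind, htE, ht'E, hsep, hp, hl, hfar⟩ := exists_core h.triv hE hpos
  have ht : AlgebraicIndependent k t := hind.comp Sum.inl Sum.inl_injective
  have hDt : DefL v (IntermediateField.adjoin k (Set.range t)) 2 :=
    DefL.of_core' h.triv ht hfar hD fun i => hlim _ (htE i)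
  obtain ⟨G', hG', hGv⟩ := exists_fg_core ht hfar hG hv fun i => hlim _ (htE i)
  by_cases hr : ∃ c₁ ∈ IntermediateField.adjoin k (Set.range t),
      ∃ c₂ ∈ IntermediateField.adjoin k (Set.range t), c₁ ≠ 0 ∧ c₂ ≠ 0 ∧
        LinearIndependent ℚ ![v c₁, v c₂]
  · exact H4 Ω s m v h t t' hind E hE htE ht'E hsep hΩ ⟨G', hG', hGv⟩ hr hDt hl
  -- rational rank one
  push Not at hr
  have hlimt : ∀ e ∈ E, LimAlg v (IntermediateField.adjoin k (Set.range t)) e := by
    intro e he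
    refine LimAlg.field hp (S := Set.range t') ?_
      (D2P.isAlgebraic_mono ?_ (hsep e he).isIntegral.isAlgebraic)
    · rintro _ ⟨i, rfl⟩
      exact hl i
    · rw [IntermediateField.adjoin_le_iff]
      rintro a (ha | ha)
      · exact IntermediateField.subset_adjoin _ _ (Or.inl (IntermediateField.subset_adjoin _ _ ha))
      · exact IntermediateField.subset_adjoin _ _ (Or.inr ha)
  obtain ⟨a, ha, ha0, hav⟩ := id hp
  obtain ⟨Q, hQm⟩ : ∃ Q : AddSubgroup ℝ, ∀ g, g ∈ Q ↔ ∃ q : ℚ, g = q * v a :=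
    ⟨{ carrier := {g | ∃ q : ℚ, g = q * v a}
       add_mem' := by
        rintro _ _ ⟨q, rfl⟩ ⟨q', rfl⟩
        exact ⟨q + q', by push_cast; ring⟩
       zero_mem' := ⟨0, by simp⟩
       neg_mem' := by
        rintro _ ⟨q, rfl⟩
        exact ⟨-q, by push_cast; ring⟩ }, fun _ => Iff.rfl⟩
  have hQ : ∀ g ∈ IntermediateField.adjoin k (Set.range t), g ≠ 0 → v g ∈ G' ⊓ Q := by
    intro g hg hg0
    exact ⟨hGv g hg hg0, (hQm _).2 (exists_rat hav.ne' (hr a ha g hg ha0 hg0))⟩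
  obtain ⟨δ, hδ, hδQ⟩ := exists_step (fg_of_le inf_le_left hG') hav fun g hg => (hQm g).1 hg.2
  obtain ⟨x, hx, hx0, hxv, hxE⟩ := exists_unif hp hδ fun g hg hg0 => hδQ _ (hQ g hg hg0)
  have hlimx : ∀ e ∈ E, LimAlg v (IntermediateField.adjoin k {x}) e := fun e he =>
    limAlg_trans (fun b hb => limAlg_unif h hx hx0 hxv hxE hb) (hlimt e he)
  exact lus_of_limAlg p h.triv hE hΩ hpos ⟨{x}, by rw [Finset.coe_singleton]⟩
    ⟨x, IntermediateField.mem_adjoin_simple_self k x, hx0, hxv⟩ (defL_adjoin_one h.triv x) hlimx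

end Pool.Agent.TW
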