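import Pool.Agent.Lib.TWI.IXb
import Pool.Agent.Lib.TWI.I4
import Pool.Agent.Lib.TWM.S9d

/-!
# TANK W, row IX: the base of the induction, defect at most two
-/

set_option autoImplicit false

namespace Pool.Agent.TW

open Pool.Agent.H15JM (RVal)
open Pool.Agent.LU1 (VPos)
open Pool.Agent.LUC (LUs)
open Pool.Agent.TA (CtxR)
open Pool.Agent.D2 (Ctx0)
open Pool.Agent.ALLF (exists_max_ind)

universe u

variable {k Ω : Type u} [Field k] [Field Ω] [Algebra k Ω] {v : RVal Ω}

/-- Residue field `k`: the defect in terms of the rational rank. -/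
theorem le_of_defL (h : Ctx0 k v) {E : IntermediateField k Ω} {δ n r : ℕ} (hD : DefL v E δ)
    (hn : Algebra.trdeg k E = n) {X : Fin r → Ω}
    (hspan : ∀ g : Ω, g ≠ 0 → v g ∈ Submodule.span ℚ (Set.range fun i => v (X i))) :
    n ≤ r + δ := by
  obtain ⟨r', q, x, y, htr, hx, hxi, hy, hyP⟩ := hD
  -- no residues
  have hq : q = 0 := by
    by_contra hq
    let i : Fin q := ⟨0, Nat.pos_of_ne_zero hq⟩
    have h1 := hyP (MvPolynomial.X i) (MvPolynomial.X_ne_zero i)
    rw [MvPolynomial.aeval_X] at h1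
    obtain ⟨c, -, hc⟩ := h.res _ h1.1 h1.2
    have h2 : (MvPolynomial.X i - MvPolynomial.C c : MvPolynomial (Fin q) k) ≠ 0 := by
      intro h0
      have h2 := congrArg (MvPolynomial.eval fun _ => c + 1) h0
      rw [map_sub, MvPolynomial.eval_X, MvPolynomial.eval_C, map_zero, add_sub_cancel_left] at h2
      exact one_ne_zero h2
    have h3 := hyP _ h2
    rw [map_sub, MvPolynomial.aeval_X, MvPolynomial.aeval_C] at h3
    have h4 := hc h3.1
    rw [h3.2] at h4
    exact lt_irrefl _ h4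
  -- independent values
  have hr' : r' ≤ r := by
    have h2 := linearIndependent_le_span' _ hxi (Set.range fun i => v (X i)) (by
      rintro _ ⟨i, rfl⟩
      exact hspan _ (hx i).2)
    rw [Cardinal.mk_fin] at h2
    have h3 : Fintype.card (Set.range fun i => v (X i)) ≤ r := by
      refine (Fintype.card_range_le _).trans ?_
      rw [Fintype.card_fin]
    have h4 : r' ≤ Fintype.card (Set.range fun i => v (X i)) := by exact_mod_cast h2
    exact h4.trans h3
  rw [hn] at htr
  have h1 : n ≤ r' + q + δ := Nat.cast_le.1 htr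
  omega

/-- Residue field `k`, defect at most two, finitely generated value group (M2). -/
theorem lus_defTwo (p : ℕ) [Fact p.Prime] [CharP k p] [IsAlgClosed k] [IsAlgClosed Ω]
    (h : Ctx0 k v) {E : IntermediateField k Ω} (hE : E.FG) (hΩ : ∀ g : Ω, IsAlgebraic E g)
    (hpos : ∃ a ∈ E, a ≠ 0 ∧ 0 < v a) (hD : DefL v E 2)
    (hG : ∃ G : AddSubgroup ℝ, G.FG ∧ ∀ g ∈ E, g ≠ 0 → v g ∈ G) :
    LUs v (algebraMap k Ω).range E.toSubfield := by
  have hess : Algebra.EssFiniteType k E := IntermediateField.essFiniteType_iff.2 hE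
  obtain ⟨n, hn⟩ : ∃ n : ℕ, Algebra.trdeg k E = n :=
    Cardinal.lt_aleph0.1 (_root_.trdeg_lt_aleph0 k E)
  have htrΩ : Algebra.trdeg k Ω = n := by
    have h1 : Algebra.IsAlgebraic E Ω := ⟨hΩ⟩
    have h2 := trdeg_add_eq k E (A := Ω)
    have h3 : Algebra.trdeg E Ω = 0 := trdeg_eq_zero (R := E) (A := Ω)
    rw [← h2, h3, add_zero, hn]
  obtain ⟨r, X, hX0, hX, hspan⟩ := exists_max_ind v h.triv htrΩ
  have hctx : CtxR k v n r :=
    { triv := h.triv, res := h.res, trdeg := htrΩ, rank := ⟨X, hX0, hX, hspan⟩ }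
  have hr : 0 < r := by
    rcases Nat.eq_zero_or_pos r with h0 | h0
    · exfalso
      subst h0
      obtain ⟨a, -, ha0, hav⟩ := hpos
      have h1 := hspan a ha0
      rw [Set.range_eq_empty, Submodule.span_empty, Submodule.mem_bot] at h1
      rw [h1] at hav
      exact lt_irrefl _ hav
    · exact h0
  obtain ⟨G, hG, hGv⟩ := hG
  refine TWM.lus_twoFG p hctx hr (le_of_defL h hD hn hspan) hE hΩ (IX.fg_of_le (G' := G) ?_ hG)
  rintro _ ⟨g, hg, hg0, rfl⟩
  exact hGv g hg hg0

/-- Row I4 for defect at most two. -/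
theorem irrStmt_two (p : ℕ) [Fact p.Prime] (k : Type u) [Field k] [IsAlgClosed k] [CharP k p] :
    IrrStmt k 2 := fun _ _ _ _ =>
  lus_of_basis_irr' 2 fun _ h _ hE hΩ hpos hD hG => lus_defTwo p h hE hΩ hpos hD hG

end Pool.Agent.TW
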